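import Pool.Agent.Lib.MP_436e1a_gt.E.IndNat

/-! The cubic map is a threefold branched covering. -/

open scoped ContDiff
open Set MeasureTheory

namespace Pool.Agent.CSP

/-- the first two coordinates as a complex number -/
def ccz (x : E 3) : ℂ := ⟨x 0, x 1⟩

theorem cc_cont : Continuous ccz := by
  have h : ccz = fun x : E 3 => ((x 0 : ℝ) : ℂ) + (x 1 : ℝ) * Complex.I :=
    funext fun x => Complex.mk_eq_add_mul_I _ _
  rw [h]
  fun_prop

theorem cc_cub (x : E 3) : ccz (cub x) = ccz x ^ 3 := by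
  apply Complex.ext <;> simp [ccz, cub, pow_succ] <;> ring

theorem cc_rho {x : E 3} (h : ccz x ≠ 0) : 0 < x 0 ^ 2 + x 1 ^ 2 := by
  have h1 := Complex.normSq_pos.2 h
  rw [ccz, Complex.normSq_mk] at h1
  nlinarith

theorem cc_null (θ : ℝ) : volume {x : E 3 | x 1 * Real.cos θ = x 0 * Real.sin θ} = 0 := by
  let l : E 3 →L[ℝ] ℝ := Real.cos θ • EuclideanSpace.proj 1 - Real.sin θ • EuclideanSpace.proj 0
  have hl : ∀ x : E 3, l x = Real.cos θ * x 1 - Real.sin θ * x 0 := fun x => rfl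
  refine measure_mono_null (fun x hx => ?_) (Measure.addHaar_submodule volume l.ker fun h => ?_)
  · change l x = 0
    rw [hl]
    linarith [show x 1 * Real.cos θ = x 0 * Real.sin θ from hx]
  · have h1 : l !₂[-Real.sin θ, Real.cos θ, 0] = 0 := (h ▸ Submodule.mem_top : _ ∈ l.ker)
    rw [hl] at h1
    simp only [Matrix.cons_val_one, Matrix.cons_val_zero] at h1
    linarith [Real.sin_sq_add_cos_sq θ]

theorem cc_null_arg (θ : ℝ) : volume {x : E 3 | (ccz x).arg = θ} = 0 := by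
  refine measure_mono_null (fun x hx => ?_) (cc_null θ)
  have h0 : ‖ccz x‖ * Real.cos (ccz x).arg = x 0 := Complex.norm_mul_cos_arg _
  have h1 : ‖ccz x‖ * Real.sin (ccz x).arg = x 1 := Complex.norm_mul_sin_arg _
  rw [show (ccz x).arg = θ from hx] at h0 h1
  change x 1 * Real.cos θ = x 0 * Real.sin θ
  rw [← h0, ← h1]
  ring

theorem cc_null_slit : volume {x : E 3 | ccz x ∉ Complex.slitPlane} = 0 := by
  refine measure_mono_null (fun x hx => ?_)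
    (measure_union_null (cc_null_arg Real.pi) (cc_null_arg 0))
  by_contra h
  refine hx (Complex.mem_slitPlane_iff_arg.2 ⟨fun h1 => h (Or.inl h1), fun h1 => h (Or.inr ?_)⟩)
  change (ccz x).arg = 0
  rw [h1, Complex.arg_zero]

theorem cc_det (x : E 3) : (fderiv ℝ cub x).det =
    9 * (x 0 ^ 2 + x 1 ^ 2) ^ 2 * (x 0 ^ 2 + x 1 ^ 2 + 3 * x 2 ^ 2) := by
  have h : HasFDerivAt cub (fr ![!₂[3 * x 0 ^ 2 - 3 * x 1 ^ 2, 6 * x 0 * x 1, 2 * x 2 * x 0],
      !₂[-(6 * x 0 * x 1), 3 * x 0 ^ 2 - 3 * x 1 ^ 2, 2 * x 2 * x 1],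
      (!₂[0, 0, x 0 ^ 2 + x 1 ^ 2 + 3 * x 2 ^ 2] : E 3)]) x := by
    have p : ∀ i, HasFDerivAt (fun y : E 3 => y i) (EuclideanSpace.proj i : E 3 →L[ℝ] ℝ) x :=
      fun i => (EuclideanSpace.proj i : E 3 →L[ℝ] ℝ).hasFDerivAt
    rw [← hasFDerivWithinAt_univ, hasFDerivWithinAt_euclidean]
    intro i
    rw [hasFDerivWithinAt_univ]
    fin_cases i
    · refine (((p 0).pow 3).sub (((p 0).const_mul 3).mul ((p 1).pow 2))).congr_fderiv ?_
      ext v
      simp [fr_apply, Fin.sum_univ_three]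
      ring
    · refine (((((p 0).pow 2).const_mul 3).mul (p 1)).sub ((p 1).pow 3)).congr_fderiv ?_
      ext v
      simp [fr_apply, Fin.sum_univ_three]
      ring
    · refine ((p 2).mul ((((p 0).pow 2).add ((p 1).pow 2)).add ((p 2).pow 2))).congr_fderiv ?_
      ext v
      simp [fr_apply, Fin.sum_univ_three]
      ring
  rw [h.fderiv, det_fr, Matrix.det_fin_three]
  simp
  ring

theorem cc_inj {z w : ℂ} {a : ℝ} (hz : z ≠ 0) (h1 : z.arg ∈ Ioo a (a + 2 * Real.pi / 3))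
    (h2 : w.arg ∈ Ioo a (a + 2 * Real.pi / 3)) (h : z ^ 3 = w ^ 3) : z = w := by
  refine Complex.ext_norm_arg ?_ ?_
  · refine (pow_left_inj₀ (norm_nonneg z) (norm_nonneg w) three_ne_zero).1 ?_
    rw [← norm_pow, h, norm_pow]
  · have h3 := Complex.arg_pow_coe_angle z 3
    rw [h, Complex.arg_pow_coe_angle, ← Real.Angle.coe_nsmul, ← Real.Angle.coe_nsmul,
      Real.Angle.angle_eq_iff_two_pi_dvd_sub] at h3
    obtain ⟨n, hn⟩ := h3
    simp only [nsmul_eq_mul, Nat.cast_ofNat] at hn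
    have hp := Real.pi_pos
    have h4 : (n : ℝ) < 1 := by nlinarith [h1.1, h2.2]
    have h5 : -1 < (n : ℝ) := by nlinarith [h1.2, h2.1]
    have h6 : n = 0 := by
      have h7 : n < 1 := by exact_mod_cast h4
      have h8 : -1 < n := by exact_mod_cast h5
      omega
    rw [h6, Int.cast_zero, mul_zero] at hn
    linarith

theorem cc_root {w : ℂ} (hw : w ∈ Complex.slitPlane) (j : Fin 3) : ∃ z ∈ Complex.slitPlane,
    z.arg ∈ Ioo (-Real.pi + j * (2 * Real.pi / 3))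
      (-Real.pi + j * (2 * Real.pi / 3) + 2 * Real.pi / 3) ∧ z ^ 3 = w := by
  obtain ⟨h1, h0⟩ := Complex.mem_slitPlane_iff_arg.1 hw
  have h2 := Complex.neg_pi_lt_arg w
  have h3 := (Complex.arg_le_pi w).lt_of_ne h1
  have hp := Real.pi_pos
  have hj0 : (0 : ℝ) ≤ (j : ℕ) := Nat.cast_nonneg _
  have hj2 : ((j : ℕ) : ℝ) ≤ 2 := by exact_mod_cast Nat.lt_succ_iff.1 j.2
  have hr : 0 < ‖w‖ ^ ((3 : ℕ) : ℝ)⁻¹ := Real.rpow_pos_of_pos (norm_pos_iff.2 h0) _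
  have hr3 := Real.rpow_inv_natCast_pow (norm_nonneg w) three_ne_zero
  generalize ‖w‖ ^ ((3 : ℕ) : ℝ)⁻¹ = r at hr hr3
  obtain ⟨θ, hθ⟩ : ∃ θ : ℝ, 3 * θ = w.arg + ((j : ℕ) - 1) * (2 * Real.pi) :=
    ⟨_ / 3, mul_div_cancel₀ _ three_ne_zero⟩
  have h4 : -Real.pi < θ := by nlinarith
  have h5 : θ < Real.pi := by nlinarith
  have ha := Complex.arg_mul_cos_add_sin_mul_I hr ⟨h4, h5.le⟩
  rw [← Complex.exp_mul_I] at ha
  refine ⟨r * Complex.exp (θ * Complex.I), Complex.mem_slitPlane_iff_arg.2 ⟨ha.trans_ne h5.ne,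
    mul_ne_zero (Complex.ofReal_ne_zero.2 hr.ne') (Complex.exp_ne_zero _)⟩,
    by rw [ha]; constructor <;> linarith, ?_⟩
  have h6 : ((3 : ℕ) : ℂ) * (θ * Complex.I) =
      w.arg * Complex.I + (((j : ℕ) - 1 : ℤ) : ℂ) * (2 * Real.pi * Complex.I) := by
    have h7 := congrArg (fun t : ℝ => (t : ℂ)) hθ
    push_cast at h7 ⊢
    linear_combination Complex.I * h7
  rw [mul_pow, ← Complex.exp_nat_mul, h6, Complex.exp_add, Complex.exp_int_mul_two_pi_mul_I,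
    mul_one, ← Complex.ofReal_pow, hr3, Complex.norm_mul_exp_arg_mul_I]

theorem cc_height {ρ : ℝ} (hρ : 0 ≤ ρ) (y : ℝ) : ∃ s : ℝ, s * (ρ + s ^ 2) = y := by
  have hc : Continuous fun s : ℝ => s * (ρ + s ^ 2) := by fun_prop
  have h1 := le_abs_self y
  have h2 := neg_abs_le y
  have h3 := abs_nonneg y
  have h4 : |y| + 1 ≤ (|y| + 1) * (ρ + (|y| + 1) ^ 2) :=
    le_mul_of_one_le_right (by linarith) (by nlinarith)
  exact intermediate_value_univ (-(|y| + 1)) (|y| + 1) hc ⟨by nlinarith, by linarith⟩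

/-- the three sectors are given by the argument of `x 0 + x 1 i` -/
theorem exists_sectors : ∃ Ω : Fin 3 → Set (E 3), (∀ j, IsOpen (Ω j) ∧ Ω j ⊆ {0}ᶜ ∧ InjOn cub (Ω j) ∧
    (∀ x ∈ Ω j, 0 < (fderiv ℝ cub x).det) ∧ volume (cub '' Ω j)ᶜ = 0) ∧
    (Pairwise fun j l => Disjoint (Ω j) (Ω l)) ∧ volume (⋃ j, Ω j)ᶜ = 0 := by
  have hp := Real.pi_pos
  refine ⟨fun j => {x | ccz x ∈ Complex.slitPlane ∩ Complex.arg ⁻¹'
    Ioo (-Real.pi + j * (2 * Real.pi / 3)) (-Real.pi + j * (2 * Real.pi / 3) + 2 * Real.pi / 3)},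
    fun j => ⟨?_, ?_, ?_, ?_, ?_⟩, ?_, ?_⟩
  · exact (ContinuousOn.isOpen_inter_preimage
      (fun z hz => (Complex.continuousAt_arg hz).continuousWithinAt) Complex.isOpen_slitPlane
      isOpen_Ioo).preimage cc_cont
  · rintro x hx rfl
    exact Complex.slitPlane_ne_zero hx.1 rfl
  · intro x hx y hy h
    have hz := Complex.slitPlane_ne_zero hx.1
    have h1 : ccz x = ccz y := cc_inj hz hx.2 hy.2 (by rw [← cc_cub, h, cc_cub])
    have h2 : x 0 = y 0 := congrArg Complex.re h1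
    have h3 : x 1 = y 1 := congrArg Complex.im h1
    have h4 : x 2 * (x 0 ^ 2 + x 1 ^ 2 + x 2 ^ 2) = y 2 * (y 0 ^ 2 + y 1 ^ 2 + y 2 ^ 2) :=
      congrArg (fun u : E 3 => u 2) h
    rw [← h2, ← h3] at h4
    have h5 := cc_rho hz
    have h6 : 0 < x 0 ^ 2 + x 1 ^ 2 + (x 2 ^ 2 + x 2 * y 2 + y 2 ^ 2) := by
      nlinarith [sq_nonneg (x 2 + y 2), sq_nonneg (x 2), sq_nonneg (y 2)]
    refine ml_ext h2 h3 (sub_eq_zero.1 ((mul_eq_zero.1 ?_).resolve_right h6.ne'))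
    linear_combination h4
  · intro x hx
    have h5 := cc_rho (Complex.slitPlane_ne_zero hx.1)
    rw [cc_det]
    positivity
  · refine measure_mono_null (fun y hy => ?_) cc_null_slit
    refine fun hs => hy ?_
    obtain ⟨z, h1, h2, h3⟩ := cc_root hs j
    obtain ⟨s, h4⟩ := cc_height (ρ := z.re ^ 2 + z.im ^ 2) (by positivity) (y 2)
    have h5 : ccz (cub !₂[z.re, z.im, s]) = ccz y := (cc_cub _).trans h3
    exact ⟨!₂[z.re, z.im, s], ⟨h1, h2⟩,
      ml_ext (congrArg Complex.re h5) (congrArg Complex.im h5) h4⟩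
  · have key : ∀ j l : Fin 3, j < l → ∀ t : ℝ,
        t < -Real.pi + j * (2 * Real.pi / 3) + 2 * Real.pi / 3 →
          -Real.pi + l * (2 * Real.pi / 3) < t → False := fun j l h t h1 h2 => by
      have h3 : ((j : ℕ) : ℝ) + 1 ≤ (l : ℕ) := by exact_mod_cast h
      nlinarith
    intro j l h
    refine disjoint_left.2 fun x hx hx' => ?_
    rcases lt_or_gt_of_ne h with h | h
    · exact key j l h _ hx.2.2 hx'.2.1
    · exact key l j h _ hx'.2.2 hx.2.1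
  · refine measure_mono_null (fun x hx => ?_) (measure_union_null cc_null_slit
      (measure_union_null (cc_null_arg (-Real.pi / 3)) (cc_null_arg (Real.pi / 3))))
    by_contra h
    have h1 : ccz x ∈ Complex.slitPlane := by_contra fun h' => h (Or.inl h')
    have h2 : (ccz x).arg ≠ -Real.pi / 3 := fun h' => h (Or.inr (Or.inl h'))
    have h3 : (ccz x).arg ≠ Real.pi / 3 := fun h' => h (Or.inr (Or.inr h'))
    have h4 := Complex.neg_pi_lt_arg (ccz x)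
    have h5 := (Complex.arg_le_pi (ccz x)).lt_of_ne (Complex.mem_slitPlane_iff_arg.1 h1).1
    refine hx (mem_iUnion.2 ?_)
    rcases lt_or_gt_of_ne h2 with h2 | h2
    · exact ⟨0, h1, by norm_num; linarith, by norm_num; linarith⟩
    rcases lt_or_gt_of_ne h3 with h3 | h3
    · exact ⟨1, h1, by norm_num; linarith, by norm_num; linarith⟩
    · exact ⟨2, h1, by norm_num; linarith, by norm_num; linarith⟩

/-- `cub` is proper: `‖cub x‖ ≥ m ‖x‖ ^ 3` with `m > 0` -/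
theorem isCompact_preimage_cub {K : Set (E 3)} (h : IsCompact K) : IsCompact (cub ⁻¹' K) := by
  obtain ⟨R, hR⟩ := h.isBounded.exists_norm_le
  refine Metric.isCompact_of_isClosed_isBounded (h.isClosed.preimage contDiff_cub.continuous)
    (isBounded_iff_forall_norm_le.2 ⟨1 + 4 * R ^ 2, fun x hx => ?_⟩)
  have h1 : ‖cub x‖ ^ 2 ≤ R ^ 2 := pow_le_pow_left₀ (norm_nonneg _) (hR _ hx) 2
  have h2 : ‖cub x‖ ^ 2 = (x 0 ^ 2 + x 1 ^ 2) ^ 3 + x 2 ^ 2 * (x 0 ^ 2 + x 1 ^ 2 + x 2 ^ 2) ^ 2 := by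
    rw [ml_sq]
    simp [cub]
    ring
  have h3 : ‖x‖ ^ 6 = (x 0 ^ 2 + x 1 ^ 2 + x 2 ^ 2) ^ 3 := by
    rw [← ml_sq]
    ring
  have hu : 0 ≤ x 0 ^ 2 + x 1 ^ 2 := by positivity
  have hv := sq_nonneg (x 2)
  generalize x 0 ^ 2 + x 1 ^ 2 = u at h2 h3 hu
  generalize x 2 ^ 2 = v at h2 h3 hv
  have h4 : ‖x‖ ^ 6 ≤ 4 * R ^ 2 := by
    have h5 := mul_nonneg (sq_nonneg (u - v)) (add_nonneg hu hv)
    have h6 := mul_nonneg (mul_nonneg hu hu) hv
    have h7 := mul_nonneg (mul_nonneg hu hv) hv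
    nlinarith
  rcases le_total ‖x‖ 1 with h5 | h5
  · nlinarith [sq_nonneg R]
  · linarith [le_self_pow₀ h5 (show 6 ≠ 0 by norm_num)]

theorem cc_zero : cub 0 = 0 := by
  have h := cub_smul 0 0
  rwa [zero_smul, zero_pow three_ne_zero, zero_smul] at h

theorem cc_fderiv (x : E 3) : HasFDerivAt cub (fderiv ℝ cub x) x :=
  (contDiff_cub.differentiable (by simp) x).hasFDerivAt

namespace Ctx

variable {c : Ctx} {f g : V6 → c.Y} {k : V6 → ℝ} {W : Set (E 3)}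

/-- `ind_cover` for `(x, y) ↦ (x, cub y)` (determinant of a product map: `LinearMap.det_prodMap`;
null sets: `Measure.prod_prod`) -/
theorem ind_cub_snd (h : c.IAdm (W ×ˢ {0}ᶜ) f g k) :
    c.IAdm (W ×ˢ {0}ᶜ) (fun v => f (v.1, cub v.2)) (fun v => g (v.1, cub v.2))
      (fun v => k (v.1, cub v.2)) ∧
    c.ind (W ×ˢ {0}ᶜ) (fun v => f (v.1, cub v.2)) (fun v => g (v.1, cub v.2))
      (fun v => k (v.1, cub v.2)) = 3 * c.ind (W ×ˢ {0}ᶜ) f g k := by
  obtain ⟨Ω, hΩ, hd, hn⟩ := exists_sectors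
  have hc : ContDiff ℝ ∞ fun v : V6 => (v.1, cub v.2) :=
    contDiff_fst.prodMk (contDiff_cub.comp contDiff_snd)
  have key := ind_cover h h.op (Φ := fun v => (v.1, cub v.2)) (s := 1)
    (Ω := fun j => W ×ˢ {0}ᶜ ∩ univ ×ˢ Ω j) hc.contDiffOn
    (fun v hv => ⟨hv.1, cub_ne_zero hv.2⟩) (fun K hK hK' => ?_)
    (fun j => ⟨h.op.inter (isOpen_univ.prod (hΩ j).1), inter_subset_left,
      fun v hv w hw e => Prod.ext (Prod.ext_iff.1 e).1
        ((hΩ j).2.2.1 hv.2.2 hw.2.2 (Prod.ext_iff.1 e).2), fun v hv => ?_, ?_⟩)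
    (fun j l hjl => disjoint_left.2 fun v hv hv' => disjoint_left.1 (hd hjl) hv.2.2 hv'.2.2) ?_
  · exact ⟨key.1, key.2.trans (by norm_num)⟩
  · have hs : (fun v : V6 => (v.1, cub v.2)) ⁻¹' K ⊆ W ×ˢ {0}ᶜ := fun v hv =>
      ⟨(hK hv).1, fun h0 => (hK hv).2 ((congrArg cub h0).trans cc_zero)⟩
    rw [inter_eq_right.2 hs]
    exact ((hK'.image continuous_fst).prod
      (isCompact_preimage_cub (hK'.image continuous_snd))).of_isClosed_subset
      (hK'.isClosed.preimage hc.continuous) fun v hv => ⟨⟨_, hv, rfl⟩, _, hv, rfl⟩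
  · have h1 : HasFDerivAt (fun v : V6 => (v.1, cub v.2)) _ v :=
      (hasFDerivAt_id v.1).prodMap v (cc_fderiv v.2)
    rw [h1.fderiv, ContinuousLinearMap.det, ContinuousLinearMap.coe_prodMap,
      LinearMap.det_prodMap, ContinuousLinearMap.coe_id, LinearMap.det_id]
    simpa using (hΩ j).2.2.2.1 v.2 hv.2.2
  · refine measure_mono_null (t := univ ×ˢ (cub '' Ω j)ᶜ) (fun v hv => ⟨mem_univ _, ?_⟩) ?_
    · rintro ⟨y, hy, e⟩
      exact hv.2 ⟨(v.1, y), ⟨⟨hv.1.1, (hΩ j).2.1 hy⟩, mem_univ _, hy⟩, Prod.ext rfl e⟩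
    · rw [Measure.volume_eq_prod, Measure.prod_prod, (hΩ j).2.2.2.2, mul_zero]
  · refine measure_mono_null (t := univ ×ˢ (⋃ j, Ω j)ᶜ) (fun v hv => ⟨mem_univ _, fun hy => ?_⟩) ?_
    · obtain ⟨j, hj⟩ := mem_iUnion.1 hy
      exact hv.2 (mem_iUnion.2 ⟨j, hv.1, mem_univ _, hj⟩)
    · rw [Measure.volume_eq_prod, Measure.prod_prod, hn, mul_zero]

theorem ind_cub_fst (h : c.IAdm ({0}ᶜ ×ˢ W) f g k) :
    c.IAdm ({0}ᶜ ×ˢ W) (fun v => f (cub v.1, v.2)) (fun v => g (cub v.1, v.2))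
      (fun v => k (cub v.1, v.2)) ∧
    c.ind ({0}ᶜ ×ˢ W) (fun v => f (cub v.1, v.2)) (fun v => g (cub v.1, v.2))
      (fun v => k (cub v.1, v.2)) = 3 * c.ind ({0}ᶜ ×ˢ W) f g k := by
  obtain ⟨Ω, hΩ, hd, hn⟩ := exists_sectors
  have hc : ContDiff ℝ ∞ fun v : V6 => (cub v.1, v.2) :=
    (contDiff_cub.comp contDiff_fst).prodMk contDiff_snd
  have key := ind_cover h h.op (Φ := fun v => (cub v.1, v.2)) (s := 1)
    (Ω := fun j => {0}ᶜ ×ˢ W ∩ Ω j ×ˢ univ) hc.contDiffOn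
    (fun v hv => ⟨cub_ne_zero hv.1, hv.2⟩) (fun K hK hK' => ?_)
    (fun j => ⟨h.op.inter ((hΩ j).1.prod isOpen_univ), inter_subset_left,
      fun v hv w hw e => Prod.ext ((hΩ j).2.2.1 hv.2.1 hw.2.1 (Prod.ext_iff.1 e).1)
        (Prod.ext_iff.1 e).2, fun v hv => ?_, ?_⟩)
    (fun j l hjl => disjoint_left.2 fun v hv hv' => disjoint_left.1 (hd hjl) hv.2.1 hv'.2.1) ?_
  · exact ⟨key.1, key.2.trans (by norm_num)⟩
  · have hs : (fun v : V6 => (cub v.1, v.2)) ⁻¹' K ⊆ {0}ᶜ ×ˢ W := fun v hv =>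
      ⟨fun h0 => (hK hv).1 ((congrArg cub h0).trans cc_zero), (hK hv).2⟩
    rw [inter_eq_right.2 hs]
    exact ((isCompact_preimage_cub (hK'.image continuous_fst)).prod
      (hK'.image continuous_snd)).of_isClosed_subset
      (hK'.isClosed.preimage hc.continuous) fun v hv => ⟨⟨_, hv, rfl⟩, _, hv, rfl⟩
  · have h1 : HasFDerivAt (fun v : V6 => (cub v.1, v.2)) _ v :=
      (cc_fderiv v.1).prodMap v (hasFDerivAt_id v.2)
    rw [h1.fderiv, ContinuousLinearMap.det, ContinuousLinearMap.coe_prodMap,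
      LinearMap.det_prodMap, ContinuousLinearMap.coe_id, LinearMap.det_id]
    simpa using (hΩ j).2.2.2.1 v.1 hv.2.1
  · refine measure_mono_null (t := (cub '' Ω j)ᶜ ×ˢ univ) (fun v hv => ⟨?_, mem_univ _⟩) ?_
    · rintro ⟨y, hy, e⟩
      exact hv.2 ⟨(y, v.2), ⟨⟨(hΩ j).2.1 hy, hv.1.2⟩, hy, mem_univ _⟩, Prod.ext e rfl⟩
    · rw [Measure.volume_eq_prod, Measure.prod_prod, (hΩ j).2.2.2.2, zero_mul]
  · refine measure_mono_null (t := (⋃ j, Ω j)ᶜ ×ˢ univ) (fun v hv => ⟨fun hy => ?_, mem_univ _⟩) ?_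
    · obtain ⟨j, hj⟩ := mem_iUnion.1 hy
      exact hv.2 (mem_iUnion.2 ⟨j, hv.1, hj, mem_univ _⟩)
    · rw [Measure.volume_eq_prod, Measure.prod_prod, hn, zero_mul]

end Ctx

end Pool.Agent.CSP
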