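import Mathlib

/-! The interface of the Brouwer degree. -/

open scoped ContDiff
open Set MeasureTheory

namespace Pool.Agent.CSP

variable {V : Type} [NormedAddCommGroup V] [NormedSpace ℝ V]

/-- `F` is continuous on the open set `O` with compact zero set -/
def Adm (F : V → V) (O : Set V) : Prop :=
  IsOpen O ∧ ContinuousOn F O ∧ IsCompact {v | v ∈ O ∧ F v = 0}

/-- a degree theory on `V`; null sets are those of the measure `μ` -/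
structure DegTh (V : Type) [NormedAddCommGroup V] [NormedSpace ℝ V] [MeasurableSpace V]
    (μ : Measure V) where
  deg : (V → V) → Set V → ℤ
  congr : ∀ {F F' O}, Adm F O → EqOn F' F O → deg F' O = deg F O
  excise : ∀ {F O O'}, Adm F O → IsOpen O' → O' ⊆ O → (∀ v ∈ O, F v = 0 → v ∈ O') →
    deg F O' = deg F O
  empty : ∀ {F O}, Adm F O → (∀ v ∈ O, F v ≠ 0) → deg F O = 0
  add : ∀ {F O₁ O₂}, Adm F O₁ → Adm F O₂ → Disjoint O₁ O₂ →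
    deg F (O₁ ∪ O₂) = deg F O₁ + deg F O₂
  htpy : ∀ {H : ℝ × V → V} {Ω : Set (ℝ × V)}, IsOpen Ω → ContinuousOn H (Ω ∩ Icc 0 1 ×ˢ univ) →
    IsCompact {p | p ∈ Ω ∧ p.1 ∈ Icc (0 : ℝ) 1 ∧ H p = 0} →
    deg (fun v => H (0, v)) {v | (0, v) ∈ Ω} = deg (fun v => H (1, v)) {v | (1, v) ∈ Ω}
  sign : ∀ {F O v₀} {A : V →L[ℝ] V} {s : ℤˣ}, Adm F O → v₀ ∈ O → (∀ v ∈ O, F v = 0 ↔ v = v₀) →
    HasFDerivAt F A v₀ → 0 < ((s : ℤ) : ℝ) * A.det → deg F O = s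
  mult : ∀ {F O} {M : V → V →L[ℝ] V} {s : ℤˣ}, Adm F O → ContinuousOn M O →
    (∀ v ∈ O, 0 < ((s : ℤ) : ℝ) * (M v).det) → deg (fun v => M v (F v)) O = s * deg F O
  cover : ∀ {F O O'} {Φ : V → V} {s : ℤˣ} {n : ℕ} {Ω : Fin n → Set V}, Adm F O → IsOpen O' →
    ContDiffOn ℝ ∞ Φ O' → MapsTo Φ O' O → (∀ K ⊆ O, IsCompact K → IsCompact (O' ∩ Φ ⁻¹' K)) →
    (∀ k, IsOpen (Ω k) ∧ Ω k ⊆ O' ∧ InjOn Φ (Ω k) ∧
      (∀ v ∈ Ω k, 0 < ((s : ℤ) : ℝ) * (fderiv ℝ Φ v).det) ∧ μ (O \ Φ '' Ω k) = 0) →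
    Pairwise (fun k l => Disjoint (Ω k) (Ω l)) → μ (O' \ ⋃ k, Ω k) = 0 →
    deg (fun v => F (Φ v)) O' = s * n * deg F O

end Pool.Agent.CSP
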