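import Pool.Agent.Lib.MP_436e1a_gt.E.DegX6
import Pool.Agent.Lib.MP_436e1a_gt.A.GLPath

/-! Existence of the Brouwer degree. -/

open scoped ContDiff
open Set MeasureTheory

namespace Pool.Agent.CSP

/-- the degree is the integer value of the degree integral -/
theorem exists_degTh (V : Type) [NormedAddCommGroup V] [NormedSpace ℝ V] [FiniteDimensional ℝ V]
    [MeasurableSpace V] [BorelSpace V] (μ : Measure V) [μ.IsAddHaarMeasure] :
    Nonempty (DegTh V μ) := by
  refine ⟨⟨fun F O => ⌊dgR μ F O⌋, fun h he => by rw [dgR_congr μ h he],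
    fun h hO hs hz => by rw [dgR_excise μ h hO hs hz],
    fun h hz => by rw [dgR_empty μ h hz, Int.floor_zero], fun h h' hd => ?_,
    fun hΩ hH hZ => by rw [dgR_htpy μ hΩ hH hZ], fun h hv hz hd hA => ?_, fun h hM hd => ?_,
    fun h hO hΦ hm hp hΩ hd hn => ?_⟩⟩
  · obtain ⟨d, h1⟩ := dgR_int μ h'
    rw [dgR_add μ h h' hd, h1, Int.floor_add_intCast, Int.floor_intCast]
  · rw [dgR_sign μ h hv hz hd (dx5_sign hA).1, (dx5_sign hA).2, Int.floor_intCast]
  · obtain ⟨d, h1⟩ := dgR_int μ h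
    rw [dgR_mult μ h hM hd, h1, ← Int.cast_mul, Int.floor_intCast, Int.floor_intCast]
  · obtain ⟨d, h1⟩ := dgR_int μ h
    rw [dgR_cover μ h hO hΦ hm hp hΩ hd hn, h1, ← Int.cast_natCast, ← Int.cast_mul,
      ← Int.cast_mul, Int.floor_intCast, Int.floor_intCast]

end Pool.Agent.CSP
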