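import Pool.Agent.Lib.MP_436e1a_gt.E.DegDef

/-! Brouwer degree: definitions and approximation. -/

open scoped ContDiff Topology
open Set MeasureTheory

noncomputable section

namespace Pool.Agent.CSP

variable {V : Type} [NormedAddCommGroup V] [NormedSpace ℝ V]

/-- vectors of norm larger than one that point roughly along `w` -/
def dgC (w : V) : Set V := {g | ∃ s : ℝ, 0 < s ∧ ‖g - s • w‖ + 1 < s * ‖w‖}

theorem dgC_convex (w : V) : Convex ℝ (dgC w) := by
  rintro g ⟨s, hs, h⟩ g' ⟨s', hs', h'⟩ a b ha hb hab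
  refine ⟨a * s + b * s', ?_, ?_⟩
  · have := convex_Ioi (𝕜 := ℝ) (0 : ℝ) hs hs' ha hb hab
    simpa using this
  · have h1 : a • g + b • g' - (a * s + b * s') • w = a • (g - s • w) + b • (g' - s' • w) := by
      module
    have h2 := norm_add_le (a • (g - s • w)) (b • (g' - s' • w))
    rw [norm_smul, norm_smul, Real.norm_of_nonneg ha, Real.norm_of_nonneg hb] at h2
    have h3 := convex_Ioi (𝕜 := ℝ) (0 : ℝ) (sub_pos.2 h) (sub_pos.2 h') ha hb hab
    simp only [smul_eq_mul, mem_Ioi] at h3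
    rw [h1]
    nlinarith

theorem dgC_norm {g w : V} (h : g ∈ dgC w) : 1 < ‖g‖ := by
  obtain ⟨s, hs, h⟩ := h
  have := norm_sub_norm_le (s • w) g
  rw [norm_smul, Real.norm_of_nonneg hs.le, norm_sub_rev] at this
  linarith

theorem dgC_ne {g w : V} (h : g ∈ dgC w) : w ≠ 0 := by
  obtain ⟨s, -, h⟩ := h
  rintro rfl
  rw [norm_zero, mul_zero] at h
  linarith [norm_nonneg (g - s • (0 : V))]

theorem dgC_open : IsOpen {p : V × V | p.1 ∈ dgC p.2} := by
  have : {p : V × V | p.1 ∈ dgC p.2} =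
      ⋃ s ∈ Ioi (0 : ℝ), {p : V × V | ‖p.1 - s • p.2‖ + 1 < s * ‖p.2‖} := by
    ext p; simp [dgC]
  rw [this]
  exact isOpen_biUnion fun s _ => isOpen_lt (by fun_prop) (by fun_prop)

theorem dgC_seg {g w : V} (h : g ∈ dgC w) {t : ℝ} (ht : t ∈ Icc (0 : ℝ) 1) :
    (1 - t) • w + t • g ≠ 0 := fun h0 => by
  have hw := norm_pos_iff.2 (dgC_ne h)
  obtain ⟨s, hs, h⟩ := h
  have h1 : t • (g - s • w) = -((1 - t + t * s) • w) := by
    linear_combination (norm := module) h0
  have h2 := congrArg norm h1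
  have h3 := mul_nonneg ht.1 hs.le
  rw [norm_neg, norm_smul, norm_smul, Real.norm_of_nonneg ht.1,
    Real.norm_of_nonneg (by linarith [ht.2])] at h2
  have h4 := mul_le_mul_of_nonneg_left h.le ht.1
  have h5 := mul_nonneg (sub_nonneg.2 ht.2) hw.le
  have h6 : t = 0 := le_antisymm (by nlinarith) ht.1
  rw [h6] at h2
  linarith

/-- `G` is a smooth representative of `F` along the frontier of `W` -/
structure DgD (F : V → V) (O : Set V) (G : V → V) (W : Set V) : Prop where
  sm : ContDiff ℝ ∞ G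
  op : IsOpen W
  cpt : IsCompact (closure W)
  sub : closure W ⊆ O
  zero : ∀ v ∈ O, F v = 0 → v ∈ W
  fr : ∀ v ∈ frontier W, G v ∈ dgC (F v)

variable [FiniteDimensional ℝ V]

theorem dg_apx {F : V → V} {O A : Set V} (hO : IsOpen O) (hF : ContinuousOn F O) (hA : IsClosed A)
    (hAO : A ⊆ O) (h0 : ∀ v ∈ A, F v ≠ 0) :
    ∃ G : V → V, ContDiff ℝ ∞ G ∧ ∀ v ∈ A, G v ∈ dgC (F v) := by
  obtain ⟨G, hG⟩ := exists_contMDiffMap_forall_mem_convex_of_local_const (n := ⊤)
    (modelWithCornersSelf ℝ V) (t := fun v => {g : V | v ∈ A → g ∈ dgC (F v)})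
    (fun v a ha b hb _ _ h1 h2 h3 hv => dgC_convex _ (ha hv) (hb hv) h1 h2 h3) fun v => by
      by_cases hv : v ∈ A
      · have hn := norm_pos_iff.2 (h0 v hv)
        have h1 : (2 / ‖F v‖) • F v ∈ dgC (F v) :=
          ⟨2 / ‖F v‖, by positivity, by rw [sub_self, norm_zero, div_mul_cancel₀ _ hn.ne']; norm_num⟩
        have h2 : ContinuousAt (fun u => ((2 / ‖F v‖) • F v, F u)) v :=
          continuousAt_const.prodMk (hF.continuousAt (hO.mem_nhds (hAO hv)))
        exact ⟨_, (h2.eventually (dgC_open.mem_nhds h1)).mono fun u hu _ => hu⟩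
      · exact ⟨0, Filter.mem_of_superset (hA.isOpen_compl.mem_nhds hv) fun u hu h => (hu h).elim⟩
  exact ⟨G, G.contMDiff.contDiff, fun v hv => hG v hv⟩

theorem dg_ext {G : V → V} {O K : Set V} (hO : IsOpen O) (hG : ContDiffOn ℝ ∞ G O)
    (hK : IsClosed K) (hKO : K ⊆ O) : ∃ G' : V → V, ContDiff ℝ ∞ G' ∧ EqOn G' G K := by
  obtain ⟨G', h⟩ := exists_contMDiffMap_forall_mem_convex_of_local (n := ⊤)
    (modelWithCornersSelf ℝ V) (t := fun v => {g : V | v ∈ K → g = G v})
    (fun v a ha b hb _ _ _ _ h3 hv => by rw [ha hv, hb hv, Convex.combo_self h3]) fun v => by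
      by_cases hv : v ∈ K
      · exact ⟨O, hO.mem_nhds (hKO hv), G, hG.contMDiffOn, fun _ _ _ => rfl⟩
      · exact ⟨Kᶜ, hK.isOpen_compl.mem_nhds hv, fun _ => 0, contMDiffOn_const,
          fun u hu h => (hu h).elim⟩
  exact ⟨G', G'.contMDiff.contDiff, fun v hv => h v hv⟩

theorem Adm.exists_dgD {F : V → V} {O : Set V} (h : Adm F O) : ∃ G W, DgD F O G W := by
  obtain ⟨W, h1, h2, h3, h4⟩ := exists_open_between_and_isCompact_closure h.2.2 h.1 fun _ hv => hv.1
  obtain ⟨G, h5, h6⟩ := dg_apx h.1 h.2.1 isClosed_frontier (frontier_subset_closure.trans h3)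
    fun v hv h0 => (h1.frontier_eq ▸ hv).2 (h2 ⟨h3 hv.1, h0⟩)
  exact ⟨G, W, h5, h1, h4, h3, fun v hv h0 => h2 ⟨hv, h0⟩, h6⟩

variable [MeasurableSpace V] [BorelSpace V] (μ : Measure V) [μ.IsAddHaarMeasure]

/-- a smooth density supported in the unit ball -/
def dgψ : V → ℝ := (⟨1 / 2, 1, by norm_num, by norm_num⟩ : ContDiffBump (0 : V)).normed μ

theorem dgψ_smooth : ContDiff ℝ ∞ (dgψ μ) := ContDiffBump.contDiff_normed _

theorem dgψ_int : ∫ z, dgψ μ z ∂μ = 1 := ContDiffBump.integral_normed _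

theorem dgψ_zero {z : V} (h : 1 ≤ ‖z‖) : dgψ μ z = 0 := by
  by_contra h0
  have : z ∈ Function.support (dgψ μ) := h0
  rw [dgψ, ContDiffBump.support_normed_eq, mem_ball_zero_iff] at this
  exact absurd this (not_lt.2 h)

/-- the degree integral -/
def dgI (G : V → V) (W : Set V) : ℝ := ∫ v in W, dgψ μ (G v) * (fderiv ℝ G v).det ∂μ

theorem dg_cont {G : V → V} (hG : ContDiff ℝ ∞ G) :
    Continuous fun v => dgψ μ (G v) * (fderiv ℝ G v).det :=
  ((dgψ_smooth μ).continuous.comp hG.continuous).mul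
    (ContinuousLinearMap.continuous_det.comp (hG.continuous_fderiv (by simp)))

theorem dg_integrable {G : V → V} (hG : ContDiff ℝ ∞ G) {W : Set V} (hW : IsCompact (closure W)) :
    IntegrableOn (fun v => dgψ μ (G v) * (fderiv ℝ G v).det) W μ :=
  ((dg_cont μ hG).continuousOn.integrableOn_compact hW).mono_set subset_closure

/-- the degree as a real number -/
def dgR (F : V → V) (O : Set V) : ℝ :=
  Classical.epsilon fun r => ∀ G W, DgD F O G W → dgI μ G W = r

end Pool.Agent.CSP
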