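import Pool.Agent.Lib.MP_436e1a_gt.E.DegX1

/-! Brouwer degree: Stokes formula and invariance of the integral. -/

open scoped ContDiff Topology
open Set MeasureTheory

noncomputable section

namespace Pool.Agent.CSP

variable {V : Type} [NormedAddCommGroup V] [NormedSpace ℝ V] [FiniteDimensional ℝ V]
  [MeasurableSpace V] [BorelSpace V] (μ : Measure V) [μ.IsAddHaarMeasure]

theorem dg_piola {V : Type} [NormedAddCommGroup V] [NormedSpace ℝ V] {ι : Type} [Fintype ι]
    [DecidableEq ι] (b : ι → V)
    (f : ι → V → ℝ) (l : ι) (hf : ∀ i, i ≠ l → ContDiff ℝ 2 (f i)) (u : V) :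
    ∑ σ : Equiv.Perm ι, ((Equiv.Perm.sign σ : ℤ) : ℝ) *
      fderiv ℝ (fun v => ∏ i ∈ Finset.univ.erase l, fderiv ℝ (f i) v (b (σ i))) u (b (σ l)) = 0 := by
  have hd : ∀ i, i ≠ l → ∀ w, HasFDerivAt (fun v => fderiv ℝ (f i) v w)
      ((fderiv ℝ (fderiv ℝ (f i)) u).flip w) u := by
    intro i hi w
    have h1 : DifferentiableAt ℝ (fderiv ℝ (f i)) u :=
      ((hf i hi).fderiv_right (m := 1) (by norm_num)).differentiable one_ne_zero u
    simpa using h1.hasFDerivAt.clm_apply (hasFDerivAt_const w u)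
  have e1 : ∀ σ : Equiv.Perm ι,
      fderiv ℝ (fun v => ∏ i ∈ Finset.univ.erase l, fderiv ℝ (f i) v (b (σ i))) u (b (σ l)) =
      ∑ k ∈ Finset.univ.erase l, (∏ i ∈ (Finset.univ.erase l).erase k,
        fderiv ℝ (f i) u (b (σ i))) * fderiv ℝ (fderiv ℝ (f k)) u (b (σ l)) (b (σ k)) := by
    intro σ
    rw [(HasFDerivAt.finsetProd (u := Finset.univ.erase l)
      (g := fun i v => fderiv ℝ (f i) v (b (σ i)))
      (fun i hi => hd i (Finset.ne_of_mem_erase hi) (b (σ i)))).fderiv]
    simp
  simp only [e1, Finset.mul_sum]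
  rw [Finset.sum_comm]
  refine Finset.sum_eq_zero fun k hk => ?_
  have hkl : k ≠ l := Finset.ne_of_mem_erase hk
  set T : Equiv.Perm ι → ℝ := fun σ => (∏ i ∈ (Finset.univ.erase l).erase k,
        fderiv ℝ (f i) u (b (σ i))) * fderiv ℝ (fderiv ℝ (f k)) u (b (σ l)) (b (σ k)) with hT
  have hsym : ∀ σ, T (σ * Equiv.swap k l) = T σ := by
    intro σ
    simp only [hT, Equiv.Perm.mul_apply, Equiv.swap_apply_left, Equiv.swap_apply_right]
    rw [((hf k hkl).contDiffAt.isSymmSndFDerivAt (by simp)).eq]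
    congr 1
    refine Finset.prod_congr rfl fun i hi => ?_
    rw [Equiv.swap_apply_of_ne_of_ne (Finset.ne_of_mem_erase hi)
      (Finset.ne_of_mem_erase (Finset.mem_of_mem_erase hi))]
  have h2 : ∑ σ : Equiv.Perm ι, ((Equiv.Perm.sign σ : ℤ) : ℝ) * T σ =
      -∑ σ : Equiv.Perm ι, ((Equiv.Perm.sign σ : ℤ) : ℝ) * T σ := by
    conv_lhs => rw [← Equiv.sum_comp (Equiv.mulRight (Equiv.swap k l))]
    rw [← Finset.sum_neg_distrib]
    refine Finset.sum_congr rfl fun σ _ => ?_
    simp only [Equiv.coe_mulRight, hsym, Equiv.Perm.sign_mul, Equiv.Perm.sign_swap hkl]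
    push_cast
    ring
  linear_combination (1 / 2 : ℝ) * h2

theorem dg_stokes {ι : Type} [Fintype ι] [DecidableEq ι] (b : ι → V) (f : ι → V → ℝ) (l : ι)
    (hl : ContDiff ℝ 1 (f l)) (hc : HasCompactSupport (f l)) (hf : ∀ i, i ≠ l → ContDiff ℝ 2 (f i)) :
    ∫ u, (Matrix.of fun i j => fderiv ℝ (f i) u (b j)).det ∂μ = 0 := by
  let P : Equiv.Perm ι → V → ℝ := fun σ v =>
    ∏ i ∈ Finset.univ.erase l, fderiv ℝ (f i) v (b (σ i))
  have hP : ∀ σ, ContDiff ℝ 1 (P σ) := fun σ => contDiff_prod fun i hi =>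
    ((hf i (Finset.ne_of_mem_erase hi)).fderiv_right (m := 1) (by norm_num)).clm_apply
      contDiff_const
  have e1 : ∀ u, (Matrix.of fun i j => fderiv ℝ (f i) u (b j)).det =
      ∑ σ : Equiv.Perm ι, ((Equiv.Perm.sign σ : ℤ) : ℝ) *
        (fderiv ℝ (f l) u (b (σ l)) * P σ u) := by
    intro u
    rw [← Matrix.det_transpose, Matrix.det_apply']
    refine Finset.sum_congr rfl fun σ _ => ?_
    congr 1
    simp only [Matrix.transpose_apply, Matrix.of_apply, P]
    exact (Finset.mul_prod_erase _ (fun i => fderiv ℝ (f i) u (b (σ i))) (Finset.mem_univ l)).symm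
  have i1 : ∀ σ : Equiv.Perm ι,
      Integrable (fun u => fderiv ℝ (f l) u (b (σ l)) * P σ u) μ := fun σ =>
    Continuous.integrable_of_hasCompactSupport
      (((hl.continuous_fderiv one_ne_zero).clm_apply continuous_const).mul (hP σ).continuous)
      (hc.fderiv_apply (𝕜 := ℝ) _).mul_right
  have i2 : ∀ σ : Equiv.Perm ι,
      Integrable (fun u => f l u * fderiv ℝ (P σ) u (b (σ l))) μ := fun σ =>
    Continuous.integrable_of_hasCompactSupport
      (hl.continuous.mul (((hP σ).continuous_fderiv one_ne_zero).clm_apply continuous_const))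
      hc.mul_right
  have i3 : ∀ σ : Equiv.Perm ι, Integrable (fun u => f l u * P σ u) μ := fun σ =>
    Continuous.integrable_of_hasCompactSupport (hl.continuous.mul (hP σ).continuous) hc.mul_right
  have e2 : ∀ σ : Equiv.Perm ι, ∫ u, fderiv ℝ (f l) u (b (σ l)) * P σ u ∂μ =
      -∫ u, f l u * fderiv ℝ (P σ) u (b (σ l)) ∂μ := fun σ => by
    rw [integral_mul_fderiv_eq_neg_fderiv_mul_of_integrable (i1 σ) (i2 σ) (i3 σ)
      (fun x _ => hl.differentiable one_ne_zero x) (fun x _ => (hP σ).differentiable one_ne_zero x),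
      neg_neg]
  simp only [e1]
  rw [integral_finsetSum _ fun σ _ => (i1 σ).const_mul _]
  simp only [integral_const_mul, e2, mul_neg, Finset.sum_neg_distrib, neg_eq_zero]
  simp only [← integral_const_mul]
  rw [← integral_finsetSum _ fun σ _ => (i2 σ).const_mul _]
  have e3 : ∀ u, ∑ σ : Equiv.Perm ι, ((Equiv.Perm.sign σ : ℤ) : ℝ) *
      (f l u * fderiv ℝ (P σ) u (b (σ l))) = 0 := fun u => by
    have := dg_piola b f l hf u
    simp only [mul_left_comm _ (f l u), ← Finset.mul_sum]
    rw [this, mul_zero]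
  simp [e3]

theorem dx2_det {n : ℕ} (e : Module.Basis (Fin n) ℝ V) (L : ℝ × V →L[ℝ] V) (l : V →L[ℝ] ℝ) (a : ℝ)
    (M : Matrix (Unit ⊕ Fin n) (Unit ⊕ Fin n) ℝ) (b : Unit ⊕ Fin n → ℝ × V)
    (hb : b = Sum.elim (fun _ => (1, 0)) fun j => (0, e j))
    (h1 : ∀ i j, M (.inl i) j = a * (b j).1 + l (L (b j)))
    (h2 : ∀ i j, M (.inr i) j = e.repr (L (b j)) i) :
    M.det = a * (L.comp (ContinuousLinearMap.inr ℝ ℝ V)).det := by
  have hl : ∀ x, l x = ∑ k, l (e k) * e.repr x k := fun x => by
    conv_lhs => rw [← e.sum_repr x, map_sum]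
    exact Finset.sum_congr rfl fun k _ => by rw [map_smul, smul_eq_mul, mul_comm]
  have : M = Matrix.fromBlocks 1 (Matrix.of fun _ k => l (e k)) 0 1 *
      Matrix.fromBlocks (Matrix.of fun _ _ => a) 0 (Matrix.of fun i _ => e.repr (L (1, 0)) i)
        (LinearMap.toMatrix e e (L.comp (ContinuousLinearMap.inr ℝ ℝ V) : V →ₗ[ℝ] V)) := by
    rw [Matrix.fromBlocks_multiply]
    ext (i | i) (j | j)
    · rw [h1, hl]; simp [hb, Matrix.mul_apply]
    · rw [h1, hl]; simp [hb, Matrix.mul_apply, LinearMap.toMatrix_apply]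
    · simp [h2, hb]
    · simp [h2, hb, LinearMap.toMatrix_apply]
  rw [this, Matrix.det_mul, Matrix.det_fromBlocks_zero₂₁, Matrix.det_fromBlocks_zero₁₂,
    LinearMap.det_toMatrix]
  simp [ContinuousLinearMap.det]

open Real in
theorem dx2_lam : (∀ t, 1 < t → deriv smoothTransition t = 0) ∧
    (∀ t, t < 0 → deriv smoothTransition t = 0) ∧ Integrable (deriv smoothTransition) ∧
    ∫ t, deriv smoothTransition t = 1 := by
  have h1 : ∀ t, 1 < t → deriv smoothTransition t = 0 := fun t ht => by
    rw [Filter.EventuallyEq.deriv_eq ((lt_mem_nhds ht).mono fun s hs =>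
      smoothTransition.one_of_one_le hs.le), deriv_const]
  have h2 : ∀ t, t < 0 → deriv smoothTransition t = 0 := fun t ht => by
    rw [Filter.EventuallyEq.deriv_eq ((gt_mem_nhds ht).mono fun s hs =>
      smoothTransition.zero_of_nonpos hs.le), deriv_const]
  have hs := smoothTransition.contDiff (n := 1)
  have h3 : Integrable (deriv smoothTransition) :=
    (hs.continuous_deriv le_rfl).integrable_of_hasCompactSupport
      (HasCompactSupport.intro (isCompact_Icc (a := 0) (b := 1)) fun t ht => by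
        rcases not_and_or.1 ht with h | h
        exacts [h2 t (not_le.1 h), h1 t (not_le.1 h)])
  refine ⟨h1, h2, h3, ?_⟩
  rw [integral_of_hasDerivAt_of_tendsto (fun t => (hs.differentiable one_ne_zero t).hasDerivAt) h3
    (tendsto_const_nhds.congr' ((Filter.eventually_le_atBot 0).mono fun t ht =>
      (smoothTransition.zero_of_nonpos ht).symm))
    (tendsto_const_nhds.congr' ((Filter.eventually_ge_atTop 1).mono fun t ht =>
      (smoothTransition.one_of_one_le ht).symm)), sub_zero]

open Real in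
/-- invariance of the integral along a segment -/
theorem dgI_seg {G G' : V → V} (hG : ContDiff ℝ ∞ G) (hG' : ContDiff ℝ ∞ G') {W : Set V}
    (hW : IsOpen W) (hc : IsCompact (closure W))
    (h : ∀ v ∈ frontier W, ∀ t ∈ Icc (0 : ℝ) 1, 1 < ‖G v + t • (G' v - G v)‖) :
    dgI μ G W = dgI μ G' W := by
  obtain ⟨l1, l2, l3, l4⟩ := dx2_lam
  have hs := smoothTransition.contDiff (n := ⊤)
  let H : ℝ × V → V := fun p => G p.2 + smoothTransition p.1 • (G' p.2 - G p.2)
  have hH : ContDiff ℝ ∞ H := (hG.comp contDiff_snd).add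
    ((hs.comp contDiff_fst).smul ((hG'.comp contDiff_snd).sub (hG.comp contDiff_snd)))
  let θ : ℝ → ℝ := fun t => smoothTransition (t + 1) - smoothTransition (t - 1)
  have hθ : ContDiff ℝ ∞ θ :=
    (hs.comp (contDiff_id.add contDiff_const)).sub (hs.comp (contDiff_id.sub contDiff_const))
  have hθ' : ∀ t, HasDerivAt θ (deriv smoothTransition (t + 1) - deriv smoothTransition (t - 1)) t :=
    fun t => ((hs.differentiable (by simp) _).hasDerivAt.comp_add_const t 1).sub
      ((hs.differentiable (by simp) _).hasDerivAt.comp_sub_const t 1)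
  let f₀ : ℝ × V → ℝ := (Prod.snd ⁻¹' W).indicator fun p => θ p.1 * dgψ μ (H p)
  have hin : ∀ p : ℝ × V, p.2 ∈ W → f₀ =ᶠ[𝓝 p] fun p => θ p.1 * dgψ μ (H p) := fun p hp =>
    Filter.mem_of_superset ((hW.preimage continuous_snd).mem_nhds hp) fun q hq =>
      indicator_of_mem hq _
  have hout : ∀ p : ℝ × V, p.2 ∉ W → f₀ =ᶠ[𝓝 p] fun _ => 0 := fun p hp => by
    by_cases hp' : p.2 ∈ closure W
    · have h1 : 1 < ‖H p‖ := h _ (hW.frontier_eq ▸ ⟨hp', hp⟩) _
        ⟨smoothTransition.nonneg _, smoothTransition.le_one _⟩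
      filter_upwards [hH.continuous.norm.continuousAt.eventually (lt_mem_nhds h1)] with q hq
      exact indicator_apply_eq_zero.2 fun _ => by rw [dgψ_zero μ hq.le, mul_zero]
    · exact Filter.mem_of_superset
        ((isClosed_closure.isOpen_compl.preimage continuous_snd).mem_nhds hp') fun q hq =>
          indicator_of_notMem (s := Prod.snd ⁻¹' W) (fun h1 => hq (subset_closure h1)) _
  have hψ := dgψ_smooth μ
  have hf : ContDiff ℝ ∞ f₀ := contDiff_iff_contDiffAt.2 fun p => by
    by_cases hp : p.2 ∈ W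
    · exact ((hθ.comp contDiff_fst).mul (hψ.comp hH)).contDiffAt.congr_of_eventuallyEq (hin p hp)
    · exact contDiffAt_const.congr_of_eventuallyEq (hout p hp)
  have hcs : HasCompactSupport f₀ :=
    HasCompactSupport.intro ((isCompact_Icc (a := -1) (b := 2)).prod hc) fun p hp =>
      indicator_apply_eq_zero.2 fun h1 => by
        have h2 : p.1 ∉ Icc (-1 : ℝ) 2 := fun h2 => hp ⟨h2, subset_closure h1⟩
        refine mul_eq_zero_of_left (sub_eq_zero.2 ?_) _
        rcases not_and_or.1 h2 with h3 | h3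
        · rw [smoothTransition.zero_of_nonpos (by linarith),
            smoothTransition.zero_of_nonpos (by linarith)]
        · rw [smoothTransition.one_of_one_le (by linarith),
            smoothTransition.one_of_one_le (by linarith)]
  let e := Module.finBasis ℝ V
  let c : Fin (Module.finrank ℝ V) → V →L[ℝ] ℝ := fun i => (e.coord i).toContinuousLinearMap
  have key := dg_stokes ((volume : Measure ℝ).prod μ)
    (Sum.elim (fun _ : Unit => ((1, 0) : ℝ × V)) fun j => (0, e j))
    (Sum.elim (fun _ => f₀) fun i p => c i (H p)) (.inl ()) (hf.of_le (by simp)) hcs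
    (fun i hi => by
      obtain i | i := i
      · exact (hi rfl).elim
      · exact contDiff_infty.1 ((c i).contDiff.comp hH) 2)
  let a : (V → V) → V → ℝ := fun G => W.indicator fun v => dgψ μ (G v) * (fderiv ℝ G v).det
  have ha : ∀ {G : V → V}, ContDiff ℝ ∞ G → Integrable (a G) μ := fun hG =>
    (integrable_indicator_iff hW.measurableSet).2 (dg_integrable μ hG hc)
  rw [integral_congr_ae (g := fun p : ℝ × V => deriv smoothTransition (p.1 + 1) * a G p.2 -
      deriv smoothTransition (p.1 - 1) * a G' p.2) (Filter.Eventually.of_forall fun p => ?_),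
    integral_sub ((l3.comp_add_right 1).mul_prod (ha hG)) ((l3.comp_sub_right 1).mul_prod (ha hG')),
    integral_prod_mul (fun t => deriv smoothTransition (t + 1)),
    integral_prod_mul (fun t => deriv smoothTransition (t - 1)), integral_add_right_eq_self,
    integral_sub_right_eq_self (deriv smoothTransition), l4, one_mul, one_mul,
    integral_indicator hW.measurableSet, integral_indicator hW.measurableSet] at key
  · exact sub_eq_zero.1 key
  obtain ⟨t, v⟩ := p
  by_cases hp : v ∈ W
  · have hd := (hH.differentiable (by simp) (t, v)).hasFDerivAt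
    have h1 := (((hθ' t).hasFDerivAt.comp (t, v) (f := Prod.fst) hasFDerivAt_fst).mul
      ((hψ.differentiable (by simp) _).hasFDerivAt.comp _ hd)).congr_of_eventuallyEq (hin (t, v) hp)
    have h2 : (fderiv ℝ H (t, v)).comp (ContinuousLinearMap.inr ℝ ℝ V) =
        fderiv ℝ (fun u => H (t, u)) v := (hd.comp v (hasFDerivAt_prodMk_right t v)).fderiv.symm
    refine (dx2_det e (fderiv ℝ H (t, v)) (θ t • fderiv ℝ (dgψ μ) (H (t, v)))
      ((deriv smoothTransition (t + 1) - deriv smoothTransition (t - 1)) * dgψ μ (H (t, v))) _ _ rfl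
      (fun i j => ?_) fun i j => ?_).trans ?_
    · simp only [Matrix.of_apply, Sum.elim_inl, h1.fderiv]
      simp
      ring
    · simp only [Matrix.of_apply, Sum.elim_inr]
      exact DFunLike.congr_fun ((c i).hasFDerivAt.comp (t, v) hd).fderiv _
    · have h3 : deriv smoothTransition (t + 1) * (dgψ μ (H (t, v)) *
          (fderiv ℝ (fun u => H (t, u)) v).det) = deriv smoothTransition (t + 1) * a G v := by
        rcases le_or_gt t 0 with h4 | h4
        · simp only [H, a, smoothTransition.zero_of_nonpos h4, zero_smul, add_zero,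
            indicator_of_mem hp]
        · rw [l1 _ (by linarith), zero_mul, zero_mul]
      have h4 : deriv smoothTransition (t - 1) * (dgψ μ (H (t, v)) *
          (fderiv ℝ (fun u => H (t, u)) v).det) = deriv smoothTransition (t - 1) * a G' v := by
        rcases le_or_gt 1 t with h4 | h4
        · simp only [H, a, smoothTransition.one_of_one_le h4, one_smul, add_sub_cancel,
            indicator_of_mem hp]
        · rw [l2 _ (by linarith), zero_mul, zero_mul]
      rw [h2]
      linear_combination h3 - h4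
  · simp only [a, indicator_of_notMem hp, mul_zero, sub_zero]
    refine Matrix.det_eq_zero_of_row_eq_zero (.inl ()) fun j => ?_
    simp only [Matrix.of_apply, Sum.elim_inl, (hout (t, v) hp).fderiv_eq]
    simp

end Pool.Agent.CSP
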