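import Pool.Agent.Lib.MP_436e1a_gt.E.DegX2

/-! Brouwer degree: well-definedness, excision, additivity, homotopy. -/

open scoped ContDiff Topology
open Set MeasureTheory

noncomputable section

namespace Pool.Agent.CSP

variable {V : Type} [NormedAddCommGroup V] [NormedSpace ℝ V] [FiniteDimensional ℝ V]
  [MeasurableSpace V] [BorelSpace V] (μ : Measure V) [μ.IsAddHaarMeasure]

variable {F F' G G' : V → V} {O O' W W' : Set V}

theorem Adm.dgI_eq (h : Adm F O) (h1 : DgD F O G W) (h2 : DgD F O G' W') :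
    dgI μ G W = dgI μ G' W' := by
  have hs : ∀ {G W G' W'}, DgD F O G W → DgD F O G' W' → ∀ G₀ : V → V, ContDiff ℝ ∞ G₀ →
      (∀ v ∈ closure W \ (W ∩ W'), G₀ v ∈ dgC (F v)) → dgI μ G W = dgI μ G₀ (W ∩ W') := by
    intro G W G' W' h1 h2 G₀ h0 h3
    rw [dgI_seg μ h1.sm h0 h1.op h1.cpt fun v hv t ht => dgC_norm (w := F v)
      ((dgC_convex _).add_smul_sub_mem (h1.fr v hv)
        (h3 v ⟨hv.1, fun h4 => (h1.op.frontier_eq ▸ hv).2 h4.1⟩) ht)]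
    refine setIntegral_eq_of_subset_of_forall_sdiff_eq_zero h1.op.measurableSet inter_subset_left
      fun v hv => ?_
    rw [dgψ_zero μ (dgC_norm (h3 v ⟨subset_closure hv.1, hv.2⟩)).le, zero_mul]
  obtain ⟨G₀, h3, h4⟩ := dg_apx (A := (closure W ∪ closure W') \ (W ∩ W')) h.1 h.2.1
    ((isClosed_closure.union isClosed_closure).sdiff (h1.op.inter h2.op))
    (sdiff_subset.trans (union_subset h1.sub h2.sub)) fun v hv h0 =>
      have hv' := union_subset h1.sub h2.sub hv.1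
      hv.2 ⟨h1.zero v hv' h0, h2.zero v hv' h0⟩
  rw [hs h1 h2 G₀ h3 fun v hv => h4 v ⟨Or.inl hv.1, hv.2⟩,
    hs h2 h1 G₀ h3 fun v hv => h4 v ⟨Or.inr hv.1, fun h5 => hv.2 h5.symm⟩, inter_comm]

theorem Adm.dgR_eq (h : Adm F O) (h1 : DgD F O G W) : dgR μ F O = dgI μ G W :=
  (Classical.epsilon_spec (p := fun r => ∀ G W, DgD F O G W → dgI μ G W = r)
    ⟨dgI μ G W, fun _ _ h2 => h.dgI_eq μ h2 h1⟩ G W h1).symm

theorem Adm.congr (h : Adm F O) (he : EqOn F' F O) : Adm F' O := by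
  refine ⟨h.1, h.2.1.congr he, ?_⟩
  have : {v | v ∈ O ∧ F' v = 0} = {v | v ∈ O ∧ F v = 0} :=
    Set.ext fun v => and_congr_right fun hv => by rw [he hv]
  rw [this]
  exact h.2.2

theorem Adm.mono (h : Adm F O) (hO : IsOpen O') (hs : O' ⊆ O) (hz : ∀ v ∈ O, F v = 0 → v ∈ O') :
    Adm F O' := by
  refine ⟨hO, h.2.1.mono hs, ?_⟩
  have : {v | v ∈ O' ∧ F v = 0} = {v | v ∈ O ∧ F v = 0} :=
    Set.ext fun v => ⟨fun hv => ⟨hs hv.1, hv.2⟩, fun hv => ⟨hz v hv.1 hv.2, hv.2⟩⟩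
  rw [this]
  exact h.2.2

theorem Adm.union (h : Adm F O) (h' : Adm F O') : Adm F (O ∪ O') := by
  refine ⟨h.1.union h'.1, h.2.1.union_of_isOpen h'.2.1 h.1 h'.1, ?_⟩
  have : {v | v ∈ O ∪ O' ∧ F v = 0} = {v | v ∈ O ∧ F v = 0} ∪ {v | v ∈ O' ∧ F v = 0} :=
    Set.ext fun v => or_and_right
  rw [this]
  exact h.2.2.union h'.2.2

theorem dgR_congr (h : Adm F O) (he : EqOn F' F O) : dgR μ F' O = dgR μ F O := by
  obtain ⟨G, W, hD⟩ := h.exists_dgD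
  rw [h.dgR_eq μ hD, (h.congr he).dgR_eq μ ⟨hD.sm, hD.op, hD.cpt, hD.sub,
    fun v hv h0 => hD.zero v hv (he hv ▸ h0), fun v hv => he (hD.sub hv.1) ▸ hD.fr v hv⟩]

theorem dgR_excise (h : Adm F O) (hO : IsOpen O') (hs : O' ⊆ O)
    (hz : ∀ v ∈ O, F v = 0 → v ∈ O') : dgR μ F O' = dgR μ F O := by
  obtain ⟨G, W, hD⟩ := (h.mono hO hs hz).exists_dgD
  rw [(h.mono hO hs hz).dgR_eq μ hD, h.dgR_eq μ ⟨hD.sm, hD.op, hD.cpt, hD.sub.trans hs,
    fun v hv h0 => hD.zero v (hz v hv h0) h0, hD.fr⟩]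

theorem dgR_empty (h : Adm F O) (hz : ∀ v ∈ O, F v ≠ 0) : dgR μ F O = 0 := by
  rw [h.dgR_eq μ (G := fun _ => 0) (W := ∅) ⟨contDiff_const, isOpen_empty, by simp, by simp,
    fun v hv h0 => hz v hv h0, by simp⟩, dgI, Measure.restrict_empty, integral_zero_measure]

theorem dgR_add (h : Adm F O) (h' : Adm F O') (hd : Disjoint O O') :
    dgR μ F (O ∪ O') = dgR μ F O + dgR μ F O' := by
  obtain ⟨G, W, hD⟩ := h.exists_dgD
  obtain ⟨G', W', hD'⟩ := h'.exists_dgD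
  have hA := h.union h'
  have hf : ∀ {O G W}, DgD F O G W → frontier W ⊆ O := fun h => frontier_subset_closure.trans h.sub
  obtain ⟨G₀, h3, h4⟩ := dg_apx hA.1 hA.2.1 (isClosed_frontier.union isClosed_frontier)
    (union_subset_union (hf hD) (hf hD')) fun v hv =>
      hv.elim (fun hv => dgC_ne (hD.fr v hv)) fun hv => dgC_ne (hD'.fr v hv)
  rw [h.dgR_eq μ ⟨h3, hD.op, hD.cpt, hD.sub, hD.zero, fun v hv => h4 v (Or.inl hv)⟩,
    h'.dgR_eq μ ⟨h3, hD'.op, hD'.cpt, hD'.sub, hD'.zero, fun v hv => h4 v (Or.inr hv)⟩,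
    hA.dgR_eq μ (G := G₀) (W := W ∪ W') ⟨h3, hD.op.union hD'.op,
      by rw [closure_union]; exact hD.cpt.union hD'.cpt,
      by rw [closure_union]; exact union_subset_union hD.sub hD'.sub,
      fun v hv h0 => hv.imp (fun hv => hD.zero v hv h0) fun hv => hD'.zero v hv h0,
      fun v hv => h4 v ((frontier_union_subset W W' hv).imp And.left And.right)⟩]
  exact setIntegral_union (hd.mono (subset_closure.trans hD.sub) (subset_closure.trans hD'.sub))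
    hD'.op.measurableSet (dg_integrable μ h3 hD.cpt) (dg_integrable μ h3 hD'.cpt)

theorem dg_adm_slice {H : ℝ × V → V} {Ω : Set (ℝ × V)} (hΩ : IsOpen Ω)
    (hH : ContinuousOn H (Ω ∩ Icc 0 1 ×ˢ univ))
    (hZ : IsCompact {p | p ∈ Ω ∧ p.1 ∈ Icc (0 : ℝ) 1 ∧ H p = 0}) {t : ℝ} (ht : t ∈ Icc (0 : ℝ) 1) :
    Adm (fun v => H (t, v)) {v | (t, v) ∈ Ω} := by
  refine ⟨hΩ.preimage (Continuous.prodMk_right t),
    hH.comp (Continuous.prodMk_right t).continuousOn fun v hv => ⟨hv, ht, trivial⟩, ?_⟩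
  have h1 := (hZ.inter_right (isClosed_eq continuous_fst (continuous_const (y := t)))).image
    continuous_snd
  refine Eq.mp (congrArg IsCompact (Set.ext fun v => ⟨?_, fun hv => ?_⟩)) h1
  · rintro ⟨⟨s, u⟩, ⟨h2, h3⟩, rfl⟩
    obtain rfl : s = t := h3
    exact ⟨h2.1, h2.2.2⟩
  · exact ⟨(t, v), ⟨⟨hv.1, ht, hv.2⟩, rfl⟩, rfl⟩

theorem dgR_htpy {H : ℝ × V → V} {Ω : Set (ℝ × V)} (hΩ : IsOpen Ω)
    (hH : ContinuousOn H (Ω ∩ Icc 0 1 ×ˢ univ))
    (hZ : IsCompact {p | p ∈ Ω ∧ p.1 ∈ Icc (0 : ℝ) 1 ∧ H p = 0}) :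
    dgR μ (fun v => H (0, v)) {v | (0, v) ∈ Ω} = dgR μ (fun v => H (1, v)) {v | (1, v) ∈ Ω} := by
  let d : Icc (0 : ℝ) 1 → ℝ := fun t => dgR μ (fun v => H (t, v)) {v | ((t : ℝ), v) ∈ Ω}
  have hd : IsLocallyConstant d := by
    refine (IsLocallyConstant.iff_eventually_eq d).2 fun t => ?_
    obtain ⟨G, W, hD⟩ := (dg_adm_slice hΩ hH hZ t.2).exists_dgD
    have hc : Continuous fun q : Icc (0 : ℝ) 1 × V => ((q.1 : ℝ), q.2) := by fun_prop
    have h1 : ∀ᶠ s : Icc (0 : ℝ) 1 in 𝓝 t, ∀ v ∈ closure W, ((s : ℝ), v) ∈ Ω :=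
      hD.cpt.eventually_forall_of_forall_eventually fun v hv =>
        (hΩ.preimage hc).mem_nhds (hD.sub hv)
    have h2 : ∀ᶠ s : Icc (0 : ℝ) 1 in 𝓝 t, ∀ v ∈ frontier W, G v ∈ dgC (H (s, v)) :=
      (hD.cpt.of_isClosed_subset isClosed_frontier
        frontier_subset_closure).eventually_forall_of_forall_eventually fun v hv => by
        have h3 : ContinuousAt (fun q : Icc (0 : ℝ) 1 × V => H (q.1, q.2)) (t, v) :=
          (hH.comp hc.continuousOn fun q hq => ⟨hq, q.1.2, trivial⟩).continuousAt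
            ((hΩ.preimage hc).mem_nhds (hD.sub hv.1))
        exact (((hD.sm.continuous.comp continuous_snd).continuousAt.prodMk h3).eventually
          (dgC_open.mem_nhds (hD.fr v hv)))
    have h3 := ((hZ.diff (hD.op.preimage continuous_snd)).image continuous_fst).isClosed
    have h4 : ∀ᶠ s : Icc (0 : ℝ) 1 in 𝓝 t, (s : ℝ) ∉ Prod.fst ''
        ({p | p ∈ Ω ∧ p.1 ∈ Icc (0 : ℝ) 1 ∧ H p = 0} \ Prod.snd ⁻¹' W) :=
      (h3.isOpen_compl.preimage continuous_subtype_val).mem_nhds (by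
        rintro ⟨⟨s, v⟩, ⟨h5, h6⟩, h7⟩
        obtain rfl : s = t := h7
        exact h6 (hD.zero v h5.1 h5.2.2))
    filter_upwards [h1, h2, h4] with s h5 h6 h7
    refine ((dg_adm_slice hΩ hH hZ s.2).dgR_eq μ ⟨hD.sm, hD.op, hD.cpt, h5, fun v hv h0 => ?_,
      h6⟩).trans ((dg_adm_slice hΩ hH hZ t.2).dgR_eq μ hD).symm
    by_contra h8
    exact h7 ⟨(s, v), ⟨⟨hv, s.2, h0⟩, h8⟩, rfl⟩
  exact hd.apply_eq_of_preconnectedSpace ⟨0, left_mem_Icc.2 zero_le_one⟩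
    ⟨1, right_mem_Icc.2 zero_le_one⟩

end Pool.Agent.CSP
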