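import Pool.Agent.Lib.MP_436e1a_gt.E.DegX3

/-! Brouwer degree: nondegenerate zeros. -/

open scoped ContDiff Topology
open Set MeasureTheory

noncomputable section

namespace Pool.Agent.CSP

variable {V : Type} [NormedAddCommGroup V] [NormedSpace ℝ V] [FiniteDimensional ℝ V]
  [MeasurableSpace V] [BorelSpace V] (μ : Measure V) [μ.IsAddHaarMeasure]

variable {F : V → V} {O : Set V}

omit [MeasurableSpace V] [BorelSpace V] in
theorem dx4_anti {A : V →L[ℝ] V} (hA : A.det ≠ 0) : ∃ C, AntilipschitzWith C A :=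
  ⟨_, (A.toContinuousLinearEquivOfDetNeZero hA).antilipschitz⟩

/-- the degree of a single nondegenerate zero -/
theorem dgR_sign (h : Adm F O) {v₀ : V} {A : V →L[ℝ] V} (hv : v₀ ∈ O)
    (hz : ∀ v ∈ O, F v = 0 ↔ v = v₀) (hd : HasFDerivAt F A v₀) (hA : A.det ≠ 0) :
    dgR μ F O = (SignType.sign A.det : ℝ) := by
  obtain ⟨C₀, hC₀⟩ := dx4_anti hA
  obtain ⟨C, hC, hCA⟩ : ∃ C : ℝ, 0 < C ∧ ∀ u, ‖u‖ ≤ C * ‖A u‖ := ⟨C₀ + 1, by positivity, fun u => by
    have := hC₀.le_mul_dist u 0
    rw [map_zero, dist_zero_right, dist_zero_right] at this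
    nlinarith [norm_nonneg (A u)]⟩
  obtain ⟨r, hr, h1⟩ := Metric.nhds_basis_closedBall.eventually_iff.1
    ((hd.isLittleO.def (c := 1 / (3 * C)) (by positivity)).and (h.1.mem_nhds hv))
  have h0 : F v₀ = 0 := (hz v₀ hv).2 rfl
  let σ : ℝ := 4 * C / r
  have hσ : 0 < σ := by positivity
  have hG : ∀ v, HasFDerivAt (fun v => σ • A (v - v₀)) (σ • A) v := fun v =>
    (A.hasFDerivAt.comp v ((hasFDerivAt_id v).sub_const v₀)).const_smul σ
  have hD : DgD F O (fun v => σ • A (v - v₀)) (Metric.ball v₀ r) := by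
    refine ⟨by fun_prop, Metric.isOpen_ball, (isCompact_closedBall v₀ r).of_isClosed_subset
      isClosed_closure Metric.closure_ball_subset_closedBall,
      fun v hv => (h1 (Metric.closure_ball_subset_closedBall hv)).2,
      fun v hv h2 => (hz v hv).1 h2 ▸ Metric.mem_ball_self hr, fun v hv => ⟨σ, hσ, ?_⟩⟩
    have h2 := Metric.frontier_ball_subset_sphere hv
    have h3 := (h1 (Metric.sphere_subset_closedBall h2)).1
    have h4 := hCA (v - v₀)
    rw [mem_sphere_iff_norm.1 h2] at h3 h4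
    rw [h0, sub_zero, norm_sub_rev] at h3
    rw [← smul_sub, norm_smul, Real.norm_of_nonneg hσ.le]
    have h5 := norm_sub_norm_le (A (v - v₀)) (F v)
    have h6 : r / C ≤ ‖A (v - v₀)‖ := by rw [div_le_iff₀ hC]; linarith
    have h7 : σ * (r / C) = 4 := by simp only [σ]; field_simp
    have h8 : 1 / (3 * C) * r = r / C / 3 := by field_simp
    rw [h8] at h3
    nlinarith
  have hdet : (σ • A).det = σ ^ Module.finrank ℝ V * A.det := LinearMap.det_smul σ (A : V →ₗ[ℝ] V)
  have h2 := integral_image_eq_integral_abs_det_fderiv_smul μ (s := Metric.ball v₀ r)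
    measurableSet_ball (fun v _ => (hG v).hasFDerivWithinAt) (fun a _ b _ hab =>
      sub_left_injective (hC₀.injective (smul_right_injective V hσ.ne' hab))) (dgψ μ)
  rw [setIntegral_eq_integral_of_forall_compl_eq_zero, dgψ_int] at h2
  · rw [h.dgR_eq μ hD, dgI, ← mul_one (SignType.sign A.det : ℝ), h2, ← integral_const_mul]
    refine integral_congr_ae (Filter.Eventually.of_forall fun v => ?_)
    simp only [(hG v).fderiv, hdet, abs_mul, abs_of_pos (pow_pos hσ _), smul_eq_mul]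
    linear_combination (-(dgψ μ (σ • A (v - v₀)) * σ ^ Module.finrank ℝ V)) * sign_mul_abs A.det
  · intro z hz
    refine dgψ_zero μ (not_lt.1 fun h3 => hz ?_)
    obtain ⟨u, hu⟩ := (A.toContinuousLinearEquivOfDetNeZero hA).surjective (σ⁻¹ • z)
    have hu' : A u = σ⁻¹ • z := hu
    refine ⟨v₀ + u, ?_, by simp [hu', smul_smul, hσ.ne']⟩
    have h4 := hCA u
    rw [hu', norm_smul, Real.norm_of_nonneg (inv_pos.2 hσ).le, ← mul_assoc,
      show C * σ⁻¹ = r / 4 by simp only [σ]; field_simp] at h4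
    rw [mem_ball_iff_norm, add_sub_cancel_left]
    nlinarith [norm_nonneg z]

/-- finitely many nondegenerate zeros -/
theorem dgR_fin (Z : Finset V) (h : Adm F O) {A : V → V →L[ℝ] V}
    (hz : ∀ v, v ∈ Z ↔ v ∈ O ∧ F v = 0) (hd : ∀ v ∈ Z, HasFDerivAt F (A v) v ∧ (A v).det ≠ 0) :
    dgR μ F O = ∑ v ∈ Z, (SignType.sign (A v).det : ℝ) := by
  classical
  induction Z using Finset.induction_on generalizing O with
  | empty => exact dgR_empty μ h fun v hv h0 => by simpa using (hz v).2 ⟨hv, h0⟩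
  | insert a Z ha ih =>
    have ha' := (hz a).1 (Finset.mem_insert_self _ _)
    obtain ⟨r, hr, h1⟩ := Metric.nhds_basis_closedBall.eventually_iff.1
      (Filter.Eventually.and (h.1.mem_nhds ha'.1)
        (Z.finite_toSet.isClosed.isOpen_compl.mem_nhds ha))
    have hb : Metric.ball a r ⊆ O := fun v hv => (h1 (Metric.ball_subset_closedBall hv)).1
    have h2 : ∀ v ∈ Metric.ball a r, F v = 0 ↔ v = a := fun v hv =>
      ⟨fun h0 => (Finset.mem_insert.1 ((hz v).2 ⟨hb hv, h0⟩)).resolve_right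
        (h1 (Metric.ball_subset_closedBall hv)).2, fun h0 => h0 ▸ ha'.2⟩
    have h3 : ∀ v, v ∈ Z ↔ v ∈ O \ Metric.closedBall a r ∧ F v = 0 := fun v =>
      ⟨fun hv => have := (hz v).1 (Finset.mem_insert_of_mem hv)
        ⟨⟨this.1, fun h4 => (h1 h4).2 hv⟩, this.2⟩,
      fun hv => (Finset.mem_insert.1 ((hz v).2 ⟨hv.1.1, hv.2⟩)).resolve_left
        fun h4 => hv.1.2 (h4 ▸ Metric.mem_closedBall_self hr.le)⟩
    have h4 : Adm F (Metric.ball a r) := ⟨Metric.isOpen_ball, h.2.1.mono hb,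
      ((finite_singleton a).subset fun v hv => (h2 v hv.1).1 hv.2).isCompact⟩
    have h5 : Adm F (O \ Metric.closedBall a r) := ⟨h.1.sdiff Metric.isClosed_closedBall,
      h.2.1.mono sdiff_subset, (Z.finite_toSet.subset fun v hv => (h3 v).2 hv).isCompact⟩
    rw [← dgR_excise μ h (h4.1.union h5.1) (union_subset hb sdiff_subset) fun v hv h0 =>
        (Finset.mem_insert.1 ((hz v).2 ⟨hv, h0⟩)).imp 
          (fun h6 : v = a => h6 ▸ Metric.mem_ball_self hr)
          fun h6 => ((h3 v).1 h6).1,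
      dgR_add μ h4 h5 (disjoint_left.2 fun v hv h6 => h6.2 (Metric.ball_subset_closedBall hv)),
      Finset.sum_insert ha, ih h5 h3 fun v hv => hd v (Finset.mem_insert_of_mem hv),
      dgR_sign μ h4 (Metric.mem_ball_self hr) h2 (hd a (Finset.mem_insert_self _ _)).1
        (hd a (Finset.mem_insert_self _ _)).2]

end Pool.Agent.CSP
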