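import Pool.Agent.Lib.MP_436e1a_gt.E.DegX4

/-! Brouwer degree: regular values, integrality, multiplication by a field of isomorphisms. -/

open scoped ContDiff Topology
open Set MeasureTheory

noncomputable section

namespace Pool.Agent.CSP

variable {V : Type} [NormedAddCommGroup V] [NormedSpace ℝ V] [FiniteDimensional ℝ V]
  [MeasurableSpace V] [BorelSpace V] (μ : Measure V) [μ.IsAddHaarMeasure]

variable {F : V → V} {O : Set V}

include μ in
/-- a representative with finitely many nondegenerate zeros -/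
theorem Adm.exists_reg (h : Adm F O) : ∃ (G : V → V) (W : Set V) (Z : Finset V), DgD F O G W ∧
    (∀ v, v ∈ Z ↔ v ∈ W ∧ G v = 0) ∧ ∀ v ∈ Z, (fderiv ℝ G v).det ≠ 0 := by
  obtain ⟨G, W, hD⟩ := h.exists_dgD
  have h1 : ∀ᶠ y in 𝓝 (0 : V), ∀ v ∈ frontier W, G v - y ∈ dgC (F v) :=
    (hD.cpt.of_isClosed_subset isClosed_frontier
      frontier_subset_closure).eventually_forall_of_forall_eventually fun v hv => by
      have h2 : ContinuousAt (fun q : V × V => (G q.2 - q.1, F q.2)) (0, v) :=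
        ((hD.sm.continuous.comp continuous_snd).sub continuous_fst).continuousAt.prodMk
          (ContinuousAt.comp (f := Prod.snd) (h.2.1.continuousAt (h.1.mem_nhds (hD.sub hv.1)))
            continuousAt_snd)
      exact h2.eventually (dgC_open.mem_nhds (by simpa using hD.fr v hv))
  have hd := fun v => (hD.sm.differentiable (by simp) v).hasFDerivAt
  have h2 := addHaar_image_eq_zero_of_det_fderivWithin_eq_zero μ
    (s := {v | (fderiv ℝ G v).det = 0}) (fun v _ => (hd v).hasFDerivWithinAt) fun _ hv => hv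
  obtain ⟨y, h3, h4⟩ : ∃ y, (∀ v ∈ frontier W, G v - y ∈ dgC (F v)) ∧
      y ∉ G '' {v | (fderiv ℝ G v).det = 0} := by
    by_contra! h3
    exact (Measure.measure_pos_of_mem_nhds μ h1).ne' (measure_mono_null h3 h2)
  have h5 : ∀ v, G v - y = 0 → (fderiv ℝ G v).det ≠ 0 := fun v hv h0 =>
    h4 ⟨v, h0, sub_eq_zero.1 hv⟩
  have h6 : {v | v ∈ closure W ∧ G v - y = 0}.Finite := by
    refine (hD.cpt.inter_right (isClosed_eq (hD.sm.continuous.sub continuous_const)
      continuous_const)).finite (isDiscrete_iff_nhdsNE.2 fun v hv => ?_)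
    exact Filter.inf_principal_eq_bot.2 (((hd v).eventually_ne (c := y)
      (dx4_anti (h5 v hv.2))).mono fun u hu h7 => hu (sub_eq_zero.1 h7.2))
  have h7 := h6.subset (t := {v | v ∈ W ∧ G v - y = 0}) fun v hv => ⟨subset_closure hv.1, hv.2⟩
  refine ⟨fun v => G v - y, W, h7.toFinset, ⟨hD.sm.sub contDiff_const, hD.op, hD.cpt, hD.sub,
    hD.zero, h3⟩, fun v => h7.mem_toFinset, fun v hv => ?_⟩
  rw [fderiv_sub_const]
  exact h5 v (h7.mem_toFinset.1 hv).2

omit [MeasurableSpace V] [BorelSpace V] in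
theorem dx5_inj {A : V →L[ℝ] V} (hA : A.det ≠ 0) {v : V} : A v = 0 ↔ v = 0 :=
  (A.toContinuousLinearEquivOfDetNeZero hA).map_eq_zero_iff

omit [FiniteDimensional ℝ V] [MeasurableSpace V] [BorelSpace V] in
theorem dx5_der {M : V → V →L[ℝ] V} {G : V → V} {A : V →L[ℝ] V} {v : V} (hM : ContinuousAt M v)
    (hG : HasFDerivAt G A v) (h0 : G v = 0) :
    HasFDerivAt (fun u => M u (G u)) ((M v).comp A) v := by
  have h1 : HasFDerivAt (fun u => (M u - M v) (G u)) (0 : V →L[ℝ] V) v := by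
    refine hasFDerivAt_iff_isLittleO.2 ?_
    have h2 : (fun u => ‖M u - M v‖) =o[𝓝 v] fun _ => (1 : ℝ) :=
      (Asymptotics.isLittleO_one_iff ℝ).2 (tendsto_iff_norm_sub_tendsto_zero.1 hM)
    have h3 := hG.isBigO_sub
    simp only [h0, sub_zero] at h3
    have h4 := h2.mul_isBigO h3.norm_norm
    simp only [one_mul] at h4
    refine (Asymptotics.IsBigO.of_norm_le fun u => ?_).trans_isLittleO h4.of_norm_right
    simpa [h0] using (M u - M v).le_opNorm (G u)
  have h5 := h1.add ((M v).hasFDerivAt.comp v hG)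
  rw [zero_add] at h5
  exact h5.congr_of_eventuallyEq (Filter.Eventually.of_forall fun u => by simp)

theorem Adm.mul (h : Adm F O) {M : V → V →L[ℝ] V} (hM : ContinuousOn M O)
    (hd : ∀ v ∈ O, (M v).det ≠ 0) : Adm (fun v => M v (F v)) O := by
  refine ⟨h.1, hM.clm_apply h.2.1, ?_⟩
  have : {v | v ∈ O ∧ M v (F v) = 0} = {v | v ∈ O ∧ F v = 0} :=
    Set.ext fun v => and_congr_right fun hv => dx5_inj (hd v hv)
  rw [this]
  exact h.2.2

/-- the degree as a signed count -/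
theorem dgR_mul {G : V → V} {W : Set V} {Z : Finset V} (h : Adm F O) (hD : DgD F O G W)
    (hz : ∀ v, v ∈ Z ↔ v ∈ W ∧ G v = 0) (hr : ∀ v ∈ Z, (fderiv ℝ G v).det ≠ 0)
    {M : V → V →L[ℝ] V} (hM : ContinuousOn M O) (hd : ∀ v ∈ O, (M v).det ≠ 0) :
    dgR μ (fun v => M v (F v)) O =
      ∑ v ∈ Z, (SignType.sign (M v).det : ℝ) * (SignType.sign (fderiv ℝ G v).det : ℝ) := by
  have hW : W ⊆ O := subset_closure.trans hD.sub
  have hS : ContinuousOn (fun p : ℝ × V => (1 - p.1) • F p.2 + p.1 • G p.2) (univ ×ˢ O) :=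
    ((continuousOn_const.sub continuousOn_fst).smul
      (h.2.1.comp continuousOn_snd fun _ hp => hp.2)).add
      (continuous_fst.smul (hD.sm.continuous.comp continuous_snd)).continuousOn
  have hH : ContinuousOn (fun p : ℝ × V => M p.2 ((1 - p.1) • F p.2 + p.1 • G p.2))
      (Prod.snd ⁻¹' W ∩ Icc 0 1 ×ˢ univ) :=
    (hM.comp continuousOn_snd fun _ hp => hW hp.1).clm_apply
      (hS.mono fun _ hp => ⟨trivial, hW hp.1⟩)
  have hK := (isCompact_Icc (a := (0 : ℝ)) (b := 1)).prod hD.cpt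
  have hZ : IsCompact {p : ℝ × V | p ∈ Prod.snd ⁻¹' W ∧ p.1 ∈ Icc (0 : ℝ) 1 ∧
      M p.2 ((1 - p.1) • F p.2 + p.1 • G p.2) = 0} := by
    refine Eq.mp (congrArg IsCompact (Set.ext fun p => ⟨fun hp => ?_, fun hp => ?_⟩))
      (hK.of_isClosed_subset ((hS.mono (prod_mono (subset_univ _)
        hD.sub)).preimage_isClosed_of_isClosed hK.isClosed (isClosed_singleton (x := 0)))
        inter_subset_left)
    · refine ⟨by_contra fun h1 => dgC_seg (hD.fr _ (hD.op.frontier_eq ▸ ⟨hp.1.2, h1⟩)) hp.1.1 hp.2,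
        hp.1.1, (dx5_inj (hd _ (hD.sub hp.1.2))).2 hp.2⟩
    · exact ⟨⟨hp.2.1, subset_closure hp.1⟩, (dx5_inj (hd _ (hW hp.1))).1 hp.2.2⟩
  have h1 := dgR_htpy μ (hD.op.preimage continuous_snd) hH hZ
  have h2 := dg_adm_slice (hD.op.preimage continuous_snd) hH hZ (right_mem_Icc.2 zero_le_one)
  simp only [sub_zero, one_smul, zero_smul, add_zero, sub_self, zero_add, mem_preimage,
    ofPred_mem_eq] at h1 h2
  rw [← dgR_excise μ (h.mul hM hd) hD.op hW fun v hv h0 => hD.zero v hv ((dx5_inj (hd v hv)).1 h0),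
    h1, dgR_fin μ Z h2 (A := fun v => (M v).comp (fderiv ℝ G v))
      (fun v => (hz v).trans (and_congr_right fun hv => (dx5_inj (hd v (hW hv))).symm)) fun v hv =>
      ⟨dx5_der (hM.continuousAt (h.1.mem_nhds (hW ((hz v).1 hv).1)))
        (hD.sm.differentiable (by simp) v).hasFDerivAt ((hz v).1 hv).2,
        (LinearMap.det_comp _ _).trans_ne (mul_ne_zero (hd v (hW ((hz v).1 hv).1)) (hr v hv))⟩]
  refine Finset.sum_congr rfl fun v _ => ?_
  rw [← SignType.coe_mul, ← sign_mul]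
  exact congrArg (fun x : ℝ => (SignType.sign x : ℝ)) (LinearMap.det_comp _ _)

theorem dx5_one {G : V → V} {W : Set V} {Z : Finset V} (h : Adm F O) (hD : DgD F O G W)
    (hz : ∀ v, v ∈ Z ↔ v ∈ W ∧ G v = 0) (hr : ∀ v ∈ Z, (fderiv ℝ G v).det ≠ 0) :
    dgR μ F O = ∑ v ∈ Z, (SignType.sign (fderiv ℝ G v).det : ℝ) := by
  have h1 : (ContinuousLinearMap.id ℝ V).det = 1 := LinearMap.det_id
  simpa [h1] using dgR_mul μ h hD hz hr (M := fun _ => ContinuousLinearMap.id ℝ V)
    continuousOn_const fun _ _ => by simp [h1]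

theorem dgR_int (h : Adm F O) : ∃ d : ℤ, dgR μ F O = d := by
  obtain ⟨G, W, Z, hD, hz, hr⟩ := h.exists_reg μ
  exact ⟨∑ v ∈ Z, (SignType.sign (fderiv ℝ G v).det : ℤ), by simp [dx5_one μ h hD hz hr]⟩

theorem dx5_sign {s : ℤˣ} {x : ℝ} (h : 0 < ((s : ℤ) : ℝ) * x) :
    x ≠ 0 ∧ (SignType.sign x : ℝ) = ((s : ℤ) : ℝ) := by
  rcases Int.units_eq_one_or s with rfl | rfl
  · have : 0 < x := by simpa using h
    exact ⟨this.ne', by simp [sign_pos this]⟩
  · have : x < 0 := by simpa using h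
    exact ⟨this.ne, by simp [sign_neg this]⟩

theorem dgR_mult (h : Adm F O) {M : V → V →L[ℝ] V} {s : ℤˣ} (hM : ContinuousOn M O)
    (hd : ∀ v ∈ O, 0 < ((s : ℤ) : ℝ) * (M v).det) :
    dgR μ (fun v => M v (F v)) O = ((s : ℤ) : ℝ) * dgR μ F O := by
  obtain ⟨G, W, Z, hD, hz, hr⟩ := h.exists_reg μ
  rw [dgR_mul μ h hD hz hr hM fun v hv => (dx5_sign (hd v hv)).1, dx5_one μ h hD hz hr,
    Finset.mul_sum]
  exact Finset.sum_congr rfl fun v hv => by
    rw [(dx5_sign (hd v (hD.sub (subset_closure ((hz v).1 hv).1)))).2]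

end Pool.Agent.CSP
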