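import Pool.Agent.Lib.MP_436e1a_gt.E.DegX5

/-! Brouwer degree: coverings. -/

open scoped ContDiff Topology
open Set MeasureTheory

noncomputable section

namespace Pool.Agent.CSP

variable {V : Type} [NormedAddCommGroup V] [NormedSpace ℝ V] [FiniteDimensional ℝ V]
  [MeasurableSpace V] [BorelSpace V] (μ : Measure V) [μ.IsAddHaarMeasure]

variable {F Φ : V → V} {O O' : Set V}

theorem Adm.cover (h : Adm F O) (hO : IsOpen O') (hΦ : ContDiffOn ℝ ∞ Φ O') (hm : MapsTo Φ O' O)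
    (hp : ∀ K ⊆ O, IsCompact K → IsCompact (O' ∩ Φ ⁻¹' K)) : Adm (fun v => F (Φ v)) O' := by
  refine ⟨hO, h.2.1.comp hΦ.continuousOn hm, ?_⟩
  refine Eq.mp (congrArg IsCompact (Set.ext fun v => ?_)) (hp _ (fun _ hv => hv.1) h.2.2)
  exact ⟨fun hv => ⟨hv.1, hv.2.2⟩, fun hv => ⟨hv.1, hm hv.1, hv.2⟩⟩

/-- the degree of the pull-back along a covering -/
theorem dgR_cover {s : ℤˣ} {n : ℕ} {Ω : Fin n → Set V} (h : Adm F O) (hO : IsOpen O')
    (hΦ : ContDiffOn ℝ ∞ Φ O') (hm : MapsTo Φ O' O)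
    (hp : ∀ K ⊆ O, IsCompact K → IsCompact (O' ∩ Φ ⁻¹' K))
    (hΩ : ∀ k, IsOpen (Ω k) ∧ Ω k ⊆ O' ∧ InjOn Φ (Ω k) ∧
      (∀ v ∈ Ω k, 0 < ((s : ℤ) : ℝ) * (fderiv ℝ Φ v).det) ∧ μ (O \ Φ '' Ω k) = 0)
    (hd : Pairwise fun k l => Disjoint (Ω k) (Ω l)) (hn : μ (O' \ ⋃ k, Ω k) = 0) :
    dgR μ (fun v => F (Φ v)) O' = ((s : ℤ) : ℝ) * n * dgR μ F O := by
  obtain ⟨G, W, hD⟩ := h.exists_dgD
  have hK := hp _ hD.sub hD.cpt
  have hW : IsOpen (O' ∩ Φ ⁻¹' W) := hΦ.continuousOn.isOpen_inter_preimage hO hD.op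
  have hWK : O' ∩ Φ ⁻¹' W ⊆ O' ∩ Φ ⁻¹' closure W := fun v hv => ⟨hv.1, subset_closure hv.2⟩
  have hc := closure_minimal hWK hK.isClosed
  obtain ⟨G', h1, h2⟩ := dg_ext hO (hD.sm.comp_contDiffOn hΦ) hK.isClosed inter_subset_left
  have hD' : DgD (fun v => F (Φ v)) O' G' (O' ∩ Φ ⁻¹' W) :=
    ⟨h1, hW, hK.of_isClosed_subset isClosed_closure hc, hc.trans inter_subset_left,
      fun v hv h0 => ⟨hv, hD.zero _ (hm hv) h0⟩, fun v hv => by
        rw [h2 (hc hv.1)]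
        exact hD.fr _ (hD.op.frontier_eq ▸ ⟨(hc hv.1).2, fun h3 =>
          (hW.frontier_eq ▸ hv).2 ⟨(hc hv.1).1, h3⟩⟩)⟩
  have hΦ' : ∀ v ∈ O', HasFDerivAt Φ (fderiv ℝ Φ v) v := fun v hv =>
    ((hΦ.contDiffAt (hO.mem_nhds hv)).differentiableAt (by simp)).hasFDerivAt
  have hk : ∀ k, ∫ v in O' ∩ Φ ⁻¹' W ∩ Ω k, dgψ μ (G' v) * (fderiv ℝ G' v).det ∂μ =
      ((s : ℤ) : ℝ) * dgI μ G W := fun k => by
    obtain ⟨h3, h4, h5, h6, h7⟩ := hΩ k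
    have h8 : W =ᵐ[μ] (Φ '' (O' ∩ Φ ⁻¹' W ∩ Ω k) : Set V) := by
      refine ae_eq_set.2 ⟨measure_mono_null (fun y hy => ?_) h7,
        measure_mono_null (fun y hy => ?_) measure_empty⟩
      · refine ⟨hD.sub (subset_closure hy.1), ?_⟩
        rintro ⟨v, hv, rfl⟩
        exact hy.2 ⟨v, ⟨⟨h4 hv, hy.1⟩, hv⟩, rfl⟩
      · obtain ⟨⟨v, hv, rfl⟩, h9⟩ := hy
        exact h9 hv.1.2
    rw [dgI, setIntegral_congr_set h8, integral_image_eq_integral_abs_det_fderiv_smul μ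
      (hW.inter h3).measurableSet (fun v hv => (hΦ' v hv.1.1).hasFDerivWithinAt)
      (h5.mono inter_subset_right), ← integral_const_mul]
    refine setIntegral_congr_fun (hW.inter h3).measurableSet fun v hv => ?_
    have h9 : G' =ᶠ[𝓝 v] G ∘ Φ :=
      Filter.mem_of_superset (hW.mem_nhds hv.1) fun u hu => h2 (hWK hu)
    have h10 : (fderiv ℝ G' v).det = (fderiv ℝ G (Φ v)).det * (fderiv ℝ Φ v).det := by
      rw [h9.fderiv_eq,
        ((hD.sm.differentiable (by simp) _).hasFDerivAt.comp v (hΦ' v hv.1.1)).fderiv]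
      exact LinearMap.det_comp _ _
    simp only [h10, h9.self_of_nhds, Function.comp_apply, smul_eq_mul, ← (dx5_sign (h6 v hv.2)).2]
    linear_combination (-(dgψ μ (G (Φ v)) * (fderiv ℝ G (Φ v)).det)) *
      sign_mul_abs (fderiv ℝ Φ v).det
  have h3 : (O' ∩ Φ ⁻¹' W : Set V) =ᵐ[μ] (⋃ k, O' ∩ Φ ⁻¹' W ∩ Ω k : Set V) := by
    refine ae_eq_set.2 ⟨measure_mono_null (fun v hv => ?_) hn,
      measure_mono_null (fun v hv => ?_) measure_empty⟩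
    · refine ⟨hv.1.1, fun h3 => ?_⟩
      obtain ⟨k, hk⟩ := mem_iUnion.1 h3
      exact hv.2 (mem_iUnion.2 ⟨k, hv.1, hk⟩)
    · obtain ⟨k, hk⟩ := mem_iUnion.1 hv.1
      exact hv.2 hk.1
  rw [(h.cover hO hΦ hm hp).dgR_eq μ hD', h.dgR_eq μ hD, dgI, setIntegral_congr_set h3,
    integral_iUnion_fintype (fun k => (hW.inter (hΩ k).1).measurableSet)
      (fun k l hkl => (hd hkl).mono inter_subset_right inter_subset_right)
      fun k => (dg_integrable μ h1 hD'.cpt).mono_set inter_subset_left]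
  simp only [hk, Finset.sum_const, Finset.card_univ, Fintype.card_fin, nsmul_eq_mul]
  ring

end Pool.Agent.CSP
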