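import Pool.Agent.Lib.MP_436e1a_gt.B.FlatL
import Pool.Agent.Lib.MP_436e1a_gt.A.Pi1
import Pool.Agent.Lib.MP_436e1a_gt.A.MapsL

/-! The tangent bundle is trivial along a torsion sphere. -/

open Set

namespace Pool.Agent.CSP

noncomputable section

/-- the parametrisation of a hemisphere by the disc -/
def flatT_hs (s : ℝ) (z : ℂ) : E 3 := !₂[z.re, z.im, s * √(1 - ‖z‖ ^ 2)]

/-- the projection to the plane -/
def flatT_pj (x : E 3) : ℂ := ⟨x 0, x 1⟩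

/-- a closed hemisphere -/
def flatT_Hm (s : ℝ) : Set (E 3) := {x | x ∈ S2 ∧ 0 ≤ s * x 2}

end

theorem flatT_nsq (z : ℂ) : ‖z‖ ^ 2 = z.re ^ 2 + z.im ^ 2 := by
  rw [Complex.sq_norm, Complex.normSq_apply]; ring

theorem flatT_hs_cont (s : ℝ) : Continuous (flatT_hs s) := by
  unfold flatT_hs
  refine (PiLp.continuous_toLp 2 _).comp ?_
  refine continuous_pi fun i => ?_
  fin_cases i <;> simp <;> fun_prop

theorem flatT_pj_cont : Continuous flatT_pj := by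
  have : flatT_pj = fun x : E 3 => ((x 0 : ℝ) : ℂ) + ((x 1 : ℝ) : ℂ) * Complex.I := by
    funext x
    apply Complex.ext <;> simp [flatT_pj]
  rw [this]
  fun_prop

theorem flatT_closed (s : ℝ) : IsClosed (flatT_Hm s) :=
  Metric.isClosed_sphere.inter
    (isClosed_le (g := fun x : E 3 => s * x 2) continuous_const (by fun_prop))

theorem flatT_hs_mem {s : ℝ} (hs : s ^ 2 = 1) {z : ℂ} (hz : z ∈ Metric.closedBall (0 : ℂ) 1) :
    flatT_hs s z ∈ flatT_Hm s := by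
  rw [mem_closedBall_zero_iff] at hz
  have h1 : 0 ≤ 1 - ‖z‖ ^ 2 := by nlinarith [norm_nonneg z]
  have h2 := Real.sq_sqrt h1
  refine ⟨mem_S2.2 ?_, ?_⟩
  · change z.re ^ 2 + z.im ^ 2 + (s * √(1 - ‖z‖ ^ 2)) ^ 2 = 1
    rw [mul_pow, hs, h2, flatT_nsq]; ring
  · change 0 ≤ s * (s * √(1 - ‖z‖ ^ 2))
    rw [← mul_assoc, ← sq, hs, one_mul]
    exact Real.sqrt_nonneg _

theorem flatT_pj_nsq {x : E 3} (hx : x ∈ S2) : 1 - ‖flatT_pj x‖ ^ 2 = x 2 ^ 2 := by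
  rw [flatT_nsq]
  have := mem_S2.1 hx
  change 1 - (x 0 ^ 2 + x 1 ^ 2) = _
  linarith

theorem flatT_pj_mem {x : E 3} (hx : x ∈ S2) : flatT_pj x ∈ Metric.closedBall (0 : ℂ) 1 := by
  rw [mem_closedBall_zero_iff]
  have := flatT_pj_nsq hx
  nlinarith [norm_nonneg (flatT_pj x), sq_nonneg (x 2)]

theorem flatT_hs_pj {s : ℝ} (hs : s ^ 2 = 1) {x : E 3} (hx : x ∈ flatT_Hm s) :
    flatT_hs s (flatT_pj x) = x := by
  refine ml_ext rfl rfl ?_
  change s * √(1 - ‖flatT_pj x‖ ^ 2) = x 2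
  have e : x 2 ^ 2 = (s * x 2) ^ 2 := by rw [mul_pow, hs, one_mul]
  rw [flatT_pj_nsq hx.1, e, Real.sqrt_sq hx.2, ← mul_assoc, ← sq, hs, one_mul]

theorem flatT_hs_eq (s : ℝ) {z : ℂ} (hz : z ∈ Metric.sphere (0 : ℂ) 1) :
    flatT_hs s z = flatT_hs 0 z := by
  rw [mem_sphere_zero_iff_norm] at hz
  refine ml_ext rfl rfl ?_
  change s * √(1 - ‖z‖ ^ 2) = 0 * √(1 - ‖z‖ ^ 2)
  rw [hz]; simp

theorem flatT_eq_mem {s : ℝ} (hs : s ^ 2 = 1) {z : ℂ} (hz : z ∈ Metric.sphere (0 : ℂ) 1) :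
    flatT_hs 0 z ∈ flatT_Hm s :=
  flatT_hs_eq s hz ▸ flatT_hs_mem hs (Metric.sphere_subset_closedBall hz)

theorem flatT_cube {z : ℂ} (hz : z ∈ Metric.sphere (0 : ℂ) 1) :
    z ^ 3 ∈ Metric.sphere (0 : ℂ) 1 := by
  rw [mem_sphere_zero_iff_norm] at hz ⊢
  rw [norm_pow, hz, one_pow]

theorem flatT_dd_eq {z : ℂ} (hz : z ∈ Metric.sphere (0 : ℂ) 1) :
    dd (flatT_hs 0 z) = flatT_hs 0 (z ^ 3) := by
  have e : cub (flatT_hs 0 z) = flatT_hs 0 (z ^ 3) := by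
    refine ml_ext ?_ ?_ ?_
    · change z.re ^ 3 - 3 * z.re * z.im ^ 2 = (z ^ 3).re
      simp [pow_succ]; ring
    · change 3 * z.re ^ 2 * z.im - z.im ^ 3 = (z ^ 3).im
      simp [pow_succ]; ring
    · change 0 * √(1 - ‖z‖ ^ 2) * _ = 0 * √(1 - ‖z ^ 3‖ ^ 2)
      simp
  rw [dd, e]
  exact nrm_of_S2 (flatT_eq_mem (one_pow 2) (flatT_cube hz)).1

theorem flatT_dd_mem {s : ℝ} {x : E 3} (hx : x ∈ flatT_Hm s) : dd x ∈ flatT_Hm s := by
  refine ⟨dd_mem (ne_zero_of_S2 hx.1), ?_⟩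
  change 0 ≤ s * (‖cub x‖⁻¹ * (x 2 * (x 0 ^ 2 + x 1 ^ 2 + x 2 ^ 2)))
  have e : s * (‖cub x‖⁻¹ * (x 2 * (x 0 ^ 2 + x 1 ^ 2 + x 2 ^ 2))) =
      ‖cub x‖⁻¹ * (s * x 2) * (x 0 ^ 2 + x 1 ^ 2 + x 2 ^ 2) := by ring
  rw [e]
  have := hx.2
  positivity

theorem flatT_dd_cont (s : ℝ) : ContinuousOn dd (flatT_Hm s) :=
  contDiffOn_dd.continuousOn.mono fun _ hx => ne_zero_of_S2 hx.1

theorem flatT_union : flatT_Hm 1 ∪ flatT_Hm (-1) = S2 := by
  refine Subset.antisymm (union_subset (fun _ h => h.1) fun _ h => h.1) fun x hx => ?_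
  rcases le_total 0 (x 2) with h | h
  · exact Or.inl ⟨hx, by linarith⟩
  · exact Or.inr ⟨hx, by linarith⟩

theorem flatT_inter {x : E 3} (h : x ∈ flatT_Hm 1) (h' : x ∈ flatT_Hm (-1)) :
    flatT_pj x ∈ Metric.sphere (0 : ℂ) 1 := by
  have e : x 2 = 0 := by linarith [h.2, h'.2]
  have := flatT_pj_nsq h.1
  rw [e] at this
  rw [mem_sphere_zero_iff_norm]
  nlinarith [norm_nonneg (flatT_pj x)]

theorem flatT_hemi {c : Ctx} {a : E 3 → c.Y} (ha : ContinuousOn a S2) {s : ℝ} (hs : s ^ 2 = 1) :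
    c.Flat a (flatT_Hm s) := by
  have h1 : c.Flat (fun z => a (flatT_hs s z)) (Metric.closedBall (0 : ℂ) 1) :=
    Ctx.flat_star (isCompact_closedBall _ _)
      ((convex_closedBall (0 : ℂ) 1).starConvex (Metric.mem_closedBall_self zero_le_one))
      (ha.comp (flatT_hs_cont s).continuousOn fun z hz => (flatT_hs_mem hs hz).1)
  refine (h1.comp flatT_pj_cont.continuousOn fun x hx => flatT_pj_mem hx.1).congr ?_
  intro x hx
  rw [flatT_hs_pj hs hx]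

theorem flatT_pair {c : Ctx} {a : E 3 → c.Y} {S : Set (E 3)} (ha : ContinuousOn a S)
    (h : c.Flat a S) : ∃ (A : E 3 → E 5 →L[ℝ] E c.N) (k : E 3 → E c.N →L[ℝ] E 5),
      ContinuousOn A S ∧ ContinuousOn k S ∧ ∀ x ∈ S, c.Sgn (c.q (a x)) (A x) 1 ∧
        c.Cof (c.q (a x)) (k x) ∧ ∀ w, A x (k x w) = c.P (c.q (a x)) w := by
  obtain ⟨C, hC, h⟩ := h
  have hq : ContinuousOn (fun x => c.q (a x)) S := c.continuous_q.comp_continuousOn ha
  obtain ⟨A, hA, h1⟩ := Ctx.exists_frame_of_cof hq hC h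
  obtain ⟨k, hk, h2⟩ := Ctx.exists_cof_of_frame hq hA fun x hx => (h1 x hx).1
  exact ⟨A, k, hA, hk, fun x hx => ⟨(h1 x hx).1, (h2 x hx).1, (h2 x hx).2.2⟩⟩

/-- Sketch. Parametrise the closed hemispheres by the disc, `σ± z = (re z, im z, ± √(1 - ‖z‖ ^ 2))`
with inverse `x ↦ x 0 + x 1 i`. `flat_star` gives coframes `C±` of `a ∘ σ±` on the disc, with dual frames
`A±` (`exists_frame_of_cof`, `exists_cof_of_frame`). Clutching loop `γ z = C₊ z ∘ A₋ z` on the circle.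
The ball `D` is flat; let `A` be a positive frame along `a ∘ dd` on `S2` with coframe `C`, `A ∘ C = P`.
`dd` preserves both hemispheres and is `z ↦ z ^ 3` on the equator, so
`γ (z ^ 3) = M₊ z ∘ M₋ z` with `M₊ z = C₊ (dd (σ₊ z)) ∘ A (σ₊ z)`, `M₋ z = C (σ₋ z) ∘ A₋ (dd (σ₋ z))`, both
defined on the disc with positive determinant. `pi1_five` extends `γ` to `Γ`; the frames `A₊ ∘ Γ` on the
upper and `A₋` on the lower hemisphere agree on the equator (`A₊ ∘ C₊ = id` on the tangent space); glue and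
apply `exists_cof_of_frame`. -/
theorem Tors.flat {c : Ctx} {a : E 3 → c.Y} (h : Tors a) : c.Flat a S2 := by
  obtain ⟨ha, D, hD, hDa⟩ := h
  have s1 : (1 : ℝ) ^ 2 = 1 := one_pow 2
  have s2 : (-1 : ℝ) ^ 2 = 1 := by norm_num
  obtain ⟨Ap, kp, cAp, ckp, hp⟩ := flatT_pair (ha.mono fun _ h => h.1) (flatT_hemi ha s1)
  obtain ⟨Am, km, cAm, -, hm⟩ := flatT_pair (ha.mono fun _ h => h.1) (flatT_hemi ha s2)
  obtain ⟨A, k, cA, ck, hd⟩ := flatT_pair hD (Ctx.flat_star (isCompact_closedBall _ _)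
    ((convex_closedBall (0 : E 3) 1).starConvex (Metric.mem_closedBall_self zero_le_one)) hD)
  have hd' : ∀ x ∈ S2, c.Sgn (c.q (a (dd x))) (A x) 1 ∧ c.Cof (c.q (a (dd x))) (k x) ∧
      ∀ w, A x (k x w) = c.P (c.q (a (dd x))) w := fun x hx =>
    hDa x hx ▸ hd x (Metric.sphere_subset_closedBall hx)
  have c0 : ContinuousOn (flatT_hs 0) (Metric.sphere (0 : ℂ) 1) := (flatT_hs_cont 0).continuousOn
  have hE : ExtD fun z => (kp (flatT_hs 0 z)).comp (Am (flatT_hs 0 z)) := by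
    refine pi1_five ((ckp.comp c0 fun z hz => flatT_eq_mem s1 hz).clm_comp
      (cAm.comp c0 fun z hz => flatT_eq_mem s2 hz)) (fun z hz =>
        (hm _ (flatT_eq_mem s2 hz)).1.cof_iff.1 (hp _ (flatT_eq_mem s1 hz)).2.1) ?_
    have cs : ∀ s, ContinuousOn (flatT_hs s) (Metric.closedBall (0 : ℂ) 1) := fun s =>
      (flatT_hs_cont s).continuousOn
    have cd : ∀ s : ℝ, s ^ 2 = 1 →
        ContinuousOn (fun z => dd (flatT_hs s z)) (Metric.closedBall (0 : ℂ) 1) := fun s hs =>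
      (flatT_dd_cont s).comp (cs s) fun z hz => flatT_hs_mem hs hz
    have mb : ∀ s : ℝ, s ^ 2 = 1 → MapsTo (flatT_hs s) (Metric.closedBall (0 : ℂ) 1) B3 :=
      fun s hs z hz => Metric.sphere_subset_closedBall (flatT_hs_mem hs hz).1
    refine ⟨fun z => ((kp (dd (flatT_hs 1 z))).comp (A (flatT_hs 1 z))).comp
      ((k (flatT_hs (-1) z)).comp (Am (dd (flatT_hs (-1) z)))), ?_, ?_, ?_⟩
    · exact ((ckp.comp (cd 1 s1) fun z hz => flatT_dd_mem (flatT_hs_mem s1 hz)).clm_comp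
        (cA.comp (cs 1) (mb 1 s1))).clm_comp ((ck.comp (cs (-1)) (mb (-1) s2)).clm_comp
          (cAm.comp (cd (-1) s2) fun z hz => flatT_dd_mem (flatT_hs_mem s2 hz)))
    · intro z hz
      rw [sgn_det_comp]
      exact mul_pos ((hd' _ (flatT_hs_mem s1 hz).1).1.cof_iff.1
          (hp _ (flatT_dd_mem (flatT_hs_mem s1 hz))).2.1)
        ((hm _ (flatT_dd_mem (flatT_hs_mem s2 hz))).1.cof_iff.1
          (hd' _ (flatT_hs_mem s2 hz).1).2.1)
    · intro z hz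
      have e := (hd' _ (flatT_eq_mem s1 hz).1).2.2
      have e' := (hm _ (flatT_eq_mem s2 (flatT_cube hz))).1.P_eq
      rw [flatT_dd_eq hz] at e
      refine ContinuousLinearMap.ext fun u => ?_
      simp only [ContinuousLinearMap.comp_apply]
      rw [flatT_hs_eq 1 hz, flatT_hs_eq (-1) hz, flatT_dd_eq hz, e, e']
  obtain ⟨Γ, cΓ, dΓ, eΓ⟩ := hE
  obtain ⟨F, cF, e1, e2⟩ := pi1_glue (flatT_closed 1) (flatT_closed (-1))
    (f := fun x => (Ap x).comp (Γ (flatT_pj x))) (g := Am)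
    (cAp.clm_comp (cΓ.comp flatT_pj_cont.continuousOn fun x hx => flatT_pj_mem hx.1)) cAm
    (fun x hx hx' => by
      have hz := flatT_inter hx hx'
      have e : flatT_hs 0 (flatT_pj x) = x := by
        rw [← flatT_hs_eq 1 hz, flatT_hs_pj s1 hx]
      refine ContinuousLinearMap.ext fun u => ?_
      rw [eΓ hz]
      simp only [ContinuousLinearMap.comp_apply]
      rw [e, (hp x hx).2.2, (hm x hx').1.P_eq])
  rw [flatT_union] at cF
  obtain ⟨C, cC, hC⟩ := Ctx.exists_cof_of_frame (p := fun x => c.q (a x))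
    (c.continuous_q.comp_continuousOn ha) cF fun x hx => by
      rcases flatT_union.ge hx with h | h
      · rw [e1 h]
        have := (hp x h).1.comp (ε' := 1) (B := Γ (flatT_pj x))
          (by simpa using dΓ _ (flatT_pj_mem hx))
        rwa [mul_one] at this
      · rw [e2 h]
        exact (hm x h).1
  exact ⟨C, cC, fun x hx => (hC x hx).1⟩

end Pool.Agent.CSP
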