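import Pool.Agent.Lib.MP_436e1a_gt.E.IndDef
import Pool.Agent.Lib.MP_436e1a_gt.B.FlatL
import Pool.Agent.Lib.MP_436e1a_gt.A.LocInj
import Pool.Agent.Lib.MP_436e1a_gt.A.TubeL
import Pool.Agent.Lib.MP_436e1a_gt.A.SmoothRel

/-! The coincidence index is well defined and homotopy invariant. -/

open scoped Topology
open Set MeasureTheory Metric

namespace Pool.Agent.CSP

theorem j6_eq_zero {u : E 5} {s : ℝ} : j6 u s = 0 ↔ u = 0 ∧ s = 0 := by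
  constructor
  · intro h
    refine ⟨?_, congrArg (fun v : V6 => v.2 2) h⟩
    ext i
    fin_cases i
    exacts [congrArg (fun v : V6 => v.1 0) h, congrArg (fun v : V6 => v.1 1) h,
      congrArg (fun v : V6 => v.1 2) h, congrArg (fun v : V6 => v.2 0) h,
      congrArg (fun v : V6 => v.2 1) h]
  · rintro ⟨rfl, rfl⟩
    refine Prod.ext ?_ ?_ <;> ext i <;> fin_cases i <;> rfl

/-- `j6` as a continuous linear equivalence -/
theorem exists_j6 : ∃ J : (E 5 × ℝ) ≃L[ℝ] V6, ∀ u s, J (u, s) = j6 u s := by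
  let L : (E 5 × ℝ) →ₗ[ℝ] V6 :=
    { toFun := fun p => j6 p.1 p.2
      map_add' := fun p q => by refine Prod.ext ?_ ?_ <;> ext i <;> fin_cases i <;> rfl
      map_smul' := fun a p => by refine Prod.ext ?_ ?_ <;> ext i <;> fin_cases i <;> rfl }
  exact ⟨(L.linearEquivOfInjective ((injective_iff_map_eq_zero L).2 fun p hp =>
    Prod.ext (j6_eq_zero.1 hp).1 (j6_eq_zero.1 hp).2) (by simp)).toContinuousLinearEquiv,
    fun _ _ => rfl⟩

theorem ind_deg_sum {ι : Type} (s : Finset ι) {F : V6 → V6} {U : ι → Set V6}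
    (hA : ∀ i ∈ s, Adm F (U i)) (hd : ∀ i ∈ s, ∀ j ∈ s, i ≠ j → Disjoint (U i) (U j)) :
    Adm F (⋃ i ∈ s, U i) ∧ dth.deg F (⋃ i ∈ s, U i) = ∑ i ∈ s, dth.deg F (U i) := by
  classical
  induction s using Finset.induction_on with
  | empty =>
    have h : Adm F ∅ := ⟨isOpen_empty, continuousOn_empty _, by simp⟩
    simpa using ⟨h, dth.empty h fun _ h => h.elim⟩
  | insert a s ha ih =>
    obtain ⟨h1, h2⟩ := ih (fun i hi => hA i (Finset.mem_insert_of_mem hi)) fun i hi j hj =>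
      hd i (Finset.mem_insert_of_mem hi) j (Finset.mem_insert_of_mem hj)
    have h3 := hA a (Finset.mem_insert_self _ _)
    rw [Finset.set_biUnion_insert, Finset.sum_insert ha, dth.add h3 h1
      (disjoint_iUnion₂_right.2 fun i hi => hd a (Finset.mem_insert_self _ _) i
        (Finset.mem_insert_of_mem hi) fun e => ha (e ▸ hi)), h2]
    refine ⟨⟨h3.1.union h1.1, h3.2.1.union_of_isOpen h1.2.1 h3.1 h1.1, ?_⟩, rfl⟩
    simpa only [mem_union, or_and_right, ofPred_or] using h3.2.2.union h1.2.2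

namespace Ctx

variable {c : Ctx}

theorem noextra {T : Type} [TopologicalSpace T] {S : Set T} {f g : T → c.Y}
    {C : T → E c.N →L[ℝ] E 5} {t₀ : T} (hf : ContinuousWithinAt f S t₀)
    (hg : ContinuousWithinAt g S t₀) (hC : ContinuousWithinAt C S t₀) (he : f t₀ = g t₀)
    (h : c.Cof (c.q (f t₀)) (C t₀)) :
    ∀ᶠ t in 𝓝[S] t₀, C t (c.am g t - c.am f t) = 0 → f t = g t := by
  have h1 := c.contDiffOn_ρ.comp (contDiffOn_snd (s := (univ : Set (E c.N →L[ℝ] E 5)) ×ˢ c.U))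
    fun p hp => hp.2
  have h2 := (contDiffOn_fst.clm_apply h1).prodMk (contDiffOn_snd.sub h1)
  have hO := (isOpen_univ (X := E c.N →L[ℝ] E 5)).prod c.A.U_open
  have h0 : (C t₀, c.am f t₀) ∈ univ ×ˢ c.U := ⟨trivial, c.am_mem_U f t₀⟩
  obtain ⟨A, K, hA, hK, h3, h4, -, h5⟩ := locinj_at hO h2 h0 fun v hv => by
    have h3 := ((h2.contDiffAt (hO.mem_nhds h0)).differentiableAt (by simp)).hasFDerivAt.comp _
      (hasFDerivAt_prodMk_right (C t₀) (c.am f t₀))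
    have h4 := (c.sm_ρ h0.2).hasFDerivAt
    have h5 := DFunLike.congr_fun (h3.unique (((C t₀).hasFDerivAt.comp _ h4).prodMk
      ((hasFDerivAt_id _).sub h4))) v
    have h6 := hv.symm.trans h5
    have h7 : c.P (c.q (f t₀)) v = v := (sub_eq_zero.1 (congrArg Prod.snd h6).symm).symm
    exact h.inj h7 (h7 ▸ (congrArg Prod.fst h6).symm)
  obtain ⟨W, h6, h7⟩ := c.q_locInj (f t₀)
  have h8 := (c.continuous_ι.comp c.continuous_q).continuousAt.tendsto.eventually (hK.mem_nhds h4)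
  have hg' : Filter.Tendsto g (𝓝[S] t₀) (𝓝 (f t₀)) := he ▸ hg
  filter_upwards [hC.eventually (hA.mem_nhds h3), hf.eventually h8, hg'.eventually h8,
    hf.eventually h6, hg'.eventually h6] with t a1 a2 a3 a4 a5 e
  refine h7 a4 a5 (c.ι_inj ((h5 _ a1).1 a2 a3 ?_))
  rw [map_sub, sub_eq_zero] at e
  simp only [Function.comp_apply, c.ρ_ι, sub_self]
  exact congrArg (·, 0) e.symm

variable {O O' O₁ O₂ : Set V6} {f g f' g' : V6 → c.Y} {k k' : V6 → ℝ}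
  {C : V6 → E c.N →L[ℝ] E 5}

theorem ind_cont {T : Type} [TopologicalSpace T] {S : Set T} {f g : T → c.Y} {k : T → ℝ}
    {C : T → E c.N →L[ℝ] E 5} (hf : ContinuousOn f S) (hg : ContinuousOn g S)
    (hk : ContinuousOn k S) (hC : ContinuousOn C S) :
    ContinuousOn (fun v => j6 (C v (c.am g v - c.am f v)) (k v)) S := by
  obtain ⟨J, hJ⟩ := exists_j6
  simp only [← hJ]
  exact J.continuous.comp_continuousOn
    ((hC.clm_apply ((c.continuousOn_am hg).sub (c.continuousOn_am hf))).prodMk hk)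

theorem ind_of_eq {T : Type} {f g : T → c.Y} {k : T → ℝ} (C : T → E c.N →L[ℝ] E 5) {v : T}
    (h : f v = g v) (hk : k v = 0) : j6 (C v (c.am g v - c.am f v)) (k v) = 0 :=
  j6_eq_zero.2 ⟨by rw [am, am, h, sub_self, map_zero], hk⟩

theorem Good.ind_iff (hg : c.Good O f g k O' C) {v : V6} :
    v ∈ O' ∧ c.eq6 C f g k v = 0 ↔ v ∈ Zc O f g k :=
  ⟨fun h => ⟨hg.sub h.1, hg.zero v h.1 h.2, (j6_eq_zero.1 h.2).2⟩,
    fun h => ⟨hg.mem h, ind_of_eq C h.2.1 h.2.2⟩⟩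

theorem Good.adm (h : c.IAdm O f g k) (hg : c.Good O f g k O' C) : Adm (c.eq6 C f g k) O' := by
  refine ⟨hg.op, ind_cont (h.cf.mono hg.sub) (h.cg.mono hg.sub) (h.ck.mono hg.sub) hg.cont, ?_⟩
  simp only [hg.ind_iff]
  exact h.cpt

theorem Good.ind_mono (hg : c.Good O f g k O' C) (hO : IsOpen O₁) (hs : O₁ ⊆ O')
    (hm : Zc O f g k ⊆ O₁) : c.Good O f g k O₁ C :=
  ⟨hO, hs.trans hg.sub, hm, hg.cont.mono hs, hg.cof, fun v hv => hg.zero v (hs hv)⟩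

theorem Good.ind_deg (h : c.IAdm O f g k) (hg : c.Good O f g k O' C) (hO : IsOpen O₁)
    (hs : O₁ ⊆ O') (hm : Zc O f g k ⊆ O₁) :
    dth.deg (c.eq6 C f g k) O₁ = dth.deg (c.eq6 C f g k) O' :=
  dth.excise (hg.adm h) hO hs fun _ hv e => hm (hg.ind_iff.1 ⟨hv, e⟩)

theorem exists_good_of (h : c.IAdm O f g k) (hO : IsOpen O') (hm : Zc O f g k ⊆ O')
    (hC : ContinuousOn C O') (hc : ∀ v ∈ Zc O f g k, c.Cof (c.q (f v)) (C v)) :
    ∃ O'' ⊆ O', c.Good O f g k O'' C := by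
  refine ⟨(O' ∩ O) ∩ interior {v | C v (c.am g v - c.am f v) = 0 → f v = g v}, fun _ hv => hv.1.1,
    (hO.inter h.op).inter isOpen_interior, fun _ hv => hv.1.2, fun v hv => ⟨⟨hm hv, hv.1⟩, ?_⟩,
    hC.mono fun _ hv => hv.1.1, hc, fun v hv e => interior_subset hv.2 (j6_eq_zero.1 e).1⟩
  have h1 := noextra (S := univ) (h.cf.continuousAt (h.op.mem_nhds hv.1)).continuousWithinAt
    (h.cg.continuousAt (h.op.mem_nhds hv.1)).continuousWithinAt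
    (hC.continuousAt (hO.mem_nhds (hm hv))).continuousWithinAt hv.2.1 (hc v hv)
  rw [nhdsWithin_univ] at h1
  exact mem_interior_iff_mem_nhds.2 h1

theorem IAdm.exists_good (h : c.IAdm O f g k) : ∃ O' C, c.Good O f g k O' C := by
  obtain ⟨C, h1, h2⟩ := h.flat
  obtain ⟨D, h3, h4⟩ := exists_ext_closed h.cpt.isClosed h1
  obtain ⟨O', -, h5⟩ := exists_good_of h isOpen_univ (subset_univ _) h3.continuousOn
    fun v hv => h4 hv ▸ h2 v hv
  exact ⟨O', D, h5⟩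

theorem ind_core {Ω : Set (ℝ × V6)} (hΩ : IsOpen Ω) {F G : ℝ × V6 → c.Y} {K : ℝ × V6 → ℝ}
    (hF : ContinuousOn F (Ω ∩ Icc 0 1 ×ˢ univ)) (hG : ContinuousOn G (Ω ∩ Icc 0 1 ×ˢ univ))
    (hK : ContinuousOn K (Ω ∩ Icc 0 1 ×ˢ univ)) (hc : IsCompact (Zc (Ω ∩ Icc 0 1 ×ˢ univ) F G K))
    {D : ℝ × V6 → E c.N →L[ℝ] E 5} (hD : ContinuousOn D (Ω ∩ Icc 0 1 ×ˢ univ))
    (hf : ∀ p ∈ Zc (Ω ∩ Icc 0 1 ×ˢ univ) F G K, c.Cof (c.q (F p)) (D p)) :
    ∃ Ω' : Set (ℝ × V6), (∀ t ∈ Icc (0 : ℝ) 1, c.Good {v | (t, v) ∈ Ω} (fun v => F (t, v))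
      (fun v => G (t, v)) (fun v => K (t, v)) {v | (t, v) ∈ Ω'} fun v => D (t, v)) ∧
      dth.deg (c.eq6 (fun v => D (0, v)) (fun v => F (0, v)) (fun v => G (0, v)) fun v => K (0, v))
        {v | (0, v) ∈ Ω'} =
      dth.deg (c.eq6 (fun v => D (1, v)) (fun v => F (1, v)) (fun v => G (1, v)) fun v => K (1, v))
        {v | (1, v) ∈ Ω'} := by
  let T := interior {p | p ∈ Ω ∩ Icc 0 1 ×ˢ univ → D p (c.am G p - c.am F p) = 0 → F p = G p}
  have h1 : Zc (Ω ∩ Icc 0 1 ×ˢ univ) F G K ⊆ T := fun p hp => mem_interior_iff_mem_nhds.2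
    (eventually_nhdsWithin_iff.1 (noextra (hF p hp.1) (hG p hp.1) (hD p hp.1) hp.2.1 (hf p hp)))
  have h2 : IsOpen (Ω ∩ T) := hΩ.inter isOpen_interior
  refine ⟨Ω ∩ T, fun t ht => ⟨h2.preimage (Continuous.prodMk_right t), fun _ hv => hv.1,
    fun v hv => ⟨hv.1, h1 ⟨⟨hv.1, ht, trivial⟩, hv.2⟩⟩,
    hD.comp (Continuous.prodMk_right t).continuousOn fun _ hv => ⟨hv.1, ht, trivial⟩,
    fun v hv => hf _ ⟨⟨hv.1, ht, trivial⟩, hv.2⟩,
    fun v hv e => interior_subset hv.2 ⟨hv.1, ht, trivial⟩ (j6_eq_zero.1 e).1⟩,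
    dth.htpy (H := fun p => j6 (D p (c.am G p - c.am F p)) (K p)) h2
      ((ind_cont hF hG hK hD).mono fun _ hp => ⟨hp.1.1, hp.2⟩) ?_⟩
  refine Eq.mp (congrArg IsCompact (Subset.antisymm (fun p hp => ?_) fun p hp => ?_)) hc
  · exact ⟨⟨hp.1.1, h1 hp⟩, hp.1.2.1, ind_of_eq D hp.2.1 hp.2.2⟩
  · exact ⟨⟨hp.1.1, hp.2.1, trivial⟩, interior_subset hp.1.2 ⟨hp.1.1, hp.2.1, trivial⟩
      (j6_eq_zero.1 hp.2.2).1, (j6_eq_zero.1 hp.2.2).2⟩

theorem ind_indep {C' : V6 → E c.N →L[ℝ] E 5} (h : c.IAdm O f g k) (hg : c.Good O f g k O₁ C)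
    (hg' : c.Good O f g k O₂ C') :
    dth.deg (c.eq6 C' f g k) O₂ = dth.deg (c.eq6 C f g k) O₁ := by
  have hq := c.continuous_q.comp_continuousOn h.cf
  obtain ⟨W, hW, h1, h2, h3, h4⟩ : ∃ W, IsOpen W ∧ W ⊆ O₁ ∧ W ⊆ O₂ ∧ Zc O f g k ⊆ W ∧
      ∀ v ∈ W, c.Cof (c.q (f v)) (C v) ∧ c.Cof (c.q (f v)) (C' v) :=
    ⟨_, (((hq.mono hg.sub).prodMk hg.cont).isOpen_inter_preimage hg.op c.isOpen_cof).inter
      (((hq.mono hg'.sub).prodMk hg'.cont).isOpen_inter_preimage hg'.op c.isOpen_cof),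
      fun _ hv => hv.1.1, fun _ hv => hv.2.1,
      fun v hv => ⟨⟨hg.mem hv, hg.cof v hv⟩, hg'.mem hv, hg'.cof v hv⟩, fun _ hv => ⟨hv.1.2, hv.2.2⟩⟩
  have hs := h1.trans hg.sub
  obtain ⟨a, h5, h6⟩ := exists_frame_of_cof (hq.mono hs) (hg.cont.mono h1) fun v hv => (h4 v hv).1
  have h7 : ContinuousOn (fun v => (C' v).comp (a v)) W := (hg'.cont.mono h2).clm_comp h5
  have h8 : ∀ v ∈ W, 0 < ((C' v).comp (a v)).det := fun v hv => (h6 v hv).1.cof_iff.1 (h4 v hv).2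
  have hm : MapsTo Prod.snd (Prod.snd ⁻¹' W ∩ Icc (0 : ℝ) 1 ×ˢ (univ : Set V6)) W := fun _ hp => hp.1
  obtain ⟨Ω, h9, h10⟩ := ind_core (hW.preimage continuous_snd) (F := fun p => f p.2)
    (G := fun p => g p.2) (K := fun p => k p.2) ((h.cf.mono hs).comp continuousOn_snd hm)
    ((h.cg.mono hs).comp continuousOn_snd hm) ((h.ck.mono hs).comp continuousOn_snd hm)
    (by
      refine Eq.mp (congrArg IsCompact (Subset.antisymm (fun p hp => ?_) fun p hp => ?_))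
        ((isCompact_Icc (a := (0 : ℝ)) (b := 1)).prod h.cpt)
      exacts [⟨⟨h3 hp.2, hp.1, trivial⟩, hp.2.2⟩, ⟨hp.1.2.1, hs hp.1.1, hp.2⟩])
    (D := fun p => (1 - p.1) • C' p.2 + p.1 • ((C' p.2).comp (a p.2)).comp (C p.2))
    (((continuousOn_const.sub continuousOn_fst).smul
      ((hg'.cont.mono h2).comp continuousOn_snd hm)).add (continuousOn_fst.smul
        ((h7.clm_comp (hg.cont.mono h1)).comp continuousOn_snd hm))) fun p hp => by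
      refine (h6 _ hp.1.1).1.cof_iff.2 ((h8 _ hp.1.1).trans_eq (congrArg _ ?_))
      ext1 u
      simp [(h6 _ hp.1.1).2, sub_smul]
  have g0 := h9 0 ⟨le_rfl, zero_le_one⟩
  have g1 := h9 1 ⟨zero_le_one, le_rfl⟩
  have hZ : Zc O f g k ⊆ Zc W f g k := fun v hv => ⟨h3 hv, hv.2⟩
  obtain ⟨J, hJ⟩ := exists_j6
  have h11 := dth.mult (s := 1) (M := fun v => (J : E 5 × ℝ →L[ℝ] V6).comp
    ((((C' v).comp (a v)).prodMap (ContinuousLinearMap.id ℝ ℝ)).comp (J.symm : V6 →L[ℝ] E 5 × ℝ)))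
    ((hg.ind_mono g1.op (g1.sub.trans h1) (hZ.trans g1.mem)).adm h)
    (continuousOn_const.clm_comp (((ContinuousLinearMap.prodMapL ℝ _ _ _ _).continuous.comp_continuousOn
      ((h7.mono g1.sub).prodMk continuousOn_const)).clm_comp continuousOn_const)) fun v hv => by
      have h11 := LinearMap.det_conj (LinearMap.prodMap ((C' v).comp (a v) : E 5 →ₗ[ℝ] E 5)
        (LinearMap.id : ℝ →ₗ[ℝ] ℝ)) J.toLinearEquiv
      rw [LinearMap.det_prodMap, LinearMap.det_id, mul_one] at h11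
      rw [Units.val_one, Int.cast_one, one_mul]
      exact (h8 v (g1.sub hv)).trans_eq h11.symm
  rw [← hg'.ind_deg h g0.op (g0.sub.trans h2) (hZ.trans g0.mem),
    ← hg.ind_deg h g1.op (g1.sub.trans h1) (hZ.trans g1.mem)]
  rw [Units.val_one, one_mul] at h11
  refine (congrArg (dth.deg · _) (funext fun v => ?_)).trans (h10.trans
    ((congrArg (dth.deg · _) (funext fun v => ?_)).trans h11)) <;> simp [eq6, ← hJ]

theorem ind_eq (h : c.IAdm O f g k) (hg : c.Good O f g k O' C) :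
    c.ind O f g k = dth.deg (c.eq6 C f g k) O' := by
  have h1 : ∃ p : Set V6 × (V6 → E c.N →L[ℝ] E 5), c.Good O f g k p.1 p.2 := ⟨(O', C), hg⟩
  rw [ind, dif_pos h1]
  exact ind_indep h hg h1.choose_spec

theorem IAdm.congr (h : c.IAdm O f g k) (hf : EqOn f' f O) (hg : EqOn g' g O) (hk : EqOn k' k O) :
    c.IAdm O f' g' k' ∧ c.ind O f' g' k' = c.ind O f g k := by
  have e : Zc O f' g' k' = Zc O f g k :=
    Set.ext fun v => and_congr_right fun hv => by rw [hf hv, hg hv, hk hv]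
  have h1 : c.IAdm O f' g' k' := ⟨h.op, h.cf.congr hf, h.cg.congr hg, h.ck.congr hk, e ▸ h.cpt,
    e ▸ h.flat.congr fun v hv => by rw [hf hv.1]⟩
  obtain ⟨O', C, h2⟩ := h.exists_good
  have h3 : EqOn (c.eq6 C f' g' k') (c.eq6 C f g k) O' := fun v hv => by
    simp only [eq6, am, hf (h2.sub hv), hg (h2.sub hv), hk (h2.sub hv)]
  refine ⟨h1, ?_⟩
  rw [ind_eq h h2, ind_eq h1 ⟨h2.op, h2.sub, e ▸ h2.mem, h2.cont,
    fun v hv => hf hv.1 ▸ h2.cof v (e ▸ hv), fun v hv h4 => ?_⟩, dth.congr (h2.adm h) h3]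
  rw [hf (h2.sub hv), hg (h2.sub hv)]
  exact h2.zero v hv (h3 hv ▸ h4)

theorem IAdm.ind_sub (h : c.IAdm O f g k) (hO : IsOpen O') (hs : O' ⊆ O)
    (hc : IsCompact (Zc O' f g k)) : c.IAdm O' f g k :=
  ⟨hO, h.cf.mono hs, h.cg.mono hs, h.ck.mono hs, hc,
    h.flat.comp (φ := id) continuousOn_id fun _ hv => ⟨hs hv.1, hv.2⟩⟩

theorem IAdm.excise (h : c.IAdm O f g k) (hO : IsOpen O') (hs : O' ⊆ O) (hm : Zc O f g k ⊆ O') :
    c.IAdm O' f g k ∧ c.ind O' f g k = c.ind O f g k := by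
  have e : Zc O' f g k = Zc O f g k :=
    Subset.antisymm (fun _ hv => ⟨hs hv.1, hv.2⟩) fun _ hv => ⟨hm hv, hv.2⟩
  have h1 := h.ind_sub hO hs (e ▸ h.cpt)
  obtain ⟨O'', C, h2⟩ := h1.exists_good
  exact ⟨h1, (ind_eq h1 h2).trans
    (ind_eq h ⟨h2.op, h2.sub.trans hs, e ▸ h2.mem, h2.cont, e ▸ h2.cof, h2.zero⟩).symm⟩

theorem ind_empty (h : c.IAdm O f g k) (he : Zc O f g k = ∅) : c.ind O f g k = 0 := by
  obtain ⟨O', C, h1⟩ := h.exists_good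
  rw [ind_eq h h1]
  exact dth.empty (h1.adm h) fun v hv e => (he ▸ h1.ind_iff.1 ⟨hv, e⟩ : v ∈ (∅ : Set V6))

theorem ind_sum {ι : Type} (s : Finset ι) {W : ι → Set V6} (h : c.IAdm O f g k)
    (hW : ∀ i ∈ s, IsOpen (W i) ∧ W i ⊆ O) (hd : ∀ i ∈ s, ∀ j ∈ s, i ≠ j → Disjoint (W i) (W j))
    (hm : Zc O f g k ⊆ ⋃ i ∈ s, W i) :
    (∀ i ∈ s, c.IAdm (W i) f g k) ∧ c.ind O f g k = ∑ i ∈ s, c.ind (W i) f g k := by
  have h1 : ∀ i ∈ s, c.IAdm (W i) f g k := fun i hi => by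
    refine h.ind_sub (hW i hi).1 (hW i hi).2 (Eq.mp (congrArg IsCompact (Subset.antisymm
      (fun v hv => ?_) fun v hv => ?_)) (h.cpt.diff (isOpen_biUnion (s := {j | j ∈ s ∧ j ≠ i})
        fun j hj => (hW j hj.1).1)))
    · obtain ⟨j, hj, h1⟩ := mem_iUnion₂.1 (hm hv.1)
      obtain rfl : j = i := not_not.1 fun e => hv.2 (mem_biUnion ⟨hj, e⟩ h1)
      exact ⟨h1, hv.1.2⟩
    · refine ⟨⟨(hW i hi).2 hv.1, hv.2⟩, fun h1 => ?_⟩
      obtain ⟨j, hj, h2⟩ := mem_iUnion₂.1 h1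
      exact disjoint_left.1 (hd j hj.1 i hi hj.2) h2 hv.1
  obtain ⟨O', C, h2⟩ := h.exists_good
  have h3 : ∀ i ∈ s, c.Good (W i) f g k (O' ∩ W i) C := fun i hi =>
    ⟨h2.op.inter (hW i hi).1, inter_subset_right,
      fun v hv => ⟨h2.mem ⟨(hW i hi).2 hv.1, hv.2⟩, hv.1⟩, h2.cont.mono inter_subset_left,
      fun v hv => h2.cof v ⟨(hW i hi).2 hv.1, hv.2⟩, fun v hv => h2.zero v hv.1⟩
  obtain ⟨h4, h5⟩ := ind_deg_sum s (fun i hi => (h3 i hi).adm (h1 i hi)) fun i hi j hj e =>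
    (hd i hi j hj e).mono inter_subset_right inter_subset_right
  refine ⟨h1, ?_⟩
  rw [ind_eq h h2, ← h2.ind_deg h h4.1 (iUnion₂_subset fun _ _ => inter_subset_left) fun v hv => ?_,
    h5, Finset.sum_congr rfl fun i hi => ind_eq (h1 i hi) (h3 i hi)]
  obtain ⟨i, hi, h6⟩ := mem_iUnion₂.1 (hm hv)
  exact mem_iUnion₂.2 ⟨i, hi, h2.mem hv, h6⟩

theorem ind_htpy {Ω : Set (ℝ × V6)} (hΩ : IsOpen Ω) {F G : ℝ × V6 → c.Y} {K : ℝ × V6 → ℝ}
    (hF : ContinuousOn F (Ω ∩ Icc 0 1 ×ˢ univ)) (hG : ContinuousOn G (Ω ∩ Icc 0 1 ×ˢ univ))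
    (hK : ContinuousOn K (Ω ∩ Icc 0 1 ×ˢ univ)) (hc : IsCompact (Zc (Ω ∩ Icc 0 1 ×ˢ univ) F G K))
    (hf : c.Flat F (Zc (Ω ∩ Icc 0 1 ×ˢ univ) F G K)) :
    (∀ t ∈ Icc (0 : ℝ) 1,
      c.IAdm {v | (t, v) ∈ Ω} (fun v => F (t, v)) (fun v => G (t, v)) fun v => K (t, v)) ∧
    c.ind {v | (0, v) ∈ Ω} (fun v => F (0, v)) (fun v => G (0, v)) (fun v => K (0, v)) =
      c.ind {v | (1, v) ∈ Ω} (fun v => F (1, v)) (fun v => G (1, v)) fun v => K (1, v) := by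
  have h1 : ∀ t ∈ Icc (0 : ℝ) 1, c.IAdm {v | (t, v) ∈ Ω} (fun v => F (t, v)) (fun v => G (t, v))
      fun v => K (t, v) := fun t ht => by
    have h1 := Continuous.prodMk_right (Y := V6) t
    have h2 : MapsTo (Prod.mk t) {v | (t, v) ∈ Ω} (Ω ∩ Icc 0 1 ×ˢ univ) :=
      fun _ hv => ⟨hv, ht, trivial⟩
    refine ⟨hΩ.preimage h1, hF.comp h1.continuousOn h2, hG.comp h1.continuousOn h2,
      hK.comp h1.continuousOn h2, Eq.mp (congrArg IsCompact (Subset.antisymm ?_ fun v hv => ?_))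
        ((hc.inter_right (isClosed_eq continuous_fst (continuous_const (y := t)))).image
          continuous_snd), hf.comp h1.continuousOn fun v hv => ⟨h2 hv.1, hv.2⟩⟩
    · rintro _ ⟨⟨s, v⟩, ⟨h3, rfl⟩, rfl⟩
      exact ⟨h3.1.1, h3.2⟩
    · exact ⟨(t, v), ⟨⟨h2 hv.1, hv.2⟩, rfl⟩, rfl⟩
  obtain ⟨C, h2, h3⟩ := hf
  obtain ⟨D, h4, h5⟩ := exists_ext_closed hc.isClosed h2
  obtain ⟨Ω', h6, h7⟩ := ind_core hΩ hF hG hK hc h4.continuousOn fun p hp => h5 hp ▸ h3 p hp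
  refine ⟨h1, ?_⟩
  rw [ind_eq (h1 0 ⟨le_rfl, zero_le_one⟩) (h6 0 ⟨le_rfl, zero_le_one⟩),
    ind_eq (h1 1 ⟨zero_le_one, le_rfl⟩) (h6 1 ⟨zero_le_one, le_rfl⟩), h7]

end Ctx

end Pool.Agent.CSP
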