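import Pool.Agent.Lib.MP_436e1a_gt.E.DegEx
import Pool.Agent.Lib.MP_436e1a_gt.Lnk

/-! Coincidence indices, intersection numbers and linking numbers (definitions only). -/

open Set MeasureTheory Metric

namespace Pool.Agent.CSP

noncomputable section

/-- the six dimensional parameter space -/
abbrev V6 : Type := E 3 × E 3

/-- the identification of `E 5 × ℝ` with `V6` -/
def j6 (u : E 5) (s : ℝ) : V6 := (pr3 u, !₂[u 3, u 4, s])

instance haarV6 : (volume : Measure V6).IsAddHaarMeasure := Measure.prod.instIsAddHaarMeasure _ _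

/-- the degree on `V6` -/
def dth : DegTh V6 volume := Classical.choice (exists_degTh V6 volume)

/-- the coincidence set of `f` and `g` on the hypersurface `k = 0` -/
def Zc {V Y : Type} (O : Set V) (f g : V → Y) (k : V → ℝ) : Set V :=
  {v | v ∈ O ∧ f v = g v ∧ k v = 0}

/-- the domain for a ball and a sphere -/
def O6 : Set V6 := ball 0 1 ×ˢ {0}ᶜ

namespace Ctx

variable (c : Ctx)

/-- the coincidence equation read through the coframe `C` -/
def eq6 (C : V6 → E c.N →L[ℝ] E 5) (f g : V6 → c.Y) (k : V6 → ℝ) (v : V6) : V6 :=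
  j6 (C v (c.am g v - c.am f v)) (k v)

/-- admissible data: compact coincidence set along which the tangent bundle is trivial -/
structure IAdm (O : Set V6) (f g : V6 → c.Y) (k : V6 → ℝ) : Prop where
  op : IsOpen O
  cf : ContinuousOn f O
  cg : ContinuousOn g O
  ck : ContinuousOn k O
  cpt : IsCompact (Zc O f g k)
  flat : c.Flat f (Zc O f g k)

/-- `O'` is a neighbourhood of the coincidence set on which the coframe `C` sees no other zeros -/
structure Good (O : Set V6) (f g : V6 → c.Y) (k : V6 → ℝ) (O' : Set V6)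
    (C : V6 → E c.N →L[ℝ] E 5) : Prop where
  op : IsOpen O'
  sub : O' ⊆ O
  mem : Zc O f g k ⊆ O'
  cont : ContinuousOn C O'
  cof : ∀ v ∈ Zc O f g k, c.Cof (c.q (f v)) (C v)
  zero : ∀ v ∈ O', c.eq6 C f g k v = 0 → f v = g v

open scoped Classical in
/-- the coincidence index -/
def ind (O : Set V6) (f g : V6 → c.Y) (k : V6 → ℝ) : ℤ :=
  if h : ∃ p : Set V6 × (V6 → E c.N →L[ℝ] E 5), c.Good O f g k p.1 p.2 then
    dth.deg (c.eq6 h.choose.2 f g k) h.choose.1 else 0

/-- the intersection number of a ball `D` and a sphere `b` -/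
def inter (D b : E 3 → c.Y) : ℤ :=
  c.ind O6 (fun v => D v.1) (fun v => b (nrm v.2)) fun v => ‖v.2‖ - 1

open scoped Classical in
/-- the integral linking number of disjoint torsion spheres -/
def lk (a b : E 3 → c.Y) : ℤ := if h : Tors a then c.inter h.2.choose b else 0

open scoped Classical in
/-- the linking form on homotopy classes -/
def lam (a b : E 3 → c.Y) : ZMod 3 :=
  if h : ∃ p : (E 3 → c.Y) × (E 3 → c.Y), HtpOn S2 a p.1 ∧ HtpOn S2 b p.2 ∧ Dj p.1 p.2 then
    (c.lk h.choose.1 h.choose.2 : ZMod 3) else 0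

/-- a hyperbolic pair of torsion spheres -/
structure Hyp (e : Bool → E 3 → c.Y) : Prop where
  tors : ∀ s, Tors (e s)
  zero : ∀ s t (g : c.G), g ≠ 1 → c.lam (e s) (fun y => g • e t y) = 0
  one : c.lam (e false) (e true) = 1

end Ctx

/-- `A` lifts the orientation preserving embedding `φ` of the open set `W` and is injective -/
structure LocMap (c' c : Ctx) (A : c'.Y → c.Y) (φ : c'.M → c.M) (W : Set c'.M) : Prop where
  op : IsOpen W
  emb : Emb 1 φ W
  inj : InjOn A (c'.q ⁻¹' W)
  comm : ∀ y, c'.q y ∈ W → c.q (A y) = φ (c'.q y)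

end

end Pool.Agent.CSP
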