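import Pool.Agent.Lib.MP_436e1a_gt.E.Ind

/-! Symmetry, change of domain, naturality and the local sign of the coincidence index. -/

open scoped Topology ContDiff
open Set MeasureTheory Metric

namespace Pool.Agent.CSP

theorem inat_neg : ∃ M : V6 →L[ℝ] V6, M.det = -1 ∧ ∀ u s, M (j6 u s) = j6 (-u) s := by
  obtain ⟨J, hJ⟩ := exists_j6
  let L : (E 5 × ℝ) →ₗ[ℝ] (E 5 × ℝ) := ((-1 : ℝ) • LinearMap.id).prodMap LinearMap.id
  refine ⟨LinearMap.toContinuousLinearMap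
    (J.toLinearEquiv.toLinearMap ∘ₗ L ∘ₗ J.toLinearEquiv.symm.toLinearMap), ?_, fun u s => ?_⟩
  · rw [LinearMap.det_toContinuousLinearMap, LinearMap.det_conj, LinearMap.det_prodMap,
      LinearMap.det_smul, LinearMap.det_id, LinearMap.det_id, finrank_euclideanSpace_fin]
    norm_num
  · rw [← hJ, ← hJ]
    simp [L]

theorem inat_slice {B V W : Type} [NormedAddCommGroup B] [NormedSpace ℝ B] [NormedAddCommGroup V]
    [NormedSpace ℝ V] [NormedAddCommGroup W] [NormedSpace ℝ W] {Ψ : B × V → W} {t : B} {z : V}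
    (hΨ : DifferentiableAt ℝ Ψ (t, z)) {L : V →L[ℝ] W} (hL : HasFDerivAt (fun y => Ψ (t, y)) L z)
    (v : V) : fderiv ℝ Ψ (t, z) (0, v) = L v := by
  rw [← (hΨ.hasFDerivAt.comp z (hasFDerivAt_prodMk_right t z)).unique hL]
  simp

namespace Ctx

variable {c : Ctx} {O O' : Set V6} {f g : V6 → c.Y} {k : V6 → ℝ}

theorem inat_zero {C : V6 → E c.N →L[ℝ] E 5} {v : V6} (h : v ∈ Zc O f g k) :
    c.eq6 C f g k v = 0 := by
  refine j6_eq_zero.2 ⟨?_, h.2.2⟩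
  rw [am, am, h.2.1, sub_self, map_zero]

theorem inat_mem {C : V6 → E c.N →L[ℝ] E 5} (h : c.Good O f g k O' C) {v : V6} (hv : v ∈ O')
    (h0 : c.eq6 C f g k v = 0) : v ∈ Zc O f g k :=
  ⟨h.sub hv, h.zero v hv h0, (j6_eq_zero.1 h0).2⟩

/-- `dth.mult` with the linear map `-1 ⊕ 1` of determinant `-1` -/
theorem ind_swap (h : c.IAdm O f g k) : c.IAdm O g f k ∧ c.ind O g f k = - c.ind O f g k := by
  have hZ : Zc O g f k = Zc O f g k := Set.ext fun v => and_congr_right fun _ =>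
    and_congr_left fun _ => eq_comm
  have h' : c.IAdm O g f k := ⟨h.op, h.cg, h.cf, h.ck, hZ ▸ h.cpt,
    hZ ▸ h.flat.congr fun v hv => by rw [hv.2.1]⟩
  obtain ⟨O₁, C, hg⟩ := h.exists_good
  obtain ⟨M, hM, hM'⟩ := inat_neg
  have e : c.eq6 C g f k = fun v => M (c.eq6 C f g k v) := funext fun v => by
    rw [eq6, eq6, hM', ← map_neg, neg_sub]
  have hg' : c.Good O g f k O₁ C := ⟨hg.op, hg.sub, hZ ▸ hg.mem, hg.cont,
    fun v hv => hv.2.1 ▸ hg.cof v (hZ ▸ hv), fun v hv h0 => (hg.zero v hv (by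
      obtain ⟨h1, h2⟩ := j6_eq_zero.1 h0
      exact j6_eq_zero.2 ⟨by rw [← neg_sub, map_neg, h1, neg_zero], h2⟩)).symm⟩
  refine ⟨h', ?_⟩
  rw [ind_eq h' hg', ind_eq h hg, e, dth.mult (M := fun _ => M) (s := -1) (hg.adm h)
    continuousOn_const fun _ _ => by rw [hM]; simp]
  simp

/-- Change of domain by an `n`-fold branched covering. Sketch. Take a good pair `(O₁, C)`; then
`(O' ∩ Φ ⁻¹' O₁, C ∘ Φ)` is good for the compositions; `dth.cover` with the pieces `Ω j ∩ Φ ⁻¹' O₁`. -/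
theorem ind_cover (h : c.IAdm O f g k) (hO : IsOpen O') {Φ : V6 → V6} {s : ℤˣ} {n : ℕ}
    {Ω : Fin n → Set V6} (hΦ : ContDiffOn ℝ ∞ Φ O') (hm : MapsTo Φ O' O)
    (hp : ∀ K ⊆ O, IsCompact K → IsCompact (O' ∩ Φ ⁻¹' K))
    (hΩ : ∀ j, IsOpen (Ω j) ∧ Ω j ⊆ O' ∧ InjOn Φ (Ω j) ∧
      (∀ v ∈ Ω j, 0 < ((s : ℤ) : ℝ) * (fderiv ℝ Φ v).det) ∧ volume (O \ Φ '' Ω j) = 0)
    (hd : Pairwise fun j l => Disjoint (Ω j) (Ω l)) (hn : volume (O' \ ⋃ j, Ω j) = 0) :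
    c.IAdm O' (fun v => f (Φ v)) (fun v => g (Φ v)) (fun v => k (Φ v)) ∧
      c.ind O' (fun v => f (Φ v)) (fun v => g (Φ v)) (fun v => k (Φ v)) =
        s * n * c.ind O f g k := by
  have hc := hΦ.continuousOn
  have hZ : Zc O' (fun v => f (Φ v)) (fun v => g (Φ v)) (fun v => k (Φ v)) =
      O' ∩ Φ ⁻¹' Zc O f g k :=
    Set.ext fun v => ⟨fun hv => ⟨hv.1, hm hv.1, hv.2⟩, fun hv => ⟨hv.1, hv.2.2⟩⟩
  have h' : c.IAdm O' (fun v => f (Φ v)) (fun v => g (Φ v)) (fun v => k (Φ v)) :=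
    ⟨hO, h.cf.comp hc hm, h.cg.comp hc hm, h.ck.comp hc hm,
      hZ ▸ hp _ (fun _ hv => hv.1) h.cpt,
      hZ ▸ h.flat.comp (hc.mono inter_subset_left) fun _ hv => hv.2⟩
  obtain ⟨O₁, C, hg⟩ := h.exists_good
  have ho : IsOpen (O' ∩ Φ ⁻¹' O₁) := hc.isOpen_inter_preimage hO hg.op
  have hg' : c.Good O' (fun v => f (Φ v)) (fun v => g (Φ v)) (fun v => k (Φ v)) (O' ∩ Φ ⁻¹' O₁)
      fun v => C (Φ v) :=
    ⟨ho, inter_subset_left, hZ ▸ inter_subset_inter_right _ (preimage_mono hg.mem),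
      hg.cont.comp (hc.mono inter_subset_left) fun _ hv => hv.2,
      fun v hv => hg.cof _ (hZ ▸ hv).2, fun v hv h0 => hg.zero _ hv.2 h0⟩
  refine ⟨h', ?_⟩
  rw [ind_eq h' hg', ind_eq h hg]
  refine dth.cover (Ω := fun j => Ω j ∩ Φ ⁻¹' O₁) (hg.adm h) ho (hΦ.mono inter_subset_left)
    (fun _ hv => hv.2) (fun K hK hK' => ?_) (fun j => ?_)
    (fun j l hjl => (hd hjl).mono inter_subset_left inter_subset_left) (measure_mono_null ?_ hn)
  · rw [inter_assoc, inter_eq_right.2 (preimage_mono hK)]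
    exact hp K (hK.trans hg.sub) hK'
  · obtain ⟨h1, h2, h3, h4, h5⟩ := hΩ j
    refine ⟨(hc.mono h2).isOpen_inter_preimage h1 hg.op, inter_subset_inter_left _ h2,
      h3.mono inter_subset_left, fun v hv => h4 v hv.1, measure_mono_null ?_ h5⟩
    rintro y ⟨h6, h7⟩
    exact ⟨hg.sub h6, fun ⟨v, h8, h9⟩ => h7 ⟨v, ⟨h8, by rwa [mem_preimage, h9]⟩, h9⟩⟩
  · rintro v ⟨h1, h2⟩
    refine ⟨h1.1, fun h3 => h2 ?_⟩
    obtain ⟨j, hj⟩ := mem_iUnion.1 h3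
    exact mem_iUnion.2 ⟨j, hj, h1.2⟩

/-- change of domain by a diffeomorphism `Φ : O' → O` with continuous inverse `Ψ` -/
theorem ind_diffeo (h : c.IAdm O f g k) (hO : IsOpen O') {Φ Ψ : V6 → V6} {s : ℤˣ}
    (hΦ : ContDiffOn ℝ ∞ Φ O') (hΨ : ContinuousOn Ψ O) (hm : MapsTo Φ O' O) (hm' : MapsTo Ψ O O')
    (h1 : ∀ v ∈ O', Ψ (Φ v) = v) (h2 : ∀ v ∈ O, Φ (Ψ v) = v)
    (hs : ∀ v ∈ O', 0 < ((s : ℤ) : ℝ) * (fderiv ℝ Φ v).det) :
    c.IAdm O' (fun v => f (Φ v)) (fun v => g (Φ v)) (fun v => k (Φ v)) ∧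
      c.ind O' (fun v => f (Φ v)) (fun v => g (Φ v)) (fun v => k (Φ v)) = s * c.ind O f g k := by
  have := ind_cover (n := 1) (Ω := fun _ => O') (s := s) h hO hΦ hm (fun K hK hK' => ?_)
    (fun _ => ⟨hO, subset_rfl, fun v hv w hw e => by rw [← h1 v hv, e, h1 w hw], hs, ?_⟩)
    (fun j l hjl => absurd (Subsingleton.elim j l) hjl) (by rw [iUnion_const, sdiff_self]; simp)
  · simpa using this
  · have e : O' ∩ Φ ⁻¹' K = Ψ '' K := by
      ext v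
      constructor
      · rintro ⟨h3, h4⟩
        exact ⟨Φ v, h4, h1 v h3⟩
      · rintro ⟨y, hy, rfl⟩
        exact ⟨hm' (hK hy), by rwa [mem_preimage, h2 y (hK hy)]⟩
    rw [e]
    exact hK'.image_of_continuousOn (hΨ.mono hK)
  · have e : O ⊆ Φ '' O' := fun y hy => ⟨Ψ y, hm' hy, h2 y hy⟩
    rw [sdiff_eq_empty.2 e]
    simp

/-- The local sign. `C` is a constant coframe at the unique coincidence (`exists_good_of`), `L` is the
derivative of the equation there; `dth.sign`. -/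
theorem ind_single (h : c.IAdm O f g k) {v₀ : V6} (hZ : Zc O f g k = {v₀})
    {C : E c.N →L[ℝ] E 5} (hC : c.Cof (c.q (f v₀)) C) {L : V6 →L[ℝ] V6} {s : ℤˣ}
    (hL : HasFDerivAt (c.eq6 (fun _ => C) f g k) L v₀) (hs : 0 < ((s : ℤ) : ℝ) * L.det) :
    c.ind O f g k = s := by
  have h0 : v₀ ∈ Zc O f g k := hZ ▸ mem_singleton v₀
  obtain ⟨O₁, -, hg⟩ := exists_good_of (C := fun _ => C) h isOpen_univ (subset_univ _)
    continuousOn_const fun v hv => by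
      rw [hZ, mem_singleton_iff] at hv
      rwa [hv]
  rw [ind_eq h hg]
  refine dth.sign (hg.adm h) (hg.mem h0) (fun v hv => ⟨fun h1 => ?_, fun h1 => ?_⟩) hL hs
  · exact mem_singleton_iff.1 (hZ ▸ inat_mem hg hv h1)
  · rw [h1]
    exact inat_zero h0

end Ctx

section
variable {c' c : Ctx} {φ : c'.M → c.M} {W : Set c'.M}

/-- the ambient version of a map of manifolds -/
def inat_amb (c' c : Ctx) (φ : c'.M → c.M) (z : E c'.N) : E c.N := c.ι (φ (c'.r z))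

theorem inat_open (hW : IsOpen W) : IsOpen (c'.U ∩ c'.r ⁻¹' W) :=
  c'.continuousOn_r.isOpen_inter_preimage c'.A.U_open hW

theorem inat_sm (h : Emb 1 φ W) : ContDiffOn ℝ ∞ (inat_amb c' c φ) (c'.U ∩ c'.r ⁻¹' W) :=
  (c.A.ι_smooth.comp_contMDiffOn
    (h.1.comp (c'.A.r_smooth.mono inter_subset_left) fun _ hz => hz.2)).contDiffOn

theorem inat_ι (x : c'.M) : inat_amb c' c φ (c'.ι x) = c.ι (φ x) :=
  congrArg (fun y => c.ι (φ y)) (c'.A.r_ι x)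

theorem inat_memU {x : c'.M} (hx : x ∈ W) : c'.ι x ∈ c'.U ∩ c'.r ⁻¹' W :=
  ⟨c'.A.mem_U x, show c'.A.r (c'.A.ι x) ∈ W by rwa [c'.A.r_ι]⟩

theorem inat_diff (hW : IsOpen W) (h : Emb 1 φ W) {x : c'.M} (hx : x ∈ W) :
    DifferentiableAt ℝ (inat_amb c' c φ) (c'.ι x) :=
  ((inat_sm h).contDiffAt ((inat_open hW).mem_nhds (inat_memU hx))).differentiableAt (by simp)

theorem inat_cof (hW : IsOpen W) (h : Emb 1 φ W) {x : c'.M} (hx : x ∈ W)
    {C : E c.N →L[ℝ] E 5} (hC : c.Cof (φ x) C) :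
    c'.Cof x (C.comp (fderiv ℝ (inat_amb c' c φ) (c'.ι x))) := by
  have h1 := mfderiv_comp x (inat_diff hW h hx).mdifferentiableAt (c'.sm_ι x)
  have h2 := mfderiv_comp x (c.sm_ι (φ x))
    ((h.1.contMDiffAt (hW.mem_nhds hx)).mdifferentiableAt (by simp))
  rw [mfderiv_eq_fderiv, show inat_amb c' c φ ∘ c'.ι = c.ι ∘ φ from funext inat_ι] at h1
  have h3 : (fderiv ℝ (inat_amb c' c φ) (c'.ι x)).comp (c'.dι x) = (c.dι (φ x)).comp
      (show E 5 →L[ℝ] E 5 from mfderiv (modelWithCornersSelf ℝ (E 5))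
        (modelWithCornersSelf ℝ (E 5)) φ x) := h1.symm.trans h2
  rw [Ctx.Cof, ContinuousLinearMap.comp_assoc, h3, ← ContinuousLinearMap.comp_assoc, sgn_det_comp]
  exact mul_pos hC ((h.2.2 x hx).trans_eq (one_mul _))

/-- uniform local injectivity of the interpolated equations along the manifold -/
theorem inat_loc (hW : IsOpen W) (h : Emb 1 φ W) {x : c'.M} (hx : x ∈ W)
    {C : E c.N →L[ℝ] E 5} (hC : c.Cof (φ x) C) (t : ℝ) :
    ∃ A' ∈ 𝓝 (t, C, C.comp (fderiv ℝ (inat_amb c' c φ) (c'.ι x))), ∃ K' ∈ 𝓝 (c'.ι x),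
      ∀ b ∈ A', ∀ y z, c'.ι y ∈ K' → c'.ι z ∈ K' →
        (1 - b.1) • b.2.1 (c.ι (φ z) - c.ι (φ y)) + b.1 • b.2.2 (c'.ι z - c'.ι y) = 0 → y = z := by
  let G : (ℝ × (E c.N →L[ℝ] E 5) × (E c'.N →L[ℝ] E 5)) × E c'.N → E 5 × E c'.N := fun p =>
    ((1 - p.1.1) • p.1.2.1 (inat_amb c' c φ p.2) + p.1.1 • p.1.2.2 p.2, p.2 - c'.ρ p.2)
  have hO := (isOpen_univ (X := ℝ × (E c.N →L[ℝ] E 5) × (E c'.N →L[ℝ] E 5))).prod (inat_open hW)
  have hG : ContDiffOn ℝ ∞ G (univ ×ˢ (c'.U ∩ c'.r ⁻¹' W)) := by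
    refine ContDiffOn.prodMk (ContDiffOn.add (ContDiffOn.smul
      (contDiffOn_const.sub contDiffOn_fst.fst) (contDiffOn_fst.snd.fst.clm_apply ?_))
      (contDiffOn_fst.fst.smul (contDiffOn_fst.snd.snd.clm_apply contDiffOn_snd)))
      (contDiffOn_snd.sub ?_)
    · exact (inat_sm h).comp contDiffOn_snd fun _ hp => hp.2
    · exact c'.contDiffOn_ρ.comp contDiffOn_snd fun _ hp => hp.2.1
  have h0 : ((t, C, C.comp (fderiv ℝ (inat_amb c' c φ) (c'.ι x))), c'.ι x) ∈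
      univ ×ˢ (c'.U ∩ c'.r ⁻¹' W) := ⟨trivial, inat_memU hx⟩
  obtain ⟨A', K', h1, h2, h3, h4, -, h5⟩ := locinj_at hO hG h0 fun v hv => by
    have h6 := (((C.hasFDerivAt.comp _ (inat_diff hW h hx).hasFDerivAt).const_smul (1 - t)).add
      ((C.comp (fderiv ℝ (inat_amb c' c φ) (c'.ι x))).hasFDerivAt.const_smul t)).prodMk
      ((hasFDerivAt_id (c'.ι x)).sub (c'.sm_ρ (c'.A.mem_U x)).hasFDerivAt)
    rw [inat_slice ((hG.contDiffAt (hO.mem_nhds h0)).differentiableAt (by simp)) h6] at hv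
    obtain ⟨h7, h8⟩ := Prod.mk_eq_zero.1 hv
    refine (inat_cof hW h hx hC).inj (sub_eq_zero.1 h8).symm ?_
    rw [← add_smul, sub_add_cancel, one_smul] at h7
    exact h7
  refine ⟨A', h1.mem_nhds h3, K', h2.mem_nhds h4, fun b hb y z hy hz e =>
    c'.ι_inj ((h5 b hb).1 hy hz (Prod.ext ?_ ?_))⟩
  · show (1 - b.1) • b.2.1 (inat_amb c' c φ (c'.ι y)) + b.1 • b.2.2 (c'.ι y) =
      (1 - b.1) • b.2.1 (inat_amb c' c φ (c'.ι z)) + b.1 • b.2.2 (c'.ι z)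
    rw [map_sub, map_sub, smul_sub, smul_sub, sub_add_sub_comm, sub_eq_zero] at e
    rw [inat_ι, inat_ι, e]
  · show c'.ι y - c'.ρ (c'.ι y) = c'.ι z - c'.ρ (c'.ι z)
    rw [c'.ρ_ι, c'.ρ_ι, sub_self, sub_self]

end

/-- Naturality under local diffeomorphisms. Sketch. Let `φ̄ = c.ι ∘ φ ∘ c'.r`, smooth near
`c'.ι '' W`, and let `C`, `C'` be coframes near the common coincidence set `Z`. Put
`C₁ v = C v ∘ Dφ̄ (am f' v)`, a coframe for `c'` (as `jac φ > 0`); by `ind_eq` the index in `c'` may be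
computed with `C₁`. The equations are `C (φ̄ z₂ - φ̄ z₁)` and `C (Dφ̄ z₁ (z₂ - z₁))`, `z₁ = am f' v`,
`z₂ = am g' v`. Join them by `(1 - t) • first + t • second`; no new zeros near `Z`: apply `locinj_at`
to `((t, C, L), u) ↦ (1 - t) • C (φ̄ (h u)) + t • C (L (h u))`, `h = c'.ι ∘ e.symm` in a chart, at
`L = Dφ̄ (h u₀)`, as in `noextra`. -/
theorem ind_nat {c' c : Ctx} {A : c'.Y → c.Y} {φ : c'.M → c.M} {W : Set c'.M}
    (hA : LocMap c' c A φ W) {O : Set V6} {f' g' : V6 → c'.Y} {f g : V6 → c.Y} {k : V6 → ℝ}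
    (h' : c'.IAdm O f' g' k) (h : c.IAdm O f g k)
    (hf : ∀ v ∈ O, c'.q (f' v) ∈ W ∧ f v = A (f' v))
    (hg : ∀ v ∈ O, c'.q (g' v) ∈ W ∧ g v = A (g' v)) : c.ind O f g k = c'.ind O f' g' k := by
  have hZ : Zc O f' g' k = Zc O f g k := Set.ext fun v => and_congr_right fun hv =>
    and_congr_left fun _ => by
      rw [(hf v hv).2, (hg v hv).2]
      exact (hA.inj.eq_iff (hf v hv).1 (hg v hv).1).symm
  have qf : ∀ v ∈ O, c.q (f v) = φ (c'.q (f' v)) := fun v hv => by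
    rw [(hf v hv).2, hA.comm _ (hf v hv).1]
  have qg : ∀ v ∈ O, c.q (g v) = φ (c'.q (g' v)) := fun v hv => by
    rw [(hg v hv).2, hA.comm _ (hg v hv).1]
  obtain ⟨O₁, C, hG⟩ := h.exists_good
  let C₁ : V6 → E c'.N →L[ℝ] E 5 := fun v =>
    (C v).comp (fderiv ℝ (inat_amb c' c φ) (c'.am f' v))
  have hC₁ : ContinuousOn C₁ O₁ := hG.cont.clm_comp
    (((inat_sm hA.emb).continuousOn_fderiv_of_isOpen (inat_open hA.op) (by simp)).comp
      ((c'.continuousOn_am h'.cf).mono hG.sub) fun v hv => inat_memU (hf v (hG.sub hv)).1)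
  have hc : ∀ v ∈ Zc O f' g' k, c.Cof (φ (c'.q (f' v))) (C v) := fun v hv =>
    qf v hv.1 ▸ hG.cof v (hZ ▸ hv)
  obtain ⟨O₂, h21, hG'⟩ := Ctx.exists_good_of h' hG.op (hZ ▸ hG.mem) hC₁ fun v hv =>
    inat_cof hA.op hA.emb (hf v hv.1).1 (hc v hv)
  let H : ℝ × V6 → V6 := fun p => j6 ((1 - p.1) • C p.2 (c.am g p.2 - c.am f p.2) +
    p.1 • C₁ p.2 (c'.am g' p.2 - c'.am f' p.2)) (k p.2)
  let Ω : Set (ℝ × V6) := interior {p | p.2 ∈ O₂ ∧ (H p = 0 → p.2 ∈ Zc O f' g' k)}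
  have hΩ : ∀ t, ∀ v ∈ Zc O f' g' k, (t, v) ∈ Ω := by
    intro t v hv
    obtain ⟨A', h1, K', h2, h3⟩ := inat_loc hA.op hA.emb (hf v hv.1).1 (hc v hv) t
    have n1 : O₁ ∈ 𝓝 v := hG.op.mem_nhds (h21 (hG'.mem hv))
    have n2 : O ∈ 𝓝 v := h.op.mem_nhds hv.1
    have s2 : ContinuousAt (Prod.snd : ℝ × V6 → V6) (t, v) := continuousAt_snd
    have e1 : ∀ᶠ p : ℝ × V6 in 𝓝 (t, v), (p.1, C p.2, C₁ p.2) ∈ A' :=
      (continuousAt_fst.prodMk ((ContinuousAt.comp (f := Prod.snd) (hG.cont.continuousAt n1)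
        s2).prodMk (ContinuousAt.comp (f := Prod.snd) (hC₁.continuousAt n1) s2))).eventually h1
    have e2 : ∀ᶠ p : ℝ × V6 in 𝓝 (t, v), c'.am f' p.2 ∈ K' :=
      (ContinuousAt.comp (f := Prod.snd) ((c'.continuousOn_am h'.cf).continuousAt n2)
        s2).eventually h2
    have e3 : ∀ᶠ p : ℝ × V6 in 𝓝 (t, v), c'.am g' p.2 ∈ K' :=
      (ContinuousAt.comp (f := Prod.snd) ((c'.continuousOn_am h'.cg).continuousAt n2)
        s2).eventually (by rw [hv.2.1] at h2; exact h2)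
    have e4 : ∀ᶠ p : ℝ × V6 in 𝓝 (t, v), p.2 ∈ O₂ := s2.eventually (hG'.op.mem_nhds (hG'.mem hv))
    refine mem_interior_iff_mem_nhds.2 ?_
    filter_upwards [e1, e2, e3, e4] with p p1 p2 p3 p4
    refine ⟨p4, fun h0 => ?_⟩
    obtain ⟨h4, h5⟩ := j6_eq_zero.1 h0
    rw [Ctx.am, Ctx.am, qf _ (hG'.sub p4), qg _ (hG'.sub p4)] at h4
    refine Ctx.inat_mem hG' p4 (j6_eq_zero.2 ⟨?_, h5⟩)
    rw [Ctx.am, Ctx.am, h3 _ p1 _ _ p2 p3 h4, sub_self, map_zero]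
  have hs : ∀ p ∈ Ω, p.2 ∈ O₂ := fun p hp => (interior_subset hp).1
  have ho : ∀ t : ℝ, IsOpen {v | (t, v) ∈ Ω} := fun t =>
    isOpen_interior.preimage (Continuous.prodMk_right t)
  have hH : ContinuousOn H (Ω ∩ Icc 0 1 ×ˢ univ) := by
    obtain ⟨J, hJ⟩ := exists_j6
    have m1 : MapsTo Prod.snd (Ω ∩ Icc (0 : ℝ) 1 ×ˢ univ) O₁ := fun p hp => h21 (hs p hp.1)
    have m2 : MapsTo Prod.snd (Ω ∩ Icc (0 : ℝ) 1 ×ˢ univ) O := fun p hp => hG.sub (m1 hp)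
    simp only [H, ← hJ]
    refine J.continuous.comp_continuousOn (ContinuousOn.prodMk (ContinuousOn.add ?_ ?_)
      (h.ck.comp continuousOn_snd m2))
    · exact (continuousOn_const.sub continuousOn_fst).smul
        ((hG.cont.comp continuousOn_snd m1).clm_apply
          (((c.continuousOn_am h.cg).sub (c.continuousOn_am h.cf)).comp continuousOn_snd m2))
    · exact continuousOn_fst.smul ((hC₁.comp continuousOn_snd m1).clm_apply
        (((c'.continuousOn_am h'.cg).sub (c'.continuousOn_am h'.cf)).comp continuousOn_snd m2))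
  have hK : {p | p ∈ Ω ∧ p.1 ∈ Icc (0 : ℝ) 1 ∧ H p = 0} = Icc 0 1 ×ˢ Zc O f' g' k := by
    ext p
    refine ⟨fun hp => ⟨hp.2.1, (interior_subset hp.1).2 hp.2.2⟩, fun hp =>
      ⟨hΩ p.1 p.2 hp.2, hp.1, j6_eq_zero.2 ⟨?_, hp.2.2.2⟩⟩⟩
    rw [(j6_eq_zero.1 (Ctx.inat_zero (C := C) (hZ ▸ hp.2))).1,
      (j6_eq_zero.1 (Ctx.inat_zero (C := C₁) hp.2)).1, smul_zero, smul_zero, add_zero]
  have h1 := dth.htpy isOpen_interior hH (hK ▸ isCompact_Icc.prod h'.cpt)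
  have e0 : (fun v => H (0, v)) = c.eq6 C f g k := funext fun v => by simp [H, Ctx.eq6]
  have e1 : (fun v => H (1, v)) = c'.eq6 C₁ f' g' k := funext fun v => by simp [H, Ctx.eq6]
  rw [e0, e1, dth.excise (hG.adm h) (ho 0) (fun v hv => h21 (hs _ hv))
    fun v hv h0 => hΩ 0 v (hZ ▸ Ctx.inat_mem hG hv h0),
    dth.excise (hG'.adm h') (ho 1) (fun v hv => hs _ hv)
    fun v hv h0 => hΩ 1 v (Ctx.inat_mem hG' hv h0)] at h1
  rw [Ctx.ind_eq h hG, Ctx.ind_eq h' hG', h1]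

end Pool.Agent.CSP
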