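import Pool.Agent.Lib.MP_436e1a_gt.E.IndNat

/-! Intersection numbers of balls and spheres: basic properties. -/

open scoped RealInnerProductSpace
open Set Metric

namespace Pool.Agent.CSP

/-- a ball and a sphere that misses its boundary -/
structure BS {Y : Type} [TopologicalSpace Y] (D b : E 3 → Y) : Prop where
  ball : ContinuousOn D B3
  sph : ContinuousOn b S2
  dj : Dj D b

theorem int_open : IsOpen O6 := isOpen_ball.prod isOpen_compl_singleton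

theorem int_nrm : ContinuousOn (fun v : V6 => nrm v.2) O6 :=
  contDiffOn_nrm.continuousOn.comp continuous_snd.continuousOn fun _ hv => hv.2

theorem int_zc {Y : Type} {D b : E 3 → Y} (h : Dj D b) {v : V6} :
    v ∈ Zc O6 (fun v => D v.1) (fun v => b (nrm v.2)) (fun v => ‖v.2‖ - 1) ↔
      v ∈ B3 ×ˢ S2 ∧ D v.1 = b v.2 := by
  constructor
  · rintro ⟨h1, h2, h3⟩
    have h4 : v.2 ∈ S2 := mem_sphere_zero_iff_norm.2 (sub_eq_zero.1 h3)
    exact ⟨⟨ball_subset_closedBall h1.1, h4⟩, h2.trans (congrArg b (nrm_of_S2 h4))⟩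
  · rintro ⟨⟨h1, h2⟩, h3⟩
    have h4 := mem_sphere_zero_iff_norm.1 h2
    refine ⟨⟨mem_ball_zero_iff.2 ((mem_closedBall_zero_iff.1 h1).lt_of_ne fun e =>
      h _ (mem_sphere_zero_iff_norm.2 e) _ h2 h3), ne_of_mem_sphere h2 one_ne_zero⟩,
      h3.trans (congrArg b (nrm_of_S2 h2).symm), sub_eq_zero.2 h4⟩

theorem int_cpt {T Y : Type} [TopologicalSpace T] [T2Space T] [TopologicalSpace Y] [T2Space Y]
    {K : Set T} (hK : IsCompact K) {f g : T → Y} (hf : ContinuousOn f K) (hg : ContinuousOn g K) :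
    IsCompact {t | t ∈ K ∧ f t = g t} :=
  hK.of_isClosed_subset (hK.isClosed.isClosed_eq hf hg) fun _ h => h.1

theorem int_rf : ∃ R : E 3 →L[ℝ] E 3, (∀ x, R x = rf3 x) ∧ R.det = -1 := by
  refine ⟨fr ![!₂[1, 0, 0], !₂[0, 1, 0], (!₂[0, 0, -1] : E 3)], fun u => ?_, ?_⟩
  · refine ml_ext ?_ ?_ ?_ <;> simp [rf3, fr_apply, Fin.sum_univ_three]
  · rw [det_fr, Matrix.det_fin_three]
    simp

namespace Ctx

variable {c : Ctx} {D D' b b' : E 3 → c.Y}

/-- the coincidence set is `{(x, y) ∈ B3 × S2 | D x = b y}` -/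
theorem inter_adm (h : BS D b) :
    c.IAdm O6 (fun v => D v.1) (fun v => b (nrm v.2)) fun v => ‖v.2‖ - 1 := by
  refine ⟨int_open, h.ball.comp continuous_fst.continuousOn fun v hv => ball_subset_closedBall hv.1,
    h.sph.comp int_nrm fun v hv => nrm_mem hv.2, by fun_prop, ?_, ?_⟩
  · rw [Set.ext fun v => int_zc h.dj]
    exact int_cpt ((isCompact_closedBall 0 1).prod (isCompact_sphere 0 1))
      (h.ball.comp continuous_fst.continuousOn fun v hv => hv.1)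
      (h.sph.comp continuous_snd.continuousOn fun v hv => hv.2)
  · exact (flat_star (isCompact_closedBall 0 1) ((convex_closedBall 0 1).starConvex
      (mem_closedBall_self zero_le_one)) h.ball).comp continuous_fst.continuousOn
      fun v hv => ball_subset_closedBall hv.1.1

theorem inter_congr (h : BS D b) (e₁ : EqOn D' D B3) (e₂ : EqOn b' b S2) :
    c.inter D' b' = c.inter D b := by
  exact ((inter_adm h).congr (fun v hv => e₁ (ball_subset_closedBall hv.1))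
    (fun v hv => e₂ (nrm_mem hv.2)) fun _ _ => rfl).2

theorem inter_empty (h : BS D b) (he : ∀ x ∈ B3, ∀ y ∈ S2, D x ≠ b y) : c.inter D b = 0 := by
  refine ind_empty (inter_adm h) (eq_empty_of_forall_notMem fun v hv => ?_)
  obtain ⟨h1, h2⟩ := (int_zc h.dj).1 hv
  exact he _ h1.1 _ h1.2 h2

theorem inter_htpy {HD Hb : ℝ × E 3 → c.Y} (h1 : ContinuousOn HD (Icc 0 1 ×ˢ B3))
    (h2 : ContinuousOn Hb (Icc 0 1 ×ˢ S2))
    (h : ∀ t ∈ Icc (0 : ℝ) 1, Dj (fun x => HD (t, x)) fun y => Hb (t, y)) :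
    c.inter (fun x => HD (0, x)) (fun y => Hb (0, y)) =
      c.inter (fun x => HD (1, x)) fun y => Hb (1, y) := by
  have m1 : Continuous fun p : ℝ × V6 => (p.1, p.2.1) := by fun_prop
  have m2 : Continuous fun p : ℝ × V6 => (p.1, p.2.2) := by fun_prop
  refine (ind_htpy (Ω := Prod.snd ⁻¹' O6) (int_open.preimage continuous_snd)
    (F := fun p => HD (p.1, p.2.1)) (G := fun p => Hb (p.1, nrm p.2.2))
    (K := fun p => ‖p.2.2‖ - 1)
    (h1.comp m1.continuousOn fun p hp => ⟨hp.2.1, ball_subset_closedBall hp.1.1⟩)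
    (h2.comp (continuous_fst.continuousOn.prodMk (int_nrm.comp continuous_snd.continuousOn
      fun p hp => hp.1)) fun p hp => ⟨hp.2.1, nrm_mem hp.1.2⟩) (by fun_prop) ?_ ?_).2
  · refine Eq.mp (congrArg IsCompact (Set.ext fun p => ?_)) (int_cpt (isCompact_Icc.prod
      ((isCompact_closedBall 0 1).prod (isCompact_sphere 0 1)))
      (h1.comp m1.continuousOn fun p hp => ⟨hp.1, hp.2.1⟩)
      (h2.comp m2.continuousOn fun p hp => ⟨hp.1, hp.2.2⟩))
    constructor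
    · rintro ⟨⟨a1, a2⟩, a3⟩
      have a4 := (int_zc (h _ a1)).2 ⟨a2, a3⟩
      exact ⟨⟨a4.1, a1, mem_univ _⟩, a4.2⟩
    · rintro ⟨⟨a1, a2, -⟩, a3⟩
      have a4 := (int_zc (h _ a2)).1 ⟨a1, a3⟩
      exact ⟨⟨a2, a4.1⟩, a4.2⟩
  · exact (flat_star (isCompact_Icc.prod (isCompact_closedBall 0 1))
      (((convex_Icc 0 1).prod (convex_closedBall 0 1)).starConvex (x := (0, 0))
        ⟨⟨le_rfl, zero_le_one⟩, mem_closedBall_self zero_le_one⟩) h1).comp m1.continuousOn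
      fun p hp => ⟨hp.1.2.1, ball_subset_closedBall hp.1.1.1⟩

theorem int_lin (h : BS D b) {A B : E 3 →L[ℝ] E 3} (a1 : ∀ x, A (A x) = x) (b1 : ∀ x, B (B x) = x)
    (a2 : ∀ x, ‖A x‖ = ‖x‖) (b2 : ∀ x, ‖B x‖ = ‖x‖) (hd : A.det * B.det = -1) :
    c.inter (fun x => D (A x)) (fun y => b (B y)) = - c.inter D b := by
  have hm : MapsTo (A.prodMap B) O6 O6 := fun v hv =>
    ⟨mem_ball_zero_iff.2 ((a2 _).trans_lt (mem_ball_zero_iff.1 hv.1)),
      norm_ne_zero_iff.1 ((b2 _).trans_ne (norm_ne_zero_iff.2 hv.2))⟩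
  have hi : ∀ v ∈ O6, A.prodMap B (A.prodMap B v) = v := fun v _ => Prod.ext (a1 _) (b1 _)
  have h1 := (ind_diffeo (inter_adm h) int_open (s := -1) (A.prodMap B).contDiff.contDiffOn
    (A.prodMap B).continuous.continuousOn hm hm hi hi fun v _ => by
      have h2 : (A.prodMap B).det = A.det * B.det := LinearMap.det_prodMap _ _
      rw [ContinuousLinearMap.fderiv, h2, hd]
      simp).2
  refine Eq.trans ?_ (h1.trans (by simp [inter]))
  rw [inter]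
  congr 1
  · funext v
    show _ = b (nrm (B v.2))
    rw [nrm, nrm, b2, map_smul]
  · funext v
    exact congrArg (· - 1) (b2 _).symm

theorem inter_rf (h : BS D b) : c.inter D (fun y => b (rf3 y)) = - c.inter D b := by
  obtain ⟨R, h1, h2⟩ := int_rf
  have h3 := int_lin h (A := ContinuousLinearMap.id ℝ _) (B := R) (fun _ => rfl)
    (fun x => by rw [h1, h1, rf3_rf3]) (fun _ => rfl) (fun x => by rw [h1, norm_rf3])
    (by rw [h2, ContinuousLinearMap.det, ContinuousLinearMap.coe_id, LinearMap.det_id, one_mul])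
  simp only [h1] at h3
  exact h3

theorem inter_rf_left (h : BS D b) : c.inter (fun x => D (rf3 x)) b = - c.inter D b := by
  obtain ⟨R, h1, h2⟩ := int_rf
  have h3 := int_lin h (A := R) (B := ContinuousLinearMap.id ℝ _)
    (fun x => by rw [h1, h1, rf3_rf3]) (fun _ => rfl) (fun x => by rw [h1, norm_rf3]) (fun _ => rfl)
    (by rw [h2, ContinuousLinearMap.det, ContinuousLinearMap.coe_id, LinearMap.det_id, mul_one])
  simp only [h1] at h3
  exact h3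

/-- A single transverse intersection. -/
theorem inter_single (h : BS D b) {x₀ y₀ : E 3} (hx : x₀ ∈ ball (0 : E 3) 1) (hy : y₀ ∈ S2)
    (hu : ∀ x ∈ B3, ∀ y ∈ S2, D x = b y ↔ x = x₀ ∧ y = y₀)
    (d₁ : DifferentiableAt ℝ (c.am D) x₀) (d₂ : DifferentiableAt ℝ (c.am b) y₀)
    (ht : ∀ v w : E 3, ⟪y₀, w⟫ = 0 → fderiv ℝ (c.am D) x₀ v = fderiv ℝ (c.am b) y₀ w →
      v = 0 ∧ w = 0) : ∃ s : ℤˣ, c.inter D b = s := by
  obtain ⟨C, hC⟩ := exists_cof (c.q (D x₀))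
  obtain ⟨J, hJ⟩ := exists_j6
  have hn := mem_sphere_zero_iff_norm.1 hy
  have h0 : y₀ ≠ 0 := ne_of_mem_sphere hy one_ne_zero
  have he : D x₀ = b y₀ := (hu _ (ball_subset_closedBall hx) _ hy).2 ⟨rfl, rfl⟩
  have hZ : Zc O6 (fun v => D v.1) (fun v => b (nrm v.2)) (fun v => ‖v.2‖ - 1) = {(x₀, y₀)} := by
    ext v
    rw [int_zc h.dj, mem_singleton_iff, Prod.ext_iff]
    refine ⟨fun a => (hu _ a.1.1 _ a.1.2).1 a.2, fun a => ?_⟩
    rw [mem_prod, a.1, a.2]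
    exact ⟨⟨ball_subset_closedBall hx, hy⟩, he⟩
  have n1 := (hasStrictFDerivAt_norm_sq y₀).hasFDerivAt.sqrt (by simp [hn])
  simp only [Real.sqrt_sq (norm_nonneg _)] at n1
  have n2 : HasFDerivAt nrm (fderiv ℝ nrm y₀) y₀ := ((contDiffOn_nrm.contDiffAt
    (isOpen_compl_singleton.mem_nhds h0)).differentiableAt (by simp)).hasFDerivAt
  have n3 : HasFDerivAt (c.am b) (fderiv ℝ (c.am b) y₀) (nrm y₀) := by
    rw [nrm_of_S2 hy]
    exact d₂.hasFDerivAt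
  have hs : HasFDerivAt (Prod.snd : V6 → E 3) (ContinuousLinearMap.snd ℝ _ _) (x₀, y₀) :=
    hasFDerivAt_snd
  have hL := J.hasFDerivAt.comp (x₀, y₀) ((C.hasFDerivAt.comp (x₀, y₀)
    (((n3.comp y₀ n2).comp (x₀, y₀) hs).sub (d₁.hasFDerivAt.comp (x₀, y₀) hasFDerivAt_fst))).prodMk
      ((n1.comp (x₀, y₀) hs).sub_const 1))
  generalize hdef : (J : (E 5 × ℝ) →L[ℝ] V6).comp (_ : V6 →L[ℝ] E 5 × ℝ) = L at hL
  have hL' : HasFDerivAt (c.eq6 (fun _ => C) (fun v => D v.1) (fun v => b (nrm v.2))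
      fun v => ‖v.2‖ - 1) L (x₀, y₀) := Eq.mp (congrArg (HasFDerivAt · L _)
        (funext fun v => hJ _ _)) hL
  have hd : L.det ≠ 0 := by
    rw [ContinuousLinearMap.det, Ne, LinearMap.det_eq_zero_iff_ker_ne_bot, not_not,
      LinearMap.ker_eq_bot']
    intro v hv
    rw [← hdef] at hv
    obtain ⟨a1, a2⟩ := Prod.ext_iff.1 (J.map_eq_zero_iff.1 hv)
    have a3 : ⟪y₀, v.2⟫ = 0 := by simpa [hn] using a2
    have a4 : C (fderiv ℝ (c.am b) y₀ (fderiv ℝ nrm y₀ v.2) - fderiv ℝ (c.am D) x₀ v.1) = 0 := a1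
    rw [fderiv_nrm hn, a3, zero_smul, sub_zero] at a4
    have a5 := hC.inj (by rw [map_sub, P_fderiv_am d₁, he, P_fderiv_am d₂]) a4
    exact Prod.ext_iff.2 (ht _ _ a3 (sub_eq_zero.1 a5).symm)
  rcases hd.lt_or_gt with a | a
  · exact ⟨-1, ind_single (inter_adm h) hZ hC hL' (by simpa using a)⟩
  · exact ⟨1, ind_single (inter_adm h) hZ hC hL' (by simpa using a)⟩

end Ctx

/-- Localisation and naturality. -/
theorem inter_nat {c : Ctx} {κ : Type} (s : Finset κ) {c' : κ → Ctx} {A : ∀ k, (c' k).Y → c.Y}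
    {φ : ∀ k, (c' k).M → c.M} {W : ∀ k, Set (c' k).M}
    (hA : ∀ k ∈ s, LocMap (c' k) c (A k) (φ k) (W k)) {D b : E 3 → c.Y}
    {D' b' : ∀ k, E 3 → (c' k).Y} (h : BS D b) (h' : ∀ k ∈ s, BS (D' k) (b' k))
    {N : κ → Set (E 3 × E 3)} (hN : ∀ k ∈ s, IsOpen (N k))
    (hd : ∀ k ∈ s, ∀ l ∈ s, ∀ x ∈ B3, ∀ y ∈ S2, (x, y) ∈ N k → (x, y) ∈ N l → k = l)
    (h1 : ∀ x ∈ B3, ∀ y ∈ S2, D x = b y → ∃ k ∈ s, (x, y) ∈ N k)
    (h2 : ∀ k ∈ s, ∀ x ∈ B3, ∀ y ∈ S2, D' k x = b' k y → (x, y) ∈ N k)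
    (h3 : ∀ k ∈ s, ∀ x ∈ B3, ∀ y ∈ S2, (x, y) ∈ N k → (c' k).q (D' k x) ∈ W k ∧
      (c' k).q (b' k y) ∈ W k ∧ D x = A k (D' k x) ∧ b y = A k (b' k y)) :
    c.inter D b = ∑ k ∈ s, (c' k).inter (D' k) (b' k) := by
  have m : ∀ v ∈ O6, v.1 ∈ B3 ∧ nrm v.2 ∈ S2 := fun v hv =>
    ⟨ball_subset_closedBall hv.1, nrm_mem hv.2⟩
  have ho : ∀ k ∈ s, IsOpen (O6 ∩ (fun v : V6 => (v.1, nrm v.2)) ⁻¹' N k) := fun k hk =>
    (continuous_fst.continuousOn.prodMk int_nrm).isOpen_inter_preimage int_open (hN k hk)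
  obtain ⟨a1, a2⟩ := Ctx.ind_sum s (W := fun k => O6 ∩ (fun v : V6 => (v.1, nrm v.2)) ⁻¹' N k)
    (Ctx.inter_adm h) (fun k hk => ⟨ho k hk, inter_subset_left⟩)
    (fun k hk l hl e => Set.disjoint_left.2 fun v b1 b2 =>
      e (hd k hk l hl _ (m v b1.1).1 _ (m v b1.1).2 b1.2 b2.2))
    fun v hv => by
      obtain ⟨k, hk, b1⟩ := h1 _ (m v hv.1).1 _ (m v hv.1).2 hv.2.1
      exact mem_iUnion₂.2 ⟨k, hk, hv.1, b1⟩
  refine a2.trans (Finset.sum_congr rfl fun k hk => ?_)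
  obtain ⟨a3, a4⟩ := (Ctx.inter_adm (h' k hk)).excise (ho k hk) inter_subset_left
    fun v hv => ⟨hv.1, h2 k hk _ (m v hv.1).1 _ (m v hv.1).2 hv.2.1⟩
  have a5 := fun v (hv : v ∈ O6 ∩ (fun v : V6 => (v.1, nrm v.2)) ⁻¹' N k) =>
    h3 k hk _ (m v hv.1).1 _ (m v hv.1).2 hv.2
  exact (ind_nat (hA k hk) a3 (a1 k hk) (fun v hv => ⟨(a5 v hv).1, (a5 v hv).2.2.1⟩)
    fun v hv => ⟨(a5 v hv).2.1, (a5 v hv).2.2.2⟩).trans a4

end Pool.Agent.CSP
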