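import Pool.Agent.Lib.MP_436e1a_gt.E.Inter
import Pool.Agent.Lib.MP_436e1a_gt.E.CubCov

/-! Multiplicativity and additivity of intersection numbers. -/

open Set Metric

namespace Pool.Agent.CSP

namespace Ctx

variable {c : Ctx} {D b b₁ b₂ : E 3 → c.Y}

theorem idd_open : IsOpen O6 := isOpen_ball.prod isOpen_compl_singleton

theorem idd_cf (h : BS D b) : ContinuousOn (fun v : V6 => D v.1) O6 :=
  h.ball.comp continuous_fst.continuousOn fun _ hv => ball_subset_closedBall hv.1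

theorem idd_cg (h : BS D b) : ContinuousOn (fun v : V6 => b (nrm v.2)) O6 :=
  h.sph.comp (contDiffOn_nrm.continuousOn.comp continuous_snd.continuousOn fun _ hv => hv.2)
    fun _ hv => nrm_mem hv.2

theorem idd_flat (h : BS D b) : c.Flat D B3 :=
  flat_star (isCompact_closedBall _ _)
    ((convex_closedBall (0 : E 3) 1).starConvex (mem_closedBall_self zero_le_one)) h.ball

/-- the coincidences over a closed annulus form a compact subset of `O6` -/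
theorem idd_ann (h : BS D b) {r R : ℝ} (hr : 0 < r) :
    IsCompact {v : V6 | v ∈ O6 ∧ D v.1 = b (nrm v.2) ∧ r ≤ ‖v.2‖ ∧ ‖v.2‖ ≤ R} := by
  have hA : IsCompact (closedBall (0 : E 3) R ∩ {y | r ≤ ‖y‖}) :=
    (isCompact_closedBall _ _).inter_right (isClosed_le continuous_const continuous_norm)
  have hK := (isCompact_closedBall (0 : E 3) 1).prod hA
  have hne : ∀ v ∈ B3 ×ˢ (closedBall (0 : E 3) R ∩ {y | r ≤ ‖y‖}), v.2 ≠ 0 := fun v hv e => by
    have : r ≤ ‖v.2‖ := hv.2.2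
    rw [e, norm_zero] at this
    exact absurd this (not_le.2 hr)
  have h1 : ContinuousOn (fun v : V6 => D v.1) (B3 ×ˢ (closedBall (0 : E 3) R ∩ {y | r ≤ ‖y‖})) :=
    h.ball.comp continuous_fst.continuousOn fun _ hv => hv.1
  have h2 : ContinuousOn (fun v : V6 => b (nrm v.2))
      (B3 ×ˢ (closedBall (0 : E 3) R ∩ {y | r ≤ ‖y‖})) :=
    h.sph.comp (contDiffOn_nrm.continuousOn.comp continuous_snd.continuousOn hne)
      fun v hv => nrm_mem (hne v hv)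
  have hc := hK.of_isClosed_subset (hK.isClosed.isClosed_eq h1 h2) fun _ hv => hv.1
  have e : {v : V6 | v ∈ O6 ∧ D v.1 = b (nrm v.2) ∧ r ≤ ‖v.2‖ ∧ ‖v.2‖ ≤ R} =
      {v ∈ B3 ×ˢ (closedBall (0 : E 3) R ∩ {y | r ≤ ‖y‖}) | D v.1 = b (nrm v.2)} := by
    ext v
    constructor
    · rintro ⟨hv, he, h3, h4⟩
      exact ⟨mk_mem_prod (ball_subset_closedBall hv.1) ⟨mem_closedBall_zero_iff.2 h4, h3⟩, he⟩
    · rintro ⟨hv, he⟩
      refine ⟨mk_mem_prod ?_ (hne v hv), he, hv.2.2, mem_closedBall_zero_iff.1 hv.2.1⟩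
      rcases (mem_closedBall_zero_iff.1 hv.1).lt_or_eq with h5 | h5
      · exact mem_ball_zero_iff.2 h5
      · exact absurd he (h.dj _ (mem_sphere_zero_iff_norm.2 h5) _ (nrm_mem (hne v hv)))
  rw [e]
  exact hc
/-- Changing the constraint function. If `k₀`, `k₁` are continuous on `O6` and all zeros of
`(1 - t) k₀ + t k₁` in `O6` have `r ≤ ‖v.2‖ ≤ R` with `0 < r`, then the indices agree (`ind_htpy`; the
coincidence set is compact because `D x = b (nrm y)` forces `x` into a compact subset of the open ball). -/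
theorem ind_constraint (h : BS D b) {k₀ k₁ : V6 → ℝ} (h0 : ContinuousOn k₀ O6)
    (h1 : ContinuousOn k₁ O6) {r R : ℝ} (hr : 0 < r)
    (hz : ∀ t ∈ Icc (0 : ℝ) 1, ∀ y : E 3, y ≠ 0 → ∀ x ∈ ball (0 : E 3) 1,
      (1 - t) * k₀ (x, y) + t * k₁ (x, y) = 0 → r ≤ ‖y‖ ∧ ‖y‖ ≤ R) :
    c.ind O6 (fun v => D v.1) (fun v => b (nrm v.2)) k₀ =
      c.ind O6 (fun v => D v.1) (fun v => b (nrm v.2)) k₁ := by
  have hm : ∀ p ∈ (univ ×ˢ O6 ∩ Icc (0 : ℝ) 1 ×ˢ univ : Set (ℝ × V6)), p.2 ∈ O6 := fun p hp => hp.1.2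
  have hk : ∀ S : Set (ℝ × V6), (∀ p ∈ S, p.2 ∈ O6) →
      ContinuousOn (fun p : ℝ × V6 => (1 - p.1) * k₀ p.2 + p.1 * k₁ p.2) S := fun S hS =>
    ((continuous_const.sub continuous_fst).continuousOn.mul
      (h0.comp continuous_snd.continuousOn hS)).add
      (continuous_fst.continuousOn.mul (h1.comp continuous_snd.continuousOn hS))
  have hK := (isCompact_Icc (a := (0 : ℝ)) (b := 1)).prod (idd_ann (R := R) h hr)
  have hc := hK.of_isClosed_subset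
    (hK.isClosed.isClosed_eq (hk _ fun p hp => hp.2.1) (continuousOn_const (c := (0 : ℝ))))
    fun _ hp => hp.1
  have e : Zc (univ ×ˢ O6 ∩ Icc (0 : ℝ) 1 ×ˢ univ : Set (ℝ × V6)) (fun p => D p.2.1)
      (fun p => b (nrm p.2.2)) (fun p => (1 - p.1) * k₀ p.2 + p.1 * k₁ p.2) =
      {p ∈ Icc (0 : ℝ) 1 ×ˢ {v : V6 | v ∈ O6 ∧ D v.1 = b (nrm v.2) ∧ r ≤ ‖v.2‖ ∧ ‖v.2‖ ≤ R} |
        (1 - p.1) * k₀ p.2 + p.1 * k₁ p.2 = 0} := by
    ext p
    constructor
    · rintro ⟨hp, he, hz'⟩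
      exact ⟨mk_mem_prod hp.2.1 ⟨hp.1.2, he, hz p.1 hp.2.1 p.2.2 hp.1.2.2 p.2.1 hp.1.2.1 hz'⟩, hz'⟩
    · rintro ⟨hp, hz'⟩
      exact ⟨⟨mk_mem_prod (mem_univ _) hp.2.1, mk_mem_prod hp.1 (mem_univ _)⟩, hp.2.2.1, hz'⟩
  have H := (ind_htpy (c := c) (Ω := univ ×ˢ O6) (isOpen_univ.prod idd_open)
    (F := fun p => D p.2.1) (G := fun p => b (nrm p.2.2))
    (K := fun p => (1 - p.1) * k₀ p.2 + p.1 * k₁ p.2)
    ((idd_cf h).comp continuous_snd.continuousOn hm) ((idd_cg h).comp continuous_snd.continuousOn hm)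
    (hk _ hm) (by rw [e]; exact hc)
    ((idd_flat h).comp (φ := fun p : ℝ × V6 => p.2.1) (by fun_prop)
      fun p hp => ball_subset_closedBall hp.1.1.2.1)).2
  have e0 : ∀ t : ℝ, {v : V6 | (t, v) ∈ (univ ×ˢ O6 : Set (ℝ × V6))} = O6 := fun t => by
    ext v
    simp
  rw [e0, e0] at H
  simpa using H

theorem idd_cub (y : E 3) : ‖cub y‖ ^ 2 ≤ (‖y‖ ^ 2) ^ 3 ∧ (‖y‖ ^ 2) ^ 3 ≤ 4 * ‖cub y‖ ^ 2 := by
  have e : ‖cub y‖ ^ 2 = (y 0 ^ 2 + y 1 ^ 2) ^ 3 + y 2 ^ 2 * (y 0 ^ 2 + y 1 ^ 2 + y 2 ^ 2) ^ 2 := by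
    rw [ml_sq]
    simp only [cub, PiLp.toLp_apply, Matrix.cons_val]
    ring
  rw [e, ml_sq y]
  have h1 : 0 ≤ y 0 ^ 2 + y 1 ^ 2 := by positivity
  have h2 : 0 ≤ y 2 ^ 2 := sq_nonneg _
  generalize y 0 ^ 2 + y 1 ^ 2 = p at h1 ⊢
  generalize y 2 ^ 2 = q at h2 ⊢
  constructor
  · nlinarith [mul_nonneg (mul_nonneg h1 h1) h2, mul_nonneg (mul_nonneg h1 h2) h2]
  · nlinarith [mul_nonneg (mul_nonneg h1 h1) h2, mul_nonneg (mul_nonneg h1 h2) h2,
      mul_nonneg (mul_nonneg h1 h1) h1, mul_nonneg (mul_nonneg h2 h2) h2]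

theorem idd_cub_lt {y : E 3} (h : ‖y‖ < 1) : ‖cub y‖ < 1 := by
  have h1 : (‖y‖ ^ 2) ^ 3 < 1 :=
    pow_lt_one₀ (by positivity) (pow_lt_one₀ (norm_nonneg _) h two_ne_zero) three_ne_zero
  have h2 := (idd_cub y).1
  nlinarith [norm_nonneg (cub y)]

theorem idd_cub_gt {y : E 3} (h : 2 < ‖y‖) : 1 < ‖cub y‖ := by
  have h0 : (4 : ℝ) ≤ ‖y‖ ^ 2 := by nlinarith
  have h1 : (4 : ℝ) ^ 3 ≤ (‖y‖ ^ 2) ^ 3 := pow_le_pow_left₀ (by norm_num) h0 3
  have h2 := (idd_cub y).2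
  nlinarith [norm_nonneg (cub y)]
/-- Sketch. `ind_cub_snd`; `b (nrm (cub y)) = b (dd (nrm y))`; `ind_constraint` from `‖cub y‖ - 1` to
`‖y‖ - 1` (`m ‖y‖ ^ 3 ≤ ‖cub y‖ ≤ M ‖y‖ ^ 3`). -/
theorem inter_dd (h : BS D b) : c.inter D (fun y => b (dd y)) = 3 * c.inter D b := by
  have h' : BS D fun y => b (dd y) :=
    ⟨h.ball, h.sph.comp (contDiffOn_dd.continuousOn.mono fun _ hy => ne_zero_of_S2 hy)
      fun _ hy => dd_mem (ne_zero_of_S2 hy),
      fun x hx y hy => h.dj x hx _ (dd_mem (ne_zero_of_S2 hy))⟩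
  have H := (ind_cub_snd (W := ball 0 1) (inter_adm h)).2
  have Ec := ind_constraint (c := c) h' (k₀ := fun v => ‖v.2‖ - 1) (k₁ := fun v => ‖cub v.2‖ - 1)
    (by fun_prop) ((contDiff_cub.continuous.comp continuous_snd).norm.sub
      continuous_const).continuousOn (r := 1) (R := 2) one_pos fun t ht y _ x _ hz => by
      dsimp only at hz
      constructor
      · by_contra hc
        have h1 := not_le.1 hc
        have h2 := idd_cub_lt h1
        rcases ht.1.lt_or_eq with h3 | h3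
        · nlinarith [mul_pos h3 (sub_pos.2 h2), mul_nonneg (sub_nonneg.2 ht.2) (sub_pos.2 h1).le]
        · rw [← h3] at hz
          linarith
      · by_contra hc
        have h1 := not_le.1 hc
        have h2 := idd_cub_gt h1
        rcases ht.1.lt_or_eq with h3 | h3
        · nlinarith [mul_pos h3 (sub_pos.2 h2), mul_nonneg (sub_nonneg.2 ht.2) (sub_pos.2 h1).le,
            sub_nonneg.2 ht.2]
        · rw [← h3] at hz
          linarith
  refine Ec.trans (Eq.trans ?_ H)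
  simp only [dd_nrm]
  rfl

/-- change of the second variable by an orientation preserving diffeomorphism `φ : A → U` -/
theorem idd_half (h : BS D b) {A U : Set (E 3)} (hA : IsOpen A) (hU : IsOpen U) (hU0 : U ⊆ {0}ᶜ)
    (hZ : ∀ x ∈ B3, ∀ w ∈ S2, D x = b w → w ∈ U) {φ ψ : E 3 → E 3}
    (hφ : ContDiff ℝ (⊤ : ℕ∞) φ) (hψ : ContinuousOn ψ U) (m₁ : MapsTo φ A U) (m₂ : MapsTo ψ U A)
    (e₁ : ∀ y ∈ A, ψ (φ y) = y) (e₂ : ∀ w ∈ U, φ (ψ w) = w)
    (hd : ∀ y ∈ A, 0 < (fderiv ℝ φ y).det) :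
    c.IAdm (ball 0 1 ×ˢ A) (fun v => D v.1) (fun v => b (nrm (φ v.2))) (fun v => ‖φ v.2‖ - 1) ∧
    c.ind (ball 0 1 ×ˢ A) (fun v => D v.1) (fun v => b (nrm (φ v.2))) (fun v => ‖φ v.2‖ - 1) =
      c.inter D b := by
  obtain ⟨a1, a2⟩ := (inter_adm h).excise (O' := ball 0 1 ×ˢ U) (isOpen_ball.prod hU)
    (prod_mono Subset.rfl hU0) fun v hv => by
      have h1 : v.2 ∈ S2 := mem_sphere_zero_iff_norm.2 (sub_eq_zero.1 hv.2.2)
      refine mk_mem_prod hv.1.1 (hZ v.1 (ball_subset_closedBall hv.1.1) v.2 h1 ?_)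
      have h2 : D v.1 = b (nrm v.2) := hv.2.1
      rwa [nrm_of_S2 h1] at h2
  obtain ⟨a3, a4⟩ := ind_diffeo a1 (O' := ball 0 1 ×ˢ A) (isOpen_ball.prod hA)
    (Φ := fun v => (v.1, φ v.2)) (Ψ := fun v => (v.1, ψ v.2)) (s := 1)
    (contDiff_fst.prodMk (hφ.comp contDiff_snd)).contDiffOn
    (continuous_fst.continuousOn.prodMk (hψ.comp continuous_snd.continuousOn fun _ hv => hv.2))
    (fun _ hv => mk_mem_prod hv.1 (m₁ hv.2)) (fun _ hv => mk_mem_prod hv.1 (m₂ hv.2))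
    (fun v hv => Prod.ext rfl (e₁ v.2 hv.2)) (fun v hv => Prod.ext rfl (e₂ v.2 hv.2))
    fun v hv => by
      have h1 : HasFDerivAt (fun v : V6 => (v.1, φ v.2))
          ((ContinuousLinearMap.id ℝ (E 3)).prodMap (fderiv ℝ φ v.2)) v :=
        HasFDerivAt.prodMap v (hasFDerivAt_id v.1)
          (hφ.differentiable (by simp) v.2).hasFDerivAt
      rw [h1.fderiv, ContinuousLinearMap.det, ContinuousLinearMap.coe_prodMap,
        LinearMap.det_prodMap]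
      simpa using hd v.2 hv.2
  refine ⟨a3, a4.trans ?_⟩
  rw [a2]
  simp [inter]

/-- the homogeneous quadratic extension of `ε • pin` -/
noncomputable def iddP (ε : ℝ) (y : E 3) : E 3 :=
  !₂[ε * (2 * y 2 * y 0), ε * (2 * y 2 * y 1), ε * (y 2 ^ 2 - y 0 ^ 2 - y 1 ^ 2)]

/-- its inverse with values in the half space `0 < ε * y 2` -/
noncomputable def iddQ (ε : ℝ) (w : E 3) : E 3 :=
  !₂[w 0 / (2 * √((‖w‖ + ε * w 2) / 2)), w 1 / (2 * √((‖w‖ + ε * w 2) / 2)),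
    ε * √((‖w‖ + ε * w 2) / 2)]

theorem iddP_cd (ε : ℝ) : ContDiff ℝ (⊤ : ℕ∞) (iddP ε) :=
  ml_cd (by fun_prop) (by fun_prop) (by fun_prop)

theorem iddP_norm {ε : ℝ} (hε : ε ^ 2 = 1) (y : E 3) : ‖iddP ε y‖ = ‖y‖ ^ 2 := by
  rw [← sq_eq_sq₀ (norm_nonneg _) (by positivity), ml_sq, ml_sq]
  simp only [iddP, PiLp.toLp_apply, Matrix.cons_val]
  linear_combination (y 0 ^ 2 + y 1 ^ 2 + y 2 ^ 2) ^ 2 * hε

theorem iddP_two {ε : ℝ} (hε : ε ^ 2 = 1) (y : E 3) :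
    (‖iddP ε y‖ + ε * iddP ε y 2) / 2 = (ε * y 2) ^ 2 := by
  rw [iddP_norm hε, ml_sq]
  simp only [iddP, PiLp.toLp_apply, Matrix.cons_val]
  linear_combination (-(y 2 ^ 2 + y 0 ^ 2 + y 1 ^ 2) / 2) * hε

theorem iddQ_P {ε : ℝ} (hε : ε ^ 2 = 1) {y : E 3} (hy : 0 < ε * y 2) :
    iddQ ε (iddP ε y) = y := by
  have h0 : ε ≠ 0 := left_ne_zero_of_mul hy.ne'
  have h2 : y 2 ≠ 0 := right_ne_zero_of_mul hy.ne'
  rw [iddQ, iddP_two hε, Real.sqrt_sq hy.le]
  refine ml_ext ?_ ?_ ?_ <;> simp only [iddP, PiLp.toLp_apply, Matrix.cons_val]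
  · field_simp
  · field_simp
  · linear_combination y 2 * hε

theorem iddP_Q {ε : ℝ} (hε : ε ^ 2 = 1) {w : E 3} (hw : 0 < ‖w‖ + ε * w 2) :
    iddP ε (iddQ ε w) = w := by
  have h1 : 0 < √((‖w‖ + ε * w 2) / 2) := Real.sqrt_pos.2 (by linarith)
  have h2 : √((‖w‖ + ε * w 2) / 2) ^ 2 = (‖w‖ + ε * w 2) / 2 := Real.sq_sqrt (by linarith)
  have h3 := ml_sq w
  rw [iddQ]
  generalize √((‖w‖ + ε * w 2) / 2) = S at h1 h2
  have h4 : w 0 ^ 2 + w 1 ^ 2 = 2 * S ^ 2 * (2 * S ^ 2 - 2 * ε * w 2) := by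
    have h5 : ‖w‖ = 2 * S ^ 2 - ε * w 2 := by linarith
    rw [h5] at h3
    linear_combination (-1 : ℝ) * h3 + w 2 ^ 2 * hε
  refine ml_ext ?_ ?_ ?_ <;> simp only [iddP, PiLp.toLp_apply, Matrix.cons_val] <;> field_simp
  · linear_combination w 0 * hε
  · linear_combination w 1 * hε
  · linear_combination (-ε) * h4 + (4 * ε * S ^ 4 + 4 * S ^ 2 * w 2) * hε

theorem iddQ_cont (ε : ℝ) : ContinuousOn (iddQ ε) {w | 0 < ‖w‖ + ε * w 2} := by
  have h1 : Continuous fun w : E 3 => √((‖w‖ + ε * w 2) / 2) := by fun_prop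
  have h2 : ∀ w ∈ {w : E 3 | 0 < ‖w‖ + ε * w 2}, 2 * √((‖w‖ + ε * w 2) / 2) ≠ 0 := fun w hw =>
    (mul_pos two_pos (Real.sqrt_pos.2 (half_pos hw))).ne'
  refine (PiLp.continuous_toLp 2 _).comp_continuousOn (continuousOn_pi.2 fun i => ?_)
  fin_cases i
  · exact ContinuousOn.div (f := fun w : E 3 => w 0) (by fun_prop) (by fun_prop) h2
  · exact ContinuousOn.div (f := fun w : E 3 => w 1) (by fun_prop) (by fun_prop) h2
  · exact (continuous_const.mul h1).continuousOn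

theorem iddP_det (ε : ℝ) (y : E 3) :
    (fderiv ℝ (iddP ε) y).det = 8 * ε ^ 2 * (ε * y 2) * (y 0 ^ 2 + y 1 ^ 2 + y 2 ^ 2) := by
  have p : ∀ i, HasStrictFDerivAt (fun x : E 3 => x i) (EuclideanSpace.proj i : E 3 →L[ℝ] ℝ) y :=
    fun i => (EuclideanSpace.proj i : E 3 →L[ℝ] ℝ).hasStrictFDerivAt
  have h : HasStrictFDerivAt (iddP ε) (fr ![!₂[ε * (2 * y 2), 0, ε * (-2 * y 0)],
      !₂[0, ε * (2 * y 2), ε * (-2 * y 1)],
      (!₂[ε * (2 * y 0), ε * (2 * y 1), ε * (2 * y 2)] : E 3)]) y := by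
    refine hasStrictFDerivAt_euclidean.2 fun i => ?_
    fin_cases i
    · refine ((((p 2).const_mul 2).mul (p 0)).const_mul ε).congr_fderiv ?_
      ext v
      simp [fr_apply, Fin.sum_univ_three]
      ring
    · refine ((((p 2).const_mul 2).mul (p 1)).const_mul ε).congr_fderiv ?_
      ext v
      simp [fr_apply, Fin.sum_univ_three]
      ring
    · refine (((((p 2).pow 2).sub ((p 0).pow 2)).sub ((p 1).pow 2)).const_mul ε).congr_fderiv ?_
      ext v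
      simp [fr_apply, Fin.sum_univ_three]
      ring
  rw [h.hasFDerivAt.fderiv, det_fr, Matrix.det_fin_three]
  simp
  ring

theorem iddP_nrm {ε : ℝ} (hε : ε ^ 2 = 1) {y : E 3} (hy : y ≠ 0) :
    nrm (iddP ε y) = ε • pin (nrm y) := by
  have h1 := mem_S2.1 (nrm_mem hy)
  have h2 : iddP ε (nrm y) = ε • pin (nrm y) := by
    refine ml_ext ?_ ?_ ?_ <;>
      simp only [iddP, pin, PiLp.smul_apply, PiLp.toLp_apply, Matrix.cons_val, smul_eq_mul]
    linear_combination (-ε) * h1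
  rw [← h2, nrm, iddP_norm hε]
  refine ml_ext ?_ ?_ ?_ <;>
    simp only [iddP, nrm, PiLp.smul_apply, PiLp.toLp_apply, Matrix.cons_val, smul_eq_mul] <;> ring

/-- the contribution of a half space -/
theorem idd_side (h : BS D b) {ε : ℝ} (hε : ε ^ 2 = 1) (hD : ∀ x ∈ B3, D x ≠ b (-(ε • npole)))
    {g : V6 → c.Y} (hg : ∀ v : V6, 0 < ε * v.2 2 → g v = b (ε • pin (nrm v.2))) :
    c.ind (ball 0 1 ×ˢ {y : E 3 | 0 < ε * y 2}) (fun v => D v.1) g (fun v => ‖v.2‖ ^ 2 - 1) =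
      c.inter D b := by
  obtain ⟨a1, a2⟩ := idd_half h (A := {y : E 3 | 0 < ε * y 2}) (U := {w | 0 < ‖w‖ + ε * w 2})
    (isOpen_lt continuous_const (by fun_prop)) (isOpen_lt continuous_const (by fun_prop))
    (fun w hw e => by
      rw [mem_singleton_iff.1 e] at hw
      simp at hw)
    (fun x hx w hw e => by
      by_contra hc
      have h1 : ‖w‖ + ε * w 2 ≤ 0 := not_lt.1 hc
      rw [mem_sphere_zero_iff_norm.1 hw] at h1
      have h2 := mem_S2.1 hw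
      have h3 : (ε * w 2) ^ 2 = w 2 ^ 2 := by linear_combination w 2 ^ 2 * hε
      have h4 : w 0 = 0 := by nlinarith
      have h5 : w 1 = 0 := by nlinarith
      have h6 : ε * w 2 = -1 := by nlinarith
      refine hD x hx (e.trans (congrArg b (ml_ext ?_ ?_ ?_)))
      · simp [npole, h4]
      · simp [npole, h5]
      · simp only [npole, PiLp.neg_apply, PiLp.smul_apply, Matrix.cons_val, smul_eq_mul]
        linear_combination ε * h6 - w 2 * hε)
    (iddP_cd ε) (iddQ_cont ε)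
    (fun y hy => by
      have h1 := iddP_two hε y
      have h2 : 0 < (ε * y 2) ^ 2 := pow_pos hy 2
      show 0 < ‖iddP ε y‖ + ε * iddP ε y 2
      linarith)
    (fun w hw => by
      have h1 : 0 < √((‖w‖ + ε * w 2) / 2) := Real.sqrt_pos.2 (half_pos hw)
      show 0 < ε * (ε * √((‖w‖ + ε * w 2) / 2))
      rw [← mul_assoc, ← sq, hε, one_mul]
      exact h1)
    (fun y hy => iddQ_P hε hy) (fun w hw => iddP_Q hε hw)
    fun y hy => by
      have h1 : 0 < ε * y 2 := hy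
      have h2 : y 2 ≠ 0 := right_ne_zero_of_mul h1.ne'
      rw [iddP_det, hε]
      positivity
  refine Eq.trans (a1.congr (fun _ _ => rfl) (fun v hv => ?_) fun v _ => ?_).2 a2
  · have h1 : 0 < ε * v.2 2 := hv.2
    have h2 : v.2 ≠ 0 := fun e => by simp [e] at h1
    rw [hg v h1, ← iddP_nrm hε h2]
  · simp only [iddP_norm hε]
/-- Sketch. Split `O6` into `v.2 2 > 0` and `v.2 2 < 0` (`ind_sum`). Let
`pq (z, s) = (2 s z, s ^ 2 - ‖z‖ ^ 2)`: `‖pq y‖ = ‖y‖ ^ 2`, `nrm (pq y) = pin (nrm y)`,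
`det = 8 s ‖y‖ ^ 2`; it is a diffeomorphism of `{s > 0}` onto the complement of the ray
`{(0, t) | t ≤ 0}` with inverse `s = √((‖w‖ + w 2) / 2)`, `z = (w 0, w 1) / (2 s)`; `-pq` maps `{s < 0}` onto
the complement of the opposite ray. `ind_diffeo`, `IAdm.excise`; the constraints `‖y‖ ^ 2 - 1` and
`‖y‖ - 1` are compared first, on `O6`, by `ind_constraint`. -/
theorem inter_ssum (h₁ : BS D b₁) (h₂ : BS D b₂) (he : b₁ (-npole) = b₂ npole)
    (hD : ∀ x ∈ B3, D x ≠ b₂ npole) : c.inter D (ssum b₁ b₂) = c.inter D b₁ + c.inter D b₂ := by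
  have h : BS D (ssum b₁ b₂) := by
    refine ⟨h₁.ball, continuousOn_ssum (Or.inl rfl) h₁.sph h₂.sph he, fun x hx y hy => ?_⟩
    unfold ssum
    split_ifs
    · exact h₁.dj x hx _ (pin_mem_S2 hy)
    · exact h₂.dj x hx _ (by simpa using pin_mem_S2 hy)
  have Ec := ind_constraint (c := c) h (k₀ := fun v => ‖v.2‖ - 1) (k₁ := fun v => ‖v.2‖ ^ 2 - 1)
    (by fun_prop) (by fun_prop) (r := 1) (R := 1) one_pos fun t ht y _ x _ hz => by
      dsimp only at hz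
      have h1 : (‖y‖ - 1) * (1 + t * ‖y‖) = 0 := by linear_combination hz
      have h2 : 0 < 1 + t * ‖y‖ := by
        have := mul_nonneg ht.1 (norm_nonneg y)
        linarith
      have h3 := sub_eq_zero.1 ((mul_eq_zero_iff_right h2.ne').1 h1)
      exact ⟨h3.ge, h3.le⟩
  have eZ : Zc O6 (fun v => D v.1) (fun v => ssum b₁ b₂ (nrm v.2)) (fun v => ‖v.2‖ ^ 2 - 1) =
      Zc O6 (fun v => D v.1) (fun v => ssum b₁ b₂ (nrm v.2)) (fun v => ‖v.2‖ - 1) := by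
    ext v
    simp only [Zc, mem_ofPred_eq, sub_eq_zero, pow_eq_one_iff_of_nonneg (norm_nonneg _) two_ne_zero]
  have a0 := inter_adm h
  have a1 : c.IAdm O6 (fun v => D v.1) (fun v => ssum b₁ b₂ (nrm v.2)) fun v => ‖v.2‖ ^ 2 - 1 :=
    ⟨a0.op, a0.cf, a0.cg, by fun_prop, by rw [eZ]; exact a0.cpt, by rw [eZ]; exact a0.flat⟩
  have hs : ∀ y : E 3, y ≠ 0 → 0 < ‖y‖⁻¹ ∧ nrm y 2 = ‖y‖⁻¹ * y 2 := fun y hy =>
    ⟨inv_pos.2 (norm_pos_iff.2 hy), rfl⟩
  have S := (ind_sum ({1, -1} : Finset ℝ) (W := fun ε => ball 0 1 ×ˢ {y : E 3 | 0 < ε * y 2}) a1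
    (fun ε _ => ⟨isOpen_ball.prod (isOpen_lt continuous_const (by fun_prop)),
      prod_mono Subset.rfl fun y hy e => by
        rw [mem_singleton_iff.1 e] at hy
        simp at hy⟩)
    (fun i hi j hj hij => by
      refine disjoint_left.2 fun v h1 h2 => ?_
      have h3 : 0 < i * v.2 2 := h1.2
      have h4 : 0 < j * v.2 2 := h2.2
      simp only [Finset.mem_insert, Finset.mem_singleton] at hi hj
      rcases hi with rfl | rfl <;> rcases hj with rfl | rfl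
      · exact hij rfl
      · linarith
      · linarith
      · exact hij rfl)
    fun v hv => by
      rcases lt_trichotomy (v.2 2) 0 with h1 | h1 | h1
      · exact mem_iUnion₂.2 ⟨-1, by simp, mk_mem_prod hv.1.1 (by simpa using h1)⟩
      · have h2 : nrm v.2 2 = 0 := by rw [(hs v.2 hv.1.2).2, h1, mul_zero]
        have h3 : D v.1 = ssum b₁ b₂ (nrm v.2) := hv.2.1
        rw [ssum, if_pos h2.ge, pin_of_eq_zero h2, he] at h3
        exact absurd h3 (hD _ (ball_subset_closedBall hv.1.1))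
      · exact mem_iUnion₂.2 ⟨1, by simp, mk_mem_prod hv.1.1 (by simpa using h1)⟩).2
  rw [Finset.sum_pair (by norm_num)] at S
  refine Ec.trans (S.trans ?_)
  rw [idd_side h₁ (ε := 1) (by norm_num) (fun x hx => by rw [one_smul, he]; exact hD x hx),
    idd_side h₂ (ε := -1) (by norm_num) (fun x hx => by simpa using hD x hx)]
  · intro v hv
    have h1 : v.2 2 < 0 := by linarith
    have h2 := hs v.2 fun e => by simp [e] at h1
    have h3 : nrm v.2 2 < 0 := by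
      rw [h2.2]
      exact mul_neg_of_pos_of_neg h2.1 h1
    simp only [ssum, if_neg (not_le.2 h3), neg_smul, one_smul]
  · intro v hv
    have h1 : 0 < v.2 2 := by linarith
    have h2 := hs v.2 fun e => by simp [e] at h1
    have h3 : 0 < nrm v.2 2 := by
      rw [h2.2]
      exact mul_pos h2.1 h1
    simp only [ssum, if_pos h3.le, one_smul]

end Ctx

end Pool.Agent.CSP
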