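import Pool.Agent.Lib.MP_436e1a_gt.E.Inter

/-! The sign of a single transverse intersection. -/

open Set Metric

namespace Pool.Agent.CSP

theorem isg_det {L : V6 →L[ℝ] V6} {B : E 5 →L[ℝ] E 5} {M : E 3 →L[ℝ] E 3}
    (h : ∀ u s, L (pr3 u, M !₂[u 3, u 4, s]) = j6 (B u) s) : L.det * M.det = B.det := by
  obtain ⟨J, hJ⟩ := exists_j6
  have e : (L : V6 →ₗ[ℝ] V6) ∘ₗ LinearMap.prodMap LinearMap.id (M : E 3 →ₗ[ℝ] E 3) =
      (J.toLinearEquiv : E 5 × ℝ →ₗ[ℝ] V6) ∘ₗ LinearMap.prodMap (B : E 5 →ₗ[ℝ] E 5) LinearMap.id ∘ₗ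
        (J.toLinearEquiv.symm : V6 →ₗ[ℝ] E 5 × ℝ) := LinearMap.ext fun v => by
    obtain ⟨⟨u, s⟩, rfl⟩ := J.surjective v
    change L (LinearMap.prodMap LinearMap.id (M : E 3 →ₗ[ℝ] E 3) (J (u, s))) =
      J (LinearMap.prodMap (B : E 5 →ₗ[ℝ] E 5) LinearMap.id (J.symm (J (u, s))))
    rw [J.symm_apply_apply, hJ]
    exact (h u s).trans (hJ _ _).symm
  have e1 := congrArg LinearMap.det e
  rwa [LinearMap.det_conj, LinearMap.det_comp, LinearMap.det_prodMap, LinearMap.det_prodMap,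
    LinearMap.det_id, LinearMap.det_id, one_mul, mul_one] at e1

theorem isg_neg : (fr ![(!₂[-1, 0, 0, 0, 0] : E 5), !₂[0, -1, 0, 0, 0], !₂[0, 0, -1, 0, 0],
    !₂[0, 0, 0, 1, 0], !₂[0, 0, 0, 0, 1]]).det = -1 := by
  have : (Matrix.of fun i k => (![(!₂[-1, 0, 0, 0, 0] : E 5), !₂[0, -1, 0, 0, 0], !₂[0, 0, -1, 0, 0],
      !₂[0, 0, 0, 1, 0], !₂[0, 0, 0, 0, 1]] k) i) = Matrix.diagonal ![-1, -1, -1, 1, 1] := by
    ext i j
    fin_cases i <;> fin_cases j <;> rfl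
  rw [det_fr, this, Matrix.det_diagonal]
  simp [Fin.prod_univ_succ]

namespace Ctx

variable {c : Ctx} {D b : E 3 → c.Y}

theorem inter_sign (h : BS D b) {x₀ y₀ : E 3} (hx : x₀ ∈ ball (0 : E 3) 1) (hy : y₀ ∈ S2)
    (hu : ∀ x ∈ B3, ∀ y ∈ S2, D x = b y ↔ x = x₀ ∧ y = y₀)
    (d₁ : DifferentiableAt ℝ (c.am D) x₀) (d₂ : DifferentiableAt ℝ (c.am b) y₀)
    {w₁ w₂ : E 3} (hw : OB y₀ w₁ w₂) {ε : ℤˣ}
    (hs : c.Sgn (c.q (D x₀)) (fr ![fderiv ℝ (c.am D) x₀ !₂[1, 0, 0], fderiv ℝ (c.am D) x₀ !₂[0, 1, 0],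
      fderiv ℝ (c.am D) x₀ !₂[0, 0, 1], fderiv ℝ (c.am b) y₀ w₁, fderiv ℝ (c.am b) y₀ w₂]) ε) :
    c.inter D b = - (ε : ℤ) := by
  have hn : ‖y₀‖ = 1 := mem_sphere_zero_iff_norm.1 hy
  have h0 := ne_zero_of_S2 hy
  have hZ : Zc O6 (fun v => D v.1) (fun v => b (nrm v.2)) (fun v => ‖v.2‖ - 1) = {(x₀, y₀)} := by
    ext v
    constructor
    · rintro ⟨h1, h2, h3⟩
      have h4 : v.2 ∈ S2 := mem_sphere_zero_iff_norm.2 (sub_eq_zero.1 h3)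
      simp only [nrm_of_S2 h4] at h2
      obtain ⟨h5, h6⟩ := (hu _ (ball_subset_closedBall h1.1) _ h4).1 h2
      exact Prod.ext h5 h6
    · rintro rfl
      exact ⟨⟨hx, h0⟩, by
        simpa only [nrm_of_S2 hy] using (hu _ (ball_subset_closedBall hx) _ hy).2 ⟨rfl, rfl⟩,
        sub_eq_zero.2 hn⟩
  obtain ⟨C, hC⟩ := exists_cof (c.q (D x₀))
  obtain ⟨J, hJ⟩ := exists_j6
  have h1 := (hasStrictFDerivAt_norm_sq y₀).hasFDerivAt.sqrt (by simp [hn])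
  simp only [Real.sqrt_sq (norm_nonneg _)] at h1
  have h2 : DifferentiableAt ℝ nrm y₀ :=
    (contDiffOn_nrm.contDiffAt (isOpen_compl_singleton.mem_nhds h0)).differentiableAt (by simp)
  have h3 : HasFDerivAt (c.am b) (fderiv ℝ (c.am b) y₀) (nrm y₀) := by
    rw [nrm_of_S2 hy]
    exact d₂.hasFDerivAt
  have h4 := J.hasFDerivAt.comp (x₀, y₀) ((C.hasFDerivAt.comp (x₀, y₀)
    (((h3.comp y₀ h2.hasFDerivAt).comp (x₀, y₀) (hasFDerivAt_snd (p := (x₀, y₀)))).sub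
      (d₁.hasFDerivAt.comp (x₀, y₀) (hasFDerivAt_fst (p := (x₀, y₀)))))).prodMk
    ((h1.comp (x₀, y₀) (hasFDerivAt_snd (p := (x₀, y₀)))).sub_const 1))
  have h5 := (hC.sgn_iff.1 hs).2
  have hM : (fr ![w₁, w₂, y₀]).det = det3 y₀ w₁ w₂ := by
    rw [det_fr, Matrix.det_fin_three]
    simp [det3]
    ring
  refine ind_single (s := -ε) (inter_adm h) hZ hC
    (h4.congr_of_eventuallyEq (.of_forall fun v => (hJ _ _).symm)) ?_
  refine (pos_iff_pos_of_mul_pos ?_).2 hw.2.2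
  have h6 := neg_pos.2 (mul_neg_of_pos_of_neg h5 (isg_neg.trans_lt neg_one_lt_zero))
  rw [mul_assoc, ← sgn_det_comp] at h6
  rw [mul_assoc, ← hM, isg_det fun u s => ?_]
  · rwa [Units.val_neg, Int.cast_neg, neg_mul]
  · have e1 : inner ℝ y₀ (fr ![w₁, w₂, y₀] !₂[u 3, u 4, s]) = s := by
      simp [fr_apply, Fin.sum_univ_three, inner_add_right, inner_smul_right, hw.1, hw.2.1, hn]
    have e2 : pr3 u = u 0 • !₂[1, 0, 0] + u 1 • !₂[0, 1, 0] + u 2 • !₂[0, 0, 1] := by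
      ext i
      fin_cases i <;> simp [pr3]
    refine (hJ _ _).trans (congrArg₂ j6 (congrArg C ?_) ?_)
    · simp [e2, fr_apply, Fin.sum_univ_succ, fderiv_nrm hn, inner_add_right, inner_smul_right, hw.1,
        hw.2.1, hn]
      abel
    · simpa [hn] using e1

end Ctx

end Pool.Agent.CSP
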