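import Pool.Agent.Lib.MP_436e1a_gt.E.Inter

/-! Two balls with disjoint boundaries. -/

open Set Metric

namespace Pool.Agent.CSP

/-- the exchange of the factors has determinant `-1` -/
theorem isw_det : (ContinuousLinearEquiv.prodComm ℝ (E 3) (E 3) : V6 →L[ℝ] V6).det = -1 := by
  let b := (EuclideanSpace.basisFun (Fin 3) ℝ).toBasis
  have e : LinearMap.toMatrix (b.prod b) (b.prod b)
      ((ContinuousLinearEquiv.prodComm ℝ (E 3) (E 3) : V6 →L[ℝ] V6) : V6 →ₗ[ℝ] V6) =
      Matrix.fromBlocks 1 1 0 1 * Matrix.fromBlocks (-1) 0 1 1 * Matrix.fromBlocks 1 (-1) 0 1 := by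
    rw [Matrix.fromBlocks_multiply, Matrix.fromBlocks_multiply]
    ext (i | i) (j | j) <;> simp [LinearMap.toMatrix_apply, Matrix.one_apply, Finsupp.single_apply,
      eq_comm]
  rw [ContinuousLinearMap.det, ← LinearMap.det_toMatrix (b.prod b), e, Matrix.det_mul, Matrix.det_mul,
    Matrix.det_fromBlocks_zero₂₁, Matrix.det_fromBlocks_zero₁₂, Matrix.det_fromBlocks_zero₂₁,
    Matrix.det_neg]
  norm_num

/-- the scale -/
noncomputable def iswM (x y : E 3) : ℝ := max ‖x‖ (min 1 (1 + ‖y‖ - ‖x‖))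

/-- a map to the ball that is `x` or `nrm x` -/
noncomputable def iswR (x y : E 3) : E 3 := (iswM x y)⁻¹ • x

/-- a neighbourhood of the product of the open ball and the sphere -/
def iswW : Set V6 := {v | ‖v.1‖ < 1 ∧ 1 + ‖v.1‖ < 2 * ‖v.2‖}

theorem iswM_pos (x y : E 3) : 0 < iswM x y := by
  rcases (norm_nonneg x).eq_or_lt with h | h
  · refine lt_max_of_lt_right (lt_min one_pos ?_)
    linarith [norm_nonneg y]
  · exact lt_max_of_lt_left h

theorem iswR_mem (x y : E 3) : iswR x y ∈ B3 := by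
  rw [mem_closedBall_zero_iff, iswR, norm_smul, norm_inv, Real.norm_of_nonneg (iswM_pos x y).le,
    inv_mul_le_one₀ (iswM_pos x y)]
  exact le_max_left _ _

theorem iswR_cont {T : Type} [TopologicalSpace T] {a b : T → E 3} (ha : Continuous a)
    (hb : Continuous b) : Continuous fun t => iswR (a t) (b t) :=
  (Continuous.inv₀ (f := fun t => iswM (a t) (b t)) (by unfold iswM; fun_prop)
    fun _ => (iswM_pos _ _).ne').smul ha

theorem iswR_self {x y : E 3} (h : ‖x‖ ≤ 1) (h' : ‖x‖ ≤ ‖y‖) : iswR x y = x := by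
  rw [iswR, iswM, min_eq_left (by linarith), max_eq_right h, inv_one, one_smul]

theorem iswR_nrm {x y : E 3} (h : 1 + ‖y‖ < 2 * ‖x‖) : iswR x y = nrm x := by
  rw [iswR, iswM, max_eq_left (min_le_of_right_le (by linarith)), nrm]

theorem iswW_open : IsOpen iswW :=
  IsOpen.and (isOpen_lt (by fun_prop) (by fun_prop)) (isOpen_lt (by fun_prop) (by fun_prop))

namespace Ctx

variable {c : Ctx} {D D' : E 3 → c.Y}

theorem isw_exc (h : ContinuousOn D B3) (h' : ContinuousOn D' B3) (hd : Dj D D') :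
    c.IAdm iswW (fun v => D v.1) (fun v => D' (nrm v.2)) (fun v => ‖v.2‖ - 1) ∧
      c.ind iswW (fun v => D v.1) (fun v => D' (nrm v.2)) (fun v => ‖v.2‖ - 1) = c.inter D D' := by
  refine (inter_adm ⟨h, h'.mono sphere_subset_closedBall, hd⟩).excise iswW_open
    (fun v hv => ⟨mem_ball_zero_iff.2 hv.1, fun e => ?_⟩) fun v hv => ?_
  · have h1 := hv.2
    rw [mem_singleton_iff.1 e, norm_zero] at h1
    linarith [norm_nonneg v.1]
  · have h1 := mem_ball_zero_iff.1 hv.1.1
    have h2 : ‖v.2‖ - 1 = 0 := hv.2.2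
    exact ⟨h1, by linarith⟩

theorem isw_zero (h : ContinuousOn D B3) (h' : ContinuousOn D' B3) :
    c.IAdm univ (fun v => D (iswR v.1 v.2)) (fun v => D' (iswR v.2 v.1)) (fun v => ‖v‖ - 1) ∧
      c.ind univ (fun v => D (iswR v.1 v.2)) (fun v => D' (iswR v.2 v.1)) (fun v => ‖v‖ - 1) = 0 := by
  have c1 : Continuous fun p : ℝ × V6 => iswR p.2.1 p.2.2 := iswR_cont (by fun_prop) (by fun_prop)
  have c2 : Continuous fun p : ℝ × V6 => iswR p.2.2 p.2.1 := iswR_cont (by fun_prop) (by fun_prop)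
  have c3 : Continuous fun p : ℝ × V6 => D (iswR p.2.1 p.2.2) :=
    h.comp_continuous c1 fun _ => iswR_mem _ _
  have c4 : Continuous fun p : ℝ × V6 => D' (iswR p.2.2 p.2.1) :=
    h'.comp_continuous c2 fun _ => iswR_mem _ _
  have c5 : Continuous fun p : ℝ × V6 => ‖p.2‖ - 1 + 2 * p.1 := by fun_prop
  obtain ⟨h1, h2⟩ := ind_htpy isOpen_univ c3.continuousOn c4.continuousOn c5.continuousOn
    (((isCompact_Icc (a := (0 : ℝ)) (b := 1)).prod (isCompact_closedBall (0 : V6) 1)).of_isClosed_subset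
      ((isClosed_univ.inter (isClosed_Icc.prod isClosed_univ)).inter ((isClosed_eq c3 c4).inter
        (isClosed_eq c5 continuous_const))) fun p hp => ⟨hp.1.2.1, mem_closedBall_zero_iff.2 (by
          have h3 : ‖p.2‖ - 1 + 2 * p.1 = 0 := hp.2.2
          linarith [hp.1.2.1.1])⟩)
    ((flat_star (isCompact_closedBall _ _) ((convex_closedBall (0 : E 3) 1).starConvex
      (mem_closedBall_self zero_le_one)) h).comp c1.continuousOn fun _ _ => iswR_mem _ _)
  rw [ind_empty (h1 1 ⟨zero_le_one, le_rfl⟩) (eq_empty_of_forall_notMem fun v hv => by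
    have h3 : ‖v‖ - 1 + 2 * 1 = 0 := hv.2.2
    linarith [norm_nonneg v])] at h2
  have h3 := (h1 0 ⟨le_rfl, zero_le_one⟩).congr (k' := fun v => ‖v‖ - 1) (fun _ _ => rfl)
    (fun _ _ => rfl) fun v _ => by simp
  exact ⟨h3.1, h3.2.trans h2⟩

/-- The index of the coincidences on the boundary of the product of the balls is zero; split it. -/
theorem inter_swap (h : ContinuousOn D B3) (h' : ContinuousOn D' B3) (hd : Dj D D') :
    c.inter D D' = - c.inter D' D := by
  obtain ⟨a0, i0⟩ := isw_zero h h'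
  obtain ⟨a1, i1⟩ := isw_exc h h' hd
  obtain ⟨a2, i2⟩ := isw_exc h' h fun x hx y hy => (hd y hy x hx).symm
  have o2 : IsOpen (Prod.swap ⁻¹' iswW : Set V6) := iswW_open.preimage continuous_swap
  have lt : ∀ v ∈ iswW, ‖v.1‖ < ‖v.2‖ := fun v hv => by linarith [hv.1, hv.2]
  obtain ⟨a3, i3⟩ := ind_diffeo a2 o2 (Φ := Prod.swap) (Ψ := Prod.swap) (s := -1)
    (contDiff_snd.prodMk contDiff_fst).contDiffOn continuous_swap.continuousOn (fun _ hv => hv)
    (fun _ hv => hv) (fun _ _ => rfl) (fun _ _ => rfl) fun v _ => by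
      rw [show fderiv ℝ Prod.swap v = _ from (ContinuousLinearEquiv.prodComm ℝ (E 3) (E 3)).fderiv,
        isw_det]
      norm_num
  obtain ⟨a4, i4⟩ := ind_swap a3
  obtain ⟨-, i5⟩ := ind_sum (Finset.univ : Finset Bool)
    (W := fun b => bif b then iswW else Prod.swap ⁻¹' iswW) a0
    (fun b _ => ⟨by cases b; exacts [o2, iswW_open], subset_univ _⟩)
    (fun b _ b' _ hb => by
      have h1 : Disjoint iswW (Prod.swap ⁻¹' iswW : Set V6) :=
        disjoint_left.2 fun v hv hv' => lt_asymm (lt v hv) (lt v.swap hv')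
      cases b <;> cases b'
      exacts [(hb rfl).elim, h1.symm, h1, (hb rfl).elim])
    (fun v hv => by
      have h1 : max ‖v.1‖ ‖v.2‖ = 1 := sub_eq_zero.1 hv.2.2
      rcases lt_trichotomy ‖v.1‖ ‖v.2‖ with h2 | h2 | h2
      · rw [max_eq_right h2.le] at h1
        exact mem_biUnion (Finset.mem_univ true) ⟨by linarith, by linarith⟩
      · rw [h2, max_self] at h1
        have h3 : D (iswR v.1 v.2) = D' (iswR v.2 v.1) := hv.2.1
        rw [iswR_self (h2.trans h1).le h2.le, iswR_self h1.le h2.ge] at h3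
        exact (hd _ (mem_sphere_zero_iff_norm.2 (h2.trans h1)) _ (mem_sphere_zero_iff_norm.2 h1)
          h3).elim
      · rw [max_eq_left h2.le] at h1
        refine mem_biUnion (Finset.mem_univ false) ⟨?_, ?_⟩
        · show ‖v.2‖ < 1
          linarith
        · show 1 + ‖v.2‖ < 2 * ‖v.1‖
          linarith)
  rw [i0, Fintype.sum_bool, cond_true, cond_false,
    (a1.congr (k' := fun v => ‖v‖ - 1) (fun v hv => congrArg D (iswR_self hv.1.le (lt v hv).le))
      (fun v hv => congrArg D' (iswR_nrm hv.2))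
      fun v hv => congrArg (· - 1) (max_eq_right (lt v hv).le)).2,
    (a4.congr (f' := fun v => D (iswR v.1 v.2)) (g' := fun v => D' (iswR v.2 v.1))
      (k' := fun v => ‖v‖ - 1) (fun v hv => congrArg D (iswR_nrm hv.2))
      (fun v hv => congrArg D' (iswR_self hv.1.le (lt v.swap hv).le))
      fun v hv => congrArg (· - 1) (max_eq_left (lt v.swap hv).le)).2, i4, i3, i1, i2] at i5
  simp only [Units.val_neg, Units.val_one] at i5
  linarith

end Ctx

end Pool.Agent.CSP
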