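import Pool.Agent.Lib.MP_436e1a_gt.E.Lk
import Pool.Agent.Lib.MP_436e1a_gt.D.Avoid
import Pool.Agent.Lib.MP_436e1a_gt.Alg.Gf

/-! The linking form on torsion spheres. -/

open Set Metric

namespace Pool.Agent.CSP

namespace Ctx

variable {c : Ctx} {a a' b b' b₁ b₂ : E 3 → c.Y}

/-- representatives with disjoint projections (`avoid_S2` twice) -/
theorem exists_dj (ha : ContinuousOn a S2) (hb : ContinuousOn b S2) :
    ∃ a' b', HtpOn S2 a a' ∧ HtpOn S2 b b' ∧ ∀ g : c.G, Dj a' fun y => g • b' y := by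
  obtain ⟨b', -, h1, h2, -⟩ := avoid_S2 hb thin_empty
  obtain ⟨a', -, h3, -, h4⟩ := avoid_S2 ha h2
  refine ⟨a', b', h3, h1, fun g x hx y hy e => h4 x hx ⟨y, hy, ?_⟩⟩
  rw [am, am, e, c.q_smul]

theorem lam_dj (ha : ContinuousOn a S2) (hb : ContinuousOn b S2) :
    ∃ a' b', HtpOn S2 a a' ∧ HtpOn S2 b b' ∧ Dj a' b' := by
  obtain ⟨a', b', h1, h2, h3⟩ := exists_dj ha hb
  exact ⟨a', b', h1, h2, by simpa only [one_smul] using h3 1⟩

theorem lam_eq (ha : Tors a) (hb : Tors b) (H₁ : HtpOn S2 a a') (H₂ : HtpOn S2 b b')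
    (h : Dj a' b') : c.lam a b = (c.lk a' b' : ZMod 3) := by
  have h0 : ∃ p : (E 3 → c.Y) × (E 3 → c.Y), HtpOn S2 a p.1 ∧ HtpOn S2 b p.2 ∧ Dj p.1 p.2 :=
    ⟨(a', b'), H₁, H₂, h⟩
  obtain ⟨h1, h2, h3⟩ := h0.choose_spec
  rw [lam, dif_pos h0]
  exact lk_mod (ha.htp H₁) (hb.htp H₂) h h3 (H₁.symm.trans h1) (H₂.symm.trans h2)

theorem lam_htp (ha : Tors a) (hb : Tors b) (H₁ : HtpOn S2 a a') (H₂ : HtpOn S2 b b') :
    c.lam a' b' = c.lam a b := by
  obtain ⟨a₁, b₁, h1, h2, h3⟩ := lam_dj H₁.right H₂.right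
  rw [lam_eq (ha.htp H₁) (hb.htp H₂) h1 h2 h3, lam_eq ha hb (H₁.trans h1) (H₂.trans h2) h3]

theorem lam_skew (ha : Tors a) (hb : Tors b) : c.lam b a = - c.lam a b := by
  obtain ⟨a₁, b₁, h1, h2, h3⟩ := lam_dj ha.1 hb.1
  rw [lam_eq ha hb h1 h2 h3, lam_eq hb ha h2 h1 fun x hx y hy => (h3 y hy x hx).symm,
    lk_skew (ha.htp h1) (hb.htp h2) h3, Int.cast_neg]

theorem lam_self (ha : Tors a) : c.lam a a = 0 := by
  have h := lam_skew ha ha
  generalize c.lam a a = x at h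
  revert x
  decide

theorem lam_smul (ha : Tors a) (hb : Tors b) (g : c.G) :
    c.lam (fun x => g • a x) (fun y => g • b y) = c.lam a b := by
  obtain ⟨a₁, b₁, h1, h2, h3⟩ := lam_dj ha.1 hb.1
  have hg := c.continuous_smul g
  rw [lam_eq ha hb h1 h2 h3, lam_eq (ha.map hg) (hb.map hg) (h1.map hg) (h2.map hg)
    fun x hx y hy e => h3 x hx y hy (smul_left_cancel g e), lk_smul (ha.htp h1) (hb.htp h2) h3]

theorem lam_rf (ha : Tors a) (hb : Tors b) : c.lam a (fun y => b (rf3 y)) = - c.lam a b := by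
  obtain ⟨a₁, b₁, h1, h2, h3⟩ := lam_dj ha.1 hb.1
  have hm : MapsTo rf3 S2 S2 := fun x hx => by
    rwa [mem_sphere_zero_iff_norm, norm_rf3, ← mem_sphere_zero_iff_norm]
  rw [lam_eq ha hb h1 h2 h3, lam_eq (b := fun y => b (rf3 y)) ha (hb.rfb true) h1
    (h2.comp contDiff_rf3.continuous.continuousOn hm) fun x hx y hy => h3 x hx _ (hm hy),
    lk_rf (ha.htp h1) (hb.htp h2) h3, Int.cast_neg]

theorem lam_fin (ha : Tors a) (hb : Tors b) :
    {g : c.G | c.lam a (fun y => g • b y) ≠ 0}.Finite := by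
  obtain ⟨a₁, b₁, h1, h2, h3⟩ := exists_dj ha.1 hb.1
  refine (lk_fin (ha.htp h1) (hb.htp h2)).subset fun g hg => ⟨h3 g, fun h0 => hg ?_⟩
  have hg := c.continuous_smul g
  rw [lam_eq ha (hb.map hg) h1 (h2.map hg) (h3 g), h0, Int.cast_zero]

/-- a null-homotopic sphere: move `b` off the point (`avoid_S2`), use the constant ball -/
theorem lam_null {y₀ : c.Y} (H : HtpOn S2 a fun _ => y₀) (hb : Tors b) : c.lam a b = 0 := by
  obtain ⟨b', h1, h2, -, h3⟩ := avoid_S2 hb.1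
    ((thin_singleton (c.ι (c.q y₀))).of_le (Nat.zero_le 2))
  have h4 : ∀ y ∈ S2, y₀ ≠ b' y := fun y hy e => h3 y hy (by rw [am, ← e]; rfl)
  have h5 : Tors fun _ : E 3 => y₀ := ⟨continuousOn_const, _, continuousOn_const, fun _ _ => rfl⟩
  have h6 : Dj (fun _ : E 3 => y₀) b' := fun _ _ => h4
  rw [lam_eq (h5.htp H.symm) hb H h2 h6, lk_eq h5 (hb.htp h2) h6 continuousOn_const fun _ _ => rfl,
    inter_empty ⟨continuousOn_const, h1, h6⟩ fun _ _ => h4, Int.cast_zero]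

/-- a thin representative that keeps the value at one point -/
theorem lam_thin (ha : ContinuousOn a S2) (x₀ : E 3) (hx : x₀ ∈ S2) :
    ∃ a', HtpOn S2 a a' ∧ a' x₀ = a x₀ ∧ Thin 2 (c.am a' '' S2) := by
  obtain ⟨H, H1, H2, H3, -, O, g, hO, hKO, hg, he⟩ :=
    avoid (c := c) (isCompact_sphere (0 : E 3) 1) (isClosed_singleton (x := x₀)) ha (ι := Empty)
      (k := fun _ => 0) (l := fun _ => 0) (T := fun _ => ∅) (A := fun _ => ∅) (fun _ => thin_empty)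
      (fun _ => thin_empty) (fun _ => Nat.zero_le _) one_pos
  refine ⟨fun x => H (1, x), ⟨H, H1, H2, fun _ _ => rfl⟩,
    (H3 1 ⟨zero_le_one, le_rfl⟩ x₀ hx).1 rfl, ?_⟩
  refine (((thin_S2.mono sdiff_subset).image hO hKO hg).union
    ((thin_singleton (c.am H (1, x₀))).of_le (Nat.zero_le 2))).mono ?_
  rintro _ ⟨x, h1, rfl⟩
  by_cases h2 : x = x₀
  · exact Or.inr (by rw [h2]; rfl)
  · exact Or.inl ⟨x, ⟨h1, h2⟩, (he x ⟨h1, h2⟩).symm⟩

/-- a ball that misses a point -/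
theorem lam_ball (ha : Tors a) {y₀ : c.Y} (h : ∀ x ∈ S2, a x ≠ y₀) :
    ∃ D, ContinuousOn D B3 ∧ (∀ x ∈ S2, D x = a (dd x)) ∧ ∀ x ∈ B3, D x ≠ y₀ := by
  obtain ⟨-, D, hD, e⟩ := ha
  obtain ⟨H, H1, -, H3, H4, -⟩ :=
    avoid (c := c) (isCompact_closedBall (0 : E 3) 1) (isClosed_sphere (x := (0 : E 3)) (ε := 1)) hD
      (ι := Unit) (k := fun _ => 3) (l := fun _ => 0) (T := fun _ => univ)
      (A := fun _ => {c.ι (c.q y₀)})
      (fun _ => thin_of_finrank finrank_euclideanSpace_fin.le _) (fun _ => thin_singleton _)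
      (fun _ => by norm_num) one_pos
  have e' : ∀ x ∈ S2, H (1, x) = a (dd x) := fun x hx =>
    ((H3 1 ⟨zero_le_one, le_rfl⟩ x (sphere_subset_closedBall hx)).1 hx).trans (e x hx)
  refine ⟨fun x => H (1, x), H1.comp (continuous_const.prodMk continuous_id).continuousOn
    fun x hx => ⟨⟨zero_le_one, le_rfl⟩, hx⟩, e', fun x hx h0 => ?_⟩
  by_cases h1 : x ∈ S2
  · exact h _ (dd_mem (ne_zero_of_S2 h1)) ((e' x h1).symm.trans h0)
  · exact H4 () x hx trivial h1 (congrArg (fun y => c.ι (c.q y)) h0)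

/-- Additivity. Sketch. `exists_whisker` makes `b₁ (-npole) = b₂ npole`; put `z = ssum b₁ b₂`
(`Tors.ssum`). Given `a`: the map of the wedge `K = (npole + S2) ∪ (-npole + S2)` defined by `b₁`, `b₂` is
deformed by `avoid` (no conditions, `C = ∅`) to a map with thin image; this gives `b₁'`, `b₂'` with a common
point throughout, so `ssum b₁ b₂` is homotopic to `ssum b₁' b₂'`. Move `a` off this image (`avoid_S2`),
choose a ball `D` for `a'` and move it, relative to `S2`, off the common point (`avoid` with `K = B3`,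
`C = S2`, `k = 3`, `l = 0`). `lk_eq`, `inter_ssum`. -/
theorem lam_add [PathConnectedSpace c.Y] (h₁ : Tors b₁) (h₂ : Tors b₂) :
    ∃ z, Tors z ∧ ∀ a, Tors a → c.lam a z = c.lam a b₁ + c.lam a b₂ := by
  have hneg : ∀ x ∈ S2, -x ∈ S2 := fun x hx => by
    rwa [mem_sphere_zero_iff_norm, norm_neg, ← mem_sphere_zero_iff_norm]
  obtain ⟨d₂, -, H₂, T₂, -⟩ := avoid_S2 h₂.1 thin_empty
  obtain ⟨d, H, e⟩ := exists_whisker h₁.1 (PathConnectedSpace.joined (b₁ (-npole)) (d₂ npole))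
  obtain ⟨d₁, H', e', T₁⟩ := lam_thin H.right (-npole) (hneg _ npole_mem)
  have H₁ := H.trans H'
  have he := e'.trans e
  have t₁ := h₁.htp H₁
  have t₂ := h₂.htp H₂
  have tz := t₁.ssum t₂ he
  refine ⟨ssum d₁ d₂, tz, fun a ha => ?_⟩
  obtain ⟨a', -, Ha, -, h3⟩ := avoid_S2 ha.1 (T₁.union T₂)
  have ta := ha.htp Ha
  have j₁ : Dj a' d₁ := fun x hx y hy e => h3 x hx (Or.inl ⟨y, hy, by rw [am, am, e]⟩)
  have j₂ : Dj a' d₂ := fun x hx y hy e => h3 x hx (Or.inr ⟨y, hy, by rw [am, am, e]⟩)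
  have jz : Dj a' (ssum d₁ d₂) := fun x hx y hy => by
    rw [ssum]
    split_ifs
    · exact j₁ x hx _ (pin_mem_S2 hy)
    · exact j₂ x hx _ (hneg _ (pin_mem_S2 hy))
  obtain ⟨D, hD, eD, h4⟩ := lam_ball ta fun x hx => j₂ x hx _ npole_mem
  have bs : ∀ {b : E 3 → c.Y}, Tors b → Dj a' b → BS D b := fun hb hj =>
    ⟨hD, hb.1, fun x hx y hy => eD x hx ▸ hj _ (dd_mem (ne_zero_of_S2 hx)) y hy⟩
  rw [lam_eq ha tz Ha (HtpOn.refl tz.1) jz, lam_eq ha h₁ Ha H₁ j₁, lam_eq ha h₂ Ha H₂ j₂,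
    lk_eq ta tz jz hD eD, lk_eq ta t₁ j₁ hD eD, lk_eq ta t₂ j₂ hD eD,
    inter_ssum (bs t₁ j₁) (bs t₂ j₂) he h4, Int.cast_add]

/-- the set of torsion spheres -/
def TS (c : Ctx) : Type := {a : E 3 → c.Y // Tors a}

instance (c : Ctx) : MulAction c.G c.TS where
  smul g a := ⟨fun x => g • a.1 x, a.2.map (c.continuous_smul g)⟩
  one_smul a := Subtype.ext (funext fun x => one_smul c.G (a.1 x))
  mul_smul g h a := Subtype.ext (funext fun x => mul_smul g h (a.1 x))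

theorem TS.smul_val (g : c.G) (a : c.TS) : (g • a).1 = fun x => g • a.1 x := rfl

/-- the linking form as an invariant skew form -/
noncomputable def form (c : Ctx) : GF (ZMod 3) c.G c.TS where
  β a b := c.lam a.1 b.1
  inv g a b := lam_smul a.2 b.2 g
  skew a b := lam_skew a.2 b.2
  fin a b := lam_fin a.2 b.2

theorem form_add [PathConnectedSpace c.Y] (x y : c.TS) :
    ∃ z, ∀ t, c.form.β z t = c.form.β x t + c.form.β y t := by
  obtain ⟨z, hz, h⟩ := lam_add x.2 y.2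
  refine ⟨⟨z, hz⟩, fun t => ?_⟩
  show c.lam z t.1 = c.lam x.1 t.1 + c.lam y.1 t.1
  rw [lam_skew t.2 hz, lam_skew t.2 x.2, lam_skew t.2 y.2, h t.1 t.2, neg_add]

end Ctx

end Pool.Agent.CSP
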