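import Pool.Agent.Lib.MP_436e1a_gt.Lnk
import Pool.Agent.Lib.MP_436e1a_gt.A.MapsL

/-! Homotopies of maps of spheres, torsion spheres and their sums. -/

open Set

namespace Pool.Agent.CSP

section
variable {V V' Y Y' : Type} [TopologicalSpace V] [TopologicalSpace V'] [TopologicalSpace Y]
  [TopologicalSpace Y'] {K : Set V} {a b d : V → Y}

theorem tl_if {u v : V → ℝ} (hu : Continuous u) (hv : Continuous v)
    (ha : ContinuousOn a (K ∩ {x | u x ≤ v x})) (hb : ContinuousOn b (K ∩ {x | v x ≤ u x}))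
    (h : ∀ x ∈ K, u x = v x → a x = b x) :
    ContinuousOn (fun x => if u x ≤ v x then a x else b x) K :=
  ContinuousOn.if (fun x hx => h x hx.1 (frontier_le_subset_eq hu hv hx.2))
    (by rwa [closure_le_eq hu hv])
    (hb.mono (inter_subset_inter_right _ (by simpa only [not_le] using closure_lt_subset_le hv hu)))

theorem HtpOn.refl (h : ContinuousOn a K) : HtpOn K a a :=
  ⟨fun p => a p.2, h.comp continuousOn_snd fun _ hp => hp.2, fun _ _ => rfl, fun _ _ => rfl⟩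

theorem HtpOn.of_eq (h : ContinuousOn a K) (e : EqOn a b K) : HtpOn K a b :=
  ⟨fun p => a p.2, h.comp continuousOn_snd fun _ hp => hp.2, fun _ _ => rfl, fun _ hx => e hx⟩

theorem HtpOn.symm (h : HtpOn K a b) : HtpOn K b a := by
  obtain ⟨H, h0, h1, h2⟩ := h
  exact ⟨fun p => H (1 - p.1, p.2), h0.comp (by fun_prop) fun p hp =>
    ⟨⟨sub_nonneg.2 hp.1.2, sub_le_self _ hp.1.1⟩, hp.2⟩, by simpa using h2, by simpa using h1⟩

theorem HtpOn.trans (h : HtpOn K a b) (h' : HtpOn K b d) : HtpOn K a d := by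
  obtain ⟨H, h0, h1, h2⟩ := h
  obtain ⟨G, g0, g1, g2⟩ := h'
  refine ⟨fun p => if 2 * p.1 ≤ 1 then H (2 * p.1, p.2) else G (2 * p.1 - 1, p.2),
    tl_if (by fun_prop) continuous_const
      (h0.comp (by fun_prop) fun p hp => ⟨⟨mul_nonneg zero_le_two hp.1.1.1, hp.2⟩, hp.1.2⟩)
      (g0.comp (by fun_prop) fun p hp => ⟨⟨sub_nonneg.2 hp.2, ?_⟩, hp.1.2⟩) fun p hp e => ?_,
    by simpa using h1, by norm_num; exact g2⟩
  · linarith [hp.1.1.2]
  · rw [e, sub_self, h2 _ hp.2, g1 _ hp.2]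

theorem HtpOn.left (h : HtpOn K a b) : ContinuousOn a K := by
  obtain ⟨H, h0, h1, -⟩ := h
  exact (h0.comp (f := fun x => (0, x)) (by fun_prop) fun x hx =>
    ⟨⟨le_rfl, zero_le_one⟩, hx⟩).congr fun x hx => (h1 x hx).symm

theorem HtpOn.right (h : HtpOn K a b) : ContinuousOn b K :=
  h.symm.left

theorem HtpOn.map (h : HtpOn K a b) {ψ : Y → Y'} (hψ : Continuous ψ) :
    HtpOn K (fun x => ψ (a x)) fun x => ψ (b x) := by
  obtain ⟨H, h0, h1, h2⟩ := h
  exact ⟨fun p => ψ (H p), hψ.comp_continuousOn h0, fun x hx => congrArg ψ (h1 x hx),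
    fun x hx => congrArg ψ (h2 x hx)⟩

theorem HtpOn.comp (h : HtpOn K a b) {φ : V' → V} {K' : Set V'} (hφ : ContinuousOn φ K')
    (hm : MapsTo φ K' K) : HtpOn K' (fun x => a (φ x)) fun x => b (φ x) := by
  obtain ⟨H, h0, h1, h2⟩ := h
  exact ⟨fun p => H (p.1, φ p.2), h0.comp (continuousOn_fst.prodMk
    (hφ.comp continuousOn_snd fun _ hp => hp.2)) fun p hp => ⟨hp.1, hm hp.2⟩,
    fun x hx => h1 _ (hm hx), fun x hx => h2 _ (hm hx)⟩

end

variable {Y Y' : Type} [TopologicalSpace Y] [TopologicalSpace Y'] {a a' b D : E 3 → Y}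

/-- glue a homotopy as a collar: `D (2 x)` for `‖x‖ ≤ 1/2`, `H (2 ‖x‖ - 1, nrm x)` otherwise -/
theorem ext_of_htp (hD : ContinuousOn D B3) (h : HtpOn S2 D a) :
    ∃ D', ContinuousOn D' B3 ∧ EqOn D' a S2 := by
  obtain ⟨H, h0, h1, h2⟩ := h
  have h3 : ∀ x : E 3, 1 ≤ 2 * ‖x‖ → x ≠ 0 := fun x h e => by norm_num [e] at h
  refine ⟨fun x => if 2 * ‖x‖ ≤ 1 then D ((2 : ℝ) • x) else H (2 * ‖x‖ - 1, nrm x),
    tl_if (by fun_prop) continuous_const (hD.comp (by fun_prop) fun x hx => ?_)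
      (h0.comp (ContinuousOn.prodMk (by fun_prop) (contDiffOn_nrm.continuousOn.mono
        fun x hx => h3 x hx.2)) fun x hx => ⟨⟨sub_nonneg.2 hx.2, ?_⟩, nrm_mem (h3 x hx.2)⟩)
      fun x _ e => ?_, fun x hx => ?_⟩
  · simpa [norm_smul] using hx.2
  · linarith [mem_closedBall_zero_iff.1 hx.1]
  · rw [e, sub_self, h1 _ (nrm_mem (h3 x e.ge)), nrm, inv_eq_of_mul_eq_one_left e]
  · simp only [mem_sphere_zero_iff_norm.1 hx, nrm_of_S2 hx]
    norm_num [h2 x hx]

theorem htp_const_of_ball (hD : ContinuousOn D B3) : HtpOn S2 D fun _ => D 0 :=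
  ⟨fun p => D ((1 - p.1) • p.2), hD.comp (by fun_prop) fun p hp => by
    rw [mem_closedBall_zero_iff, norm_smul, mem_sphere_zero_iff_norm.1 hp.2, mul_one,
      Real.norm_of_nonneg (sub_nonneg.2 hp.1.2)]
    exact sub_le_self _ hp.1.1, by simp, by simp⟩

/-- two spheres that bound balls in a path connected space are homotopic -/
theorem htp_of_balls [PathConnectedSpace Y] {D' : E 3 → Y} (hD : ContinuousOn D B3)
    (hD' : ContinuousOn D' B3) : HtpOn S2 D D' :=
  (htp_const_of_ball hD).trans (HtpOn.trans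
    ⟨fun p => (PathConnectedSpace.somePath (D 0) (D' 0)).extend p.1, by fun_prop, by simp, by simp⟩
    (htp_const_of_ball hD').symm)

theorem tl_dd : ContinuousOn dd S2 :=
  contDiffOn_dd.continuousOn.mono fun _ => ne_zero_of_S2

theorem tl_ddm : MapsTo dd S2 S2 := fun _ h => dd_mem (ne_zero_of_S2 h)

theorem tl_ext (hD : ContinuousOn D B3) (e : EqOn D a S2) (h : HtpOn S2 a b) :
    ∃ D', ContinuousOn D' B3 ∧ EqOn D' b S2 :=
  ext_of_htp hD ((HtpOn.of_eq (hD.mono Metric.sphere_subset_closedBall) e).trans h)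

theorem Tors.htp (h : Tors a) (H : HtpOn S2 a a') : Tors a' :=
  let ⟨_, _, h1, h2⟩ := h
  ⟨H.right, tl_ext h1 h2 (H.comp tl_dd tl_ddm)⟩

theorem Tors.congr (h : Tors a) (e : EqOn a' a S2) : Tors a' :=
  h.htp (HtpOn.of_eq h.1 e.symm)

theorem Tors.map (h : Tors a) {ψ : Y → Y'} (hψ : Continuous ψ) : Tors fun x => ψ (a x) :=
  let ⟨h0, D, h1, h2⟩ := h
  ⟨hψ.comp_continuousOn h0, fun x => ψ (D x), hψ.comp_continuousOn h1,
    fun x hx => congrArg ψ (h2 x hx)⟩

/-- a sphere that bounds a ball is torsion: `x ↦ D (‖x‖ • dd x)` -/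
theorem tors_of_ball (hD : ContinuousOn D B3) (e : EqOn a D S2) : Tors a :=
  Tors.congr ⟨hD.mono Metric.sphere_subset_closedBall,
    ext_of_htp continuousOn_const ((htp_const_of_ball hD).symm.comp tl_dd tl_ddm)⟩ e

theorem Tors.dd (h : Tors a) : Tors fun x => a (dd x) :=
  let ⟨_, _, h1, h2⟩ := h
  tors_of_ball h1 fun x hx => (h2 x hx).symm

theorem Tors.rfb (h : Tors a) (s : Bool) : Tors fun x => a (rfb s x) := by
  obtain ⟨h0, D, h1, h2⟩ := h
  have h3 : MapsTo (CSP.rfb s) S2 S2 := fun x hx => by simpa [norm_rfb] using hx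
  refine ⟨h0.comp (contDiff_rfb s).continuous.continuousOn h3, fun x => D (CSP.rfb s x),
    h1.comp (contDiff_rfb s).continuous.continuousOn fun x hx => by simpa [norm_rfb] using hx,
    fun x hx => (h2 _ (h3 hx)).trans ?_⟩
  cases s
  exacts [rfl, congrArg a (dd_rf3 x)]

theorem tl_line (ha : ContinuousOn a S2) {p q : E 3 → E 3} (hp : ContinuousOn p S2)
    (hq : ContinuousOn q S2) (h : ∀ t ∈ Icc (0 : ℝ) 1, ∀ x ∈ S2, (1 - t) • p x + t • q x ≠ 0) :
    HtpOn S2 (fun x => a (nrm (p x))) fun x => a (nrm (q x)) :=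
  ⟨fun z => a (nrm ((1 - z.1) • p z.2 + z.1 • q z.2)), ha.comp (contDiffOn_nrm.continuousOn.comp
    (((continuousOn_const.sub continuousOn_fst).smul (hp.comp continuousOn_snd fun _ hz => hz.2)).add
      (continuousOn_fst.smul (hq.comp continuousOn_snd fun _ hz => hz.2)))
    fun z hz => h _ hz.1 _ hz.2) fun z hz => nrm_mem (h _ hz.1 _ hz.2), by simp, by simp⟩

theorem tl_neg : -npole ∈ S2 := by simpa using npole_mem

/-- Move the south pole along a path `γ`. Sketch. `a' = ssum a (fun x => γ ((1 - x 2) / 2))` or directly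
`a (pin x)` for `x 2 ≥ 0` and `γ (-x 2)` for `x 2 ≤ 0`. First shrink the path to a constant; then join
`id` to `p = (pin on the upper half, -npole on the lower half)` by `nrm ((1 - t) x + t p x)`, which never
vanishes on `S2`. -/
theorem exists_whisker (ha : ContinuousOn a S2) {y : Y} (h : Joined (a (-npole)) y) :
    ∃ a', HtpOn S2 a a' ∧ a' (-npole) = y := by
  have h1 := tl_line ha continuousOn_id (continuousOn_ssum (a := id) (b := fun _ => -npole)
    (Or.inl rfl) continuousOn_id continuousOn_const rfl) fun t ht x hx e => by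
      have e0 := congrArg (fun u : E 3 => u 0) e
      have e1 := congrArg (fun u : E 3 => u 1) e
      have e2 := congrArg (fun u : E 3 => u 2) e
      rw [mem_S2] at hx
      by_cases hs : 0 ≤ x 2 <;> simp only [ssum, hs, if_true, if_false, id, pin, npole, PiLp.add_apply,
        PiLp.smul_apply, PiLp.neg_apply, PiLp.zero_apply, Matrix.cons_val, smul_eq_mul] at e0 e1 e2
      · have h2 : (1 - t + 2 * t * x 2) ^ 2 = t ^ 2 := by
          linear_combination (1 - t + 2 * t * x 2) * (x 0 * e0 + x 1 * e1 + x 2 * e2) + t * e2 -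
            (1 - t + 2 * t * x 2) ^ 2 * hx
        have h3 := (sq_eq_sq₀ (by nlinarith [ht.1, ht.2]) ht.1).1 h2
        have h4 : t * (x 2 - 1) = 0 := by linear_combination e2 - x 2 * h3
        rcases mul_eq_zero.1 h4 with h5 | h5
        · norm_num [h5] at h3
        · rw [sub_eq_zero.1 h5] at h3
          linarith
      · nlinarith [ht.1, ht.2, not_le.1 hs]
  refine ⟨fun x => if 0 ≤ x 2 then a (pin x) else h.somePath.extend (-x 2),
    (HtpOn.of_eq ha fun x hx => congrArg a (nrm_of_S2 hx).symm).trans (h1.trans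
      ⟨fun z => if 0 ≤ z.2 2 then a (pin z.2) else h.somePath.extend (z.1 * -z.2 2),
        tl_if continuous_const (by fun_prop) (ha.comp (contDiff_pin.continuous.comp
          continuous_snd).continuousOn fun z hz => pin_mem_S2 hz.1.2) (by fun_prop) fun z _ e => ?_,
        fun x hx => ?_, fun x _ => by simp⟩), by simp [npole]⟩
  · rw [pin_of_eq_zero e.symm, ← e, neg_zero, mul_zero, Path.extend_zero]
  · by_cases hs : 0 ≤ x 2 <;> simp [ssum, hs, nrm_of_S2 (pin_mem_S2 hx), nrm_of_S2 tl_neg]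

theorem tl_quo {g r : E 3 → ℝ} (hg : Continuous g) (hr : Continuous r) (h0 : ∀ x, 0 ≤ r x)
    (h : ∀ x, g x ^ 2 ≤ r x ^ 3) : Continuous fun x => g x / r x := by
  refine continuous_iff_continuousAt.2 fun x => ?_
  by_cases e : r x = 0
  · rw [ContinuousAt, e, div_zero]
    refine squeeze_zero_norm (fun y => Real.abs_le_sqrt (y := r y) ?_)
      (by simpa [e] using hr.sqrt.tendsto x)
    rw [div_pow]
    exact div_le_of_le_mul₀ (sq_nonneg _) (h0 y) ((h y).trans_eq (by ring))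
  · exact hg.continuousAt.div hr.continuousAt e

/-- `(z, s) ↦ (z ^ 3 / ‖z‖ ^ 2, s)` -/
noncomputable def tl_d (x : E 3) : E 3 :=
  !₂[(x 0 ^ 3 - 3 * x 0 * x 1 ^ 2) / (x 0 ^ 2 + x 1 ^ 2),
    (3 * x 0 ^ 2 * x 1 - x 1 ^ 3) / (x 0 ^ 2 + x 1 ^ 2), x 2]

theorem tl_dc : Continuous tl_d := by
  refine (PiLp.continuous_toLp 2 _).comp (continuous_pi fun i => ?_)
  fin_cases i
  · exact tl_quo (by fun_prop) (by fun_prop) (fun x => by positivity)
      fun x => by nlinarith [sq_nonneg (3 * x 0 ^ 2 * x 1 - x 1 ^ 3)]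
  · exact tl_quo (by fun_prop) (by fun_prop) (fun x => by positivity)
      fun x => by nlinarith [sq_nonneg (x 0 ^ 3 - 3 * x 0 * x 1 ^ 2)]
  · exact (EuclideanSpace.proj (2 : Fin 3) : E 3 →L[ℝ] ℝ).continuous

theorem tl_dm : MapsTo tl_d S2 S2 := fun x hx => by
  rw [mem_S2] at hx ⊢
  simp only [tl_d, Matrix.cons_val]
  by_cases e : x 0 ^ 2 + x 1 ^ 2 = 0
  · simpa [e] using hx
  · rw [← hx]
    field_simp
    ring

theorem tl_dneg (x : E 3) : tl_d (-x) = -tl_d x := by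
  refine ml_ext ?_ ?_ ?_ <;> simp only [tl_d, PiLp.neg_apply, Matrix.cons_val] <;> ring

theorem tl_dpin (x : E 3) : tl_d (pin x) = pin (tl_d x) := by
  by_cases e : x 2 = 0
  · refine ml_ext ?_ ?_ ?_ <;> simp [tl_d, pin, e]
  have h : (2 * x 2 * x 0) ^ 2 + (2 * x 2 * x 1) ^ 2 = (2 * x 2) ^ 2 * (x 0 ^ 2 + x 1 ^ 2) := by ring
  refine ml_ext ?_ ?_ ?_ <;> simp only [tl_d, pin, Matrix.cons_val, h] <;> field_simp

theorem tl_dn : tl_d npole = npole := by
  refine ml_ext ?_ ?_ ?_ <;> simp [tl_d, npole]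

theorem tl_htp (ha : ContinuousOn a S2) : HtpOn S2 (fun x => a (dd x)) fun x => a (tl_d x) := by
  have h := tl_line ha contDiff_cub0.continuous.continuousOn tl_dc.continuousOn fun t _ x hx e => by
    have e2 : x 2 = 0 := by simpa [cub0, tl_d, ← add_mul] using congrArg (fun u : E 3 => u 2) e
    have e1 : x 0 ^ 2 + x 1 ^ 2 = 1 := by simpa [e2] using mem_S2.1 hx
    rw [show tl_d x = cub0 x by rw [tl_d, cub0, e1, div_one, div_one], ← add_smul, sub_add_cancel,
      one_smul] at e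
    exact cub0_ne_zero (ne_zero_of_S2 hx) e
  exact (HtpOn.of_eq (ha.comp tl_dd tl_ddm) fun x hx => congrArg (fun u => a (nrm u))
    (cub_eq_cub0 hx)).trans (h.trans (HtpOn.of_eq h.right fun x hx =>
      congrArg a (nrm_of_S2 (tl_dm hx))))

/-- Sums of torsion spheres. Sketch. Let `d' (z, s) = (z ^ 3 / ‖z‖ ^ 2, s)` (continuous, maps `S2` to
`S2`, fixes the poles). It is homotopic to `dd` through maps to `S2`: normalise
`(((1 - t) + t / ‖z‖ ^ 2) z ^ 3, s)`, i.e. the segment from `cub0 x` to `d' x`. One has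
`pin (d' x) = d' (pin x)` for `x 2 ≥ 0` and `-pin (d' x) = d' (-pin x)` for `x 2 ≤ 0`, so
`ssum a b ∘ d' = ssum (a ∘ d') (b ∘ d')` on `S2`, which extends to `ssum A B` on `B3`
(`continuousOn_ssum`). -/
theorem Tors.ssum (ha : Tors a) (hb : Tors b) (h : a (-npole) = b npole) : Tors (ssum a b) := by
  obtain ⟨ha, A, a1, a2⟩ := ha
  obtain ⟨hb, B, b1, b2⟩ := hb
  obtain ⟨A, a1, a2⟩ := tl_ext a1 a2 (tl_htp ha)
  obtain ⟨B, b1, b2⟩ := tl_ext b1 b2 (tl_htp hb)
  have h1 := continuousOn_ssum (Or.inl rfl) ha hb h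
  refine ⟨h1, tl_ext (continuousOn_ssum (Or.inr rfl) a1 b1 ?_) (fun x hx => ?_) (tl_htp h1).symm⟩
  · simp only [a2 tl_neg, b2 npole_mem, tl_dneg, tl_dn, h]
  · have h2 := pin_mem_S2 hx
    simp only [CSP.ssum, a2 h2, b2 (show -pin x ∈ S2 by simpa using h2), tl_dneg, tl_dpin]
    rfl

end Pool.Agent.CSP
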