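import Pool.Agent.Lib.MP_436e1a_gt.E.Inter
import Pool.Agent.Lib.MP_436e1a_gt.E.CubCov
import Pool.Agent.Lib.MP_436e1a_gt.B.LnkL

/-! The number of crossings of two moving spheres. -/

open Set Metric

namespace Pool.Agent.CSP

/-- the time attached to the radius `r` -/
noncomputable def tc (r : ℝ) : ℝ := max 0 (min 1 (2 * r - 1))

/-- two homotopies of spheres that are disjoint at both ends -/
structure TA {Y : Type} [TopologicalSpace Y] (a b : ℝ × E 3 → Y) : Prop where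
  ca : ContinuousOn a (Icc 0 1 ×ˢ S2)
  cb : ContinuousOn b (Icc 0 1 ×ˢ S2)
  d0 : Dj (fun x => a (0, x)) fun y => b (0, y)
  d1 : Dj (fun x => a (1, x)) fun y => b (1, y)

theorem trk_cont : Continuous tc := by
  unfold tc
  fun_prop

theorem trk_mem (r : ℝ) : tc r ∈ Icc (0 : ℝ) 1 :=
  ⟨le_max_left _ _, max_le zero_le_one (min_le_left _ _)⟩

theorem trk_zero {r : ℝ} (h : r ≤ 1 / 2) : tc r = 0 :=
  max_eq_left ((min_le_right _ _).trans (by linarith))

theorem trk_one {r : ℝ} (h : 1 ≤ r) : tc r = 1 := by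
  rw [tc, min_eq_left (by linarith), max_eq_right zero_le_one]

theorem trk_mid {r : ℝ} (h : 1 / 2 < r) (h' : r < 1) : tc r = 2 * r - 1 := by
  rw [tc, min_eq_right (by linarith), max_eq_right (by linarith)]

theorem trk_der {x : E 3} (h : x ∈ S2) {r : ℝ} (hr : 0 < r) :
    HasFDerivAt (fun v : E 3 => ‖v‖) (innerSL ℝ x) (r • x) ∧ ∃ L : E 3 →L[ℝ] E 3,
      HasFDerivAt nrm L (r • x) ∧ ∀ v, L v = r⁻¹ • (v - inner ℝ x v • x) := by
  have n := mem_sphere_zero_iff_norm.1 h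
  have n' : ‖r • x‖ = r := by rw [norm_smul, n, mul_one, Real.norm_of_nonneg hr.le]
  have h1 := (hasStrictFDerivAt_norm_sq (r • x)).hasFDerivAt.sqrt (by rw [n']; positivity)
  simp only [Real.sqrt_sq (norm_nonneg _)] at h1
  replace h1 : HasFDerivAt (fun v : E 3 => ‖v‖) (innerSL ℝ x) (r • x) := h1.congr_fderiv (by
    ext v
    simp [n']
    field_simp)
  refine ⟨h1, _, ((hasDerivAt_inv (x := ‖r • x‖) (by rw [n']; positivity)).comp_hasFDerivAt _
    h1).smul (hasFDerivAt_id _), fun v => ?_⟩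
  simp only [n', Function.comp_apply, add_apply, smul_apply, smul_eq_mul,
    ContinuousLinearMap.id_apply, ContinuousLinearMap.smulRight_apply, innerSL_apply_apply]
  match_scalars <;> field_simp

theorem trk_det {J : (E 5 × ℝ) ≃L[ℝ] V6} {L : V6 →L[ℝ] V6} {P Q : E 3 →L[ℝ] E 3}
    {σ A : E 5 →L[ℝ] E 5} (h : ∀ u s, L (P (J (σ u, s)).1, Q (J (σ u, s)).2) = J (-A u, s)) :
    L.det * (P.det * Q.det) * σ.det = -A.det := by
  have e : (J.symm.toLinearEquiv.toLinearMap ∘ₗ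
      (L.toLinearMap ∘ₗ P.toLinearMap.prodMap Q.toLinearMap) ∘ₗ
        J.symm.toLinearEquiv.symm.toLinearMap) ∘ₗ σ.toLinearMap.prodMap LinearMap.id =
      ((-1 : ℝ) • A.toLinearMap).prodMap LinearMap.id := LinearMap.ext fun p =>
    (J.symm_apply_eq.2 (h p.1 p.2)).trans (by simp)
  have := congrArg LinearMap.det e
  rw [LinearMap.det_comp, LinearMap.det_conj, LinearMap.det_comp, LinearMap.det_prodMap,
    LinearMap.det_prodMap, LinearMap.det_prodMap, LinearMap.det_smul, LinearMap.det_id,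
    finrank_euclideanSpace_fin] at this
  exact Eq.trans (by rw [mul_one]) (this.trans (by norm_num))

theorem trk_fr (v w x : E 3) : (fr ![v, w, x]).det = det3 x v w := by
  rw [det_fr, Matrix.det_fin_three, det3]
  simp
  ring

theorem trk_cyc : ∃ σ : E 5 →L[ℝ] E 5, 0 < σ.det ∧ ∀ u, σ u = !₂[u 0, u 1, u 4, u 2, u 3] := by
  obtain ⟨σ, h⟩ : ∃ σ : E 5 →L[ℝ] E 5, ∀ u, σ u = !₂[u 0, u 1, u 4, u 2, u 3] :=
    ⟨fr fun k => EuclideanSpace.single (![0, 1, 3, 4, 2] k) 1, fun u => by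
      ext i
      fin_cases i <;> simp [fr_apply, Fin.sum_univ_succ]⟩
  have := sgn_det_one (B := σ.comp (σ.comp σ)) fun u => by
    ext i
    fin_cases i <;> simp [h]
  rw [sgn_det_comp, sgn_det_comp] at this
  exact ⟨σ, by nlinarith [mul_self_nonneg σ.det], h⟩

theorem trk_cpt {T Y : Type} [TopologicalSpace T] [T2Space T] [TopologicalSpace Y] [T2Space Y]
    {O K : Set T} {f g : T → Y} {k : T → ℝ} (hK : IsCompact K) (hf : ContinuousOn f K)
    (hg : ContinuousOn g K) (hk : ContinuousOn k K)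
    (h : ∀ v, f v = g v → k v = 0 → (v ∈ O ↔ v ∈ K)) : IsCompact (Zc O f g k) := by
  have e : Zc O f g k = K ∩ (fun v => ((f v, g v), k v)) ⁻¹' (diagonal Y ×ˢ {0}) :=
    Set.ext fun v => ⟨fun z => ⟨(h v z.2.1 z.2.2).1 z.1, z.2⟩, fun z => ⟨(h v z.2.1 z.2.2).2 z.1, z.2⟩⟩
  rw [e]
  exact hK.of_isClosed_subset (((hf.prodMk hg).prodMk hk).preimage_isClosed_of_isClosed hK.isClosed
    (isClosed_diagonal.prod isClosed_singleton)) inter_subset_left

theorem trk_comp {T Y : Type} [TopologicalSpace T] [TopologicalSpace Y] {a : ℝ × E 3 → Y}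
    (h : ContinuousOn a (Icc 0 1 ×ˢ S2)) {K : Set T} {τ : T → ℝ} {x : T → E 3}
    (hτ : Continuous τ) (hm : ∀ v ∈ K, τ v ∈ Icc (0 : ℝ) 1) (hx : Continuous x)
    (h0 : ∀ v ∈ K, x v ≠ 0) : ContinuousOn (fun v => a (τ v, nrm (x v))) K :=
  h.comp (hτ.continuousOn.prodMk (contDiffOn_nrm.continuousOn.comp hx.continuousOn h0))
    fun v hv => ⟨hm v hv, nrm_mem (h0 v hv)⟩

theorem trk_S2 {y : E 3} : y ∈ S2 ↔ ‖y‖ - 1 = 0 := by rw [mem_sphere_zero_iff_norm, sub_eq_zero]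

/-- coincidences happen at radii between `1 / 2` and `1` -/
theorem TA.rad {Y : Type} [TopologicalSpace Y] {a b : ℝ × E 3 → Y} (h : TA a b) {r : ℝ} {x y : E 3}
    (hx : x ∈ S2) (hy : y ∈ S2) (e : a (tc r, x) = b (tc r, y)) : 1 / 2 < r ∧ r < 1 :=
  ⟨lt_of_not_ge fun k => h.d0 x hx y hy (by rwa [trk_zero k] at e),
    lt_of_not_ge fun k => h.d1 x hx y hy (by rwa [trk_one k] at e)⟩

namespace Ctx

/-- the index of the coincidences `a (t, x) = b (t, y)` -/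
noncomputable def trk (c : Ctx) (a b : ℝ × E 3 → c.Y) : ℤ :=
  c.ind ({0}ᶜ ×ˢ {0}ᶜ) (fun v => a (tc ‖v.1‖, nrm v.1)) (fun v => b (tc ‖v.1‖, nrm v.2))
    fun v => ‖v.2‖ - 1

variable {c : Ctx} {a b : ℝ × E 3 → c.Y}

theorem trk_adm (h : TA a b) (hf : c.Flat a (Icc 0 1 ×ˢ S2)) :
    c.IAdm ({0}ᶜ ×ˢ {0}ᶜ) (fun v => a (tc ‖v.1‖, nrm v.1)) (fun v => b (tc ‖v.1‖, nrm v.2))
      fun v => ‖v.2‖ - 1 := by
  have t : Continuous fun v : V6 => tc ‖v.1‖ := trk_cont.comp (by fun_prop)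
  have s : ∀ v ∈ (closedBall 0 1 \ ball 0 (1 / 2)) ×ˢ S2, v.1 ≠ (0 : E 3) ∧ v.2 ≠ (0 : E 3) :=
    fun v hv => ⟨fun e => hv.1.2 (by simp [e]), ne_zero_of_S2 hv.2⟩
  refine ⟨isOpen_compl_singleton.prod isOpen_compl_singleton,
    trk_comp h.ca t (fun _ _ => trk_mem _) continuous_fst fun _ hv => hv.1,
    trk_comp h.cb t (fun _ _ => trk_mem _) continuous_snd fun _ hv => hv.2, by fun_prop,
    trk_cpt (((isCompact_closedBall 0 1).diff isOpen_ball).prod (isCompact_sphere 0 1))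
      (trk_comp h.ca t (fun _ _ => trk_mem _) continuous_fst fun v hv => (s v hv).1)
      (trk_comp h.cb t (fun _ _ => trk_mem _) continuous_snd fun v hv => (s v hv).2)
      (by fun_prop) fun v e k => ⟨fun hv => ?_, s v⟩,
    hf.comp (t.continuousOn.prodMk (contDiffOn_nrm.continuousOn.comp continuousOn_fst
      fun _ hv => hv.1.1)) fun v hv => ⟨trk_mem _, nrm_mem hv.1.1⟩⟩
  have := h.rad (nrm_mem hv.1) (nrm_mem hv.2) e
  exact ⟨⟨mem_closedBall_zero_iff.2 this.2.le, fun k => this.1.not_gt (mem_ball_zero_iff.1 k)⟩,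
    trk_S2.2 k⟩

theorem trk_empty (h : TA a b) (hf : c.Flat a (Icc 0 1 ×ˢ S2))
    (he : ∀ t ∈ Icc (0 : ℝ) 1, Dj (fun x => a (t, x)) fun y => b (t, y)) : c.trk a b = 0 :=
  ind_empty (trk_adm h hf) (eq_empty_of_forall_notMem fun _ z =>
    he _ (trk_mem _) _ (nrm_mem z.1.1) _ (nrm_mem z.1.2) z.2.1)

/-- Sketch. `ind_cub_fst`, then deform the time `tc ‖cub x‖` to `tc ‖x‖` through
`tc ((1 - t) ‖cub x‖ + t ‖x‖)` (`ind_htpy`; coincidences have time in `(0, 1)`, so `x` stays in a compact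
shell). -/
theorem trk_dd (h : TA a b) (hf : c.Flat a (Icc 0 1 ×ˢ S2)) :
    c.trk (fun p => a (p.1, dd p.2)) b = 3 * c.trk a b := by
  have cc := contDiff_cub.continuous
  set ρ : ℝ × V6 → ℝ := fun p => (1 - p.1) * ‖cub p.2.1‖ + p.1 * ‖p.2.1‖ with hρ
  have r : Continuous ρ := by fun_prop
  have t : Continuous fun p => tc (ρ p) := trk_cont.comp r
  have x : Continuous fun p : ℝ × V6 => cub p.2.1 := by fun_prop
  have y : Continuous fun p : ℝ × V6 => p.2.2 := by fun_prop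
  have s : ∀ p ∈ (Icc 0 1 ×ˢ (cub ⁻¹' B3 ∪ B3) ×ˢ S2) ∩ {p | 1 / 2 ≤ ρ p},
      p.2.1 ≠ 0 ∧ p.2.2 ≠ 0 := fun p hp => ⟨fun e => by
    have : cub 0 = 0 := by simpa using cub_smul 0 0
    have k : 1 / 2 ≤ ρ p := hp.2
    norm_num [hρ, e, this] at k, ne_zero_of_S2 hp.1.2.2⟩
  have k := (ind_htpy (c := c) (Ω := univ ×ˢ {0}ᶜ ×ˢ {0}ᶜ) (K := fun p => ‖p.2.2‖ - 1)
    (isOpen_univ.prod (isOpen_compl_singleton.prod isOpen_compl_singleton))
    (trk_comp h.ca t (fun _ _ => trk_mem _) x fun _ hp => cub_ne_zero hp.1.2.1)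
    (trk_comp h.cb t (fun _ _ => trk_mem _) y fun _ hp => hp.1.2.2) (by fun_prop)
    (trk_cpt ((isCompact_Icc.prod (((isCompact_preimage_cub (isCompact_closedBall 0 1)).union
        (isCompact_closedBall 0 1)).prod (isCompact_sphere 0 1))).inter_right
        (isClosed_le continuous_const r))
      (trk_comp h.ca t (fun _ _ => trk_mem _) x fun p hp => cub_ne_zero (s p hp).1)
      (trk_comp h.cb t (fun _ _ => trk_mem _) y fun p hp => (s p hp).2) (by fun_prop)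
      fun p e k => ⟨fun hp => ?_, fun hp => ⟨⟨trivial, s p hp⟩, hp.1.1, trivial⟩⟩)
    (hf.comp (t.continuousOn.prodMk (contDiffOn_nrm.continuousOn.comp x.continuousOn
      fun _ hp => cub_ne_zero hp.1.1.2.1)) fun p hp =>
      ⟨trk_mem _, nrm_mem (cub_ne_zero hp.1.1.2.1)⟩)).2
  · simp only [mem_prod, mem_univ, true_and, hρ, sub_zero, one_mul, zero_mul, add_zero, sub_self,
      zero_add] at k
    simp only [trk, dd_nrm]
    exact k.symm.trans (ind_cub_fst (trk_adm h hf)).2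
  · have := h.rad (nrm_mem (cub_ne_zero hp.1.2.1)) (nrm_mem hp.1.2.2) e
    refine ⟨⟨hp.2.1, ?_, trk_S2.2 k⟩, this.1.le⟩
    by_contra z
    simp only [mem_union, mem_preimage, mem_closedBall_zero_iff, not_or, not_le] at z
    have := this.2
    have := hp.2.1
    nlinarith [z.1, z.2, this.1, this.2]

theorem trk_half {D₀ b₀ : E 3 → c.Y} (h : BS D₀ b₀) :
    c.IAdm (ball 0 (1 / 2) ×ˢ {0}ᶜ) (fun v => D₀ ((2 : ℝ) • v.1)) (fun v => b₀ (nrm v.2))
      (fun v => ‖v.2‖ - 1) ∧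
    c.ind (ball 0 (1 / 2) ×ˢ {0}ᶜ) (fun v => D₀ ((2 : ℝ) • v.1)) (fun v => b₀ (nrm v.2))
      (fun v => ‖v.2‖ - 1) = c.inter D₀ b₀ := by
  have k := ind_diffeo (inter_adm h) (O' := ball 0 (1 / 2) ×ˢ {0}ᶜ) (s := 1)
    (isOpen_ball.prod isOpen_compl_singleton) (Φ := fun v => ((2 : ℝ) • v.1, v.2))
    (Ψ := fun v => ((1 / 2 : ℝ) • v.1, v.2)) (by fun_prop) (by fun_prop)
    (fun v hv => ⟨?_, hv.2⟩) (fun v hv => ⟨?_, hv.2⟩) (fun v _ => by simp [smul_smul])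
    (fun v _ => by simp [smul_smul]) fun v _ => ?_
  · simpa [inter] using k
  · have := mem_ball_zero_iff.1 hv.1
    rw [mem_ball_zero_iff, norm_smul, Real.norm_two]
    linarith
  · have := mem_ball_zero_iff.1 hv.1
    rw [mem_ball_zero_iff, norm_smul, Real.norm_of_nonneg (by norm_num)]
    linarith
  · rw [show fderiv ℝ (fun v : V6 => ((2 : ℝ) • v.1, v.2)) v = _ from
      (((2 : ℝ) • ContinuousLinearMap.id ℝ (E 3)).prodMap (.id ℝ (E 3))).fderiv]
    have := LinearMap.det_prodMap ((2 : ℝ) • LinearMap.id (R := ℝ) (M := E 3))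
      (LinearMap.id (R := ℝ) (M := E 3))
    rw [LinearMap.det_smul, LinearMap.det_id] at this
    refine lt_of_lt_of_eq ?_ (congrArg _ this.symm)
    simp

/-- Sketch. `D₁ x = D₀ (2 x)` for `‖x‖ ≤ 1/2`, `a (tc ‖x‖, nrm x)` otherwise. On `O6` deform
`g_u v = b (max (tc ‖v.1‖) u, nrm v.2)` from `u = 1` (this is `inter D₁ b₁`) to `u = 0` (`ind_htpy`,
`flat_star`; at `‖v.1‖ = 1` the time is `1`). At `u = 0` split along `‖v.1‖ = 1/2` (`ind_sum`): the inner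
part is `inter D₀ b₀` (`ind_diffeo` for `x ↦ 2 x`), the shell is `trk a b` (`IAdm.excise`). -/
theorem trk_inter (h : TA a b) (hf : c.Flat a (Icc 0 1 ×ˢ S2)) {D₀ : E 3 → c.Y}
    (hD : ContinuousOn D₀ B3) (e : ∀ x ∈ S2, D₀ x = a (0, x)) :
    ∃ D₁, ContinuousOn D₁ B3 ∧ (∀ x ∈ S2, D₁ x = a (1, x)) ∧
      c.inter D₁ (fun y => b (1, y)) = c.inter D₀ (fun y => b (0, y)) + c.trk a b := by
  set D₁ : E 3 → c.Y := fun x => if ‖x‖ ≤ 1 / 2 then D₀ ((2 : ℝ) • x) else a (tc ‖x‖, nrm x)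
  have e1 : ∀ x, ‖x‖ ≤ 1 / 2 → D₁ x = D₀ ((2 : ℝ) • x) := fun x k => if_pos k
  have e2 : ∀ x, 1 / 2 ≤ ‖x‖ → D₁ x = a (tc ‖x‖, nrm x) := fun x k => by
    rcases k.eq_or_lt with k | k
    · have : nrm x = (2 : ℝ) • x := by rw [nrm, ← k]; norm_num
      rw [e1 x k.ge, trk_zero k.ge, ← this, e _ (nrm_mem fun z => by norm_num [z] at k)]
    · exact if_neg k.not_ge
  have e3 : ∀ x ∈ S2, D₁ x = a (1, x) := fun x hx => by
    have := mem_sphere_zero_iff_norm.1 hx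
    rw [e2 x (by linarith), trk_one this.ge, nrm_of_S2 hx]
  have t : Continuous fun x : E 3 => tc ‖x‖ := trk_cont.comp continuous_norm
  have c1 : ContinuousOn D₁ B3 := by
    refine (((hD.comp (f := fun x : E 3 => (2 : ℝ) • x) (s := closedBall 0 (1 / 2)) (by fun_prop)
      fun x hx => ?_).congr fun x hx => e1 x (mem_closedBall_zero_iff.1 hx)).union_of_isClosed
      ((trk_comp h.ca (K := (ball 0 (1 / 2))ᶜ) t (fun _ _ => trk_mem _) continuous_id
        fun x hx z => hx (by simp [show x = 0 from z])).congr fun x hx => e2 x (by simpa using hx))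
      isClosed_closedBall isOpen_ball.isClosed_compl).mono fun x _ => ?_
    · have := mem_closedBall_zero_iff.1 hx
      rw [mem_closedBall_zero_iff, norm_smul, Real.norm_two]
      linarith
    · simpa using le_total ‖x‖ (1 / 2)
  refine ⟨D₁, c1, e3, ?_⟩
  have τ : Continuous fun p : ℝ × V6 => max (tc ‖p.2.1‖) p.1 :=
    (t.comp (by fun_prop)).max (by fun_prop)
  have m : ∀ p : ℝ × V6, p.1 ∈ Icc (0 : ℝ) 1 → max (tc ‖p.2.1‖) p.1 ∈ Icc (0 : ℝ) 1 :=
    fun p hp => ⟨le_max_of_le_right hp.1, max_le (trk_mem _).2 hp.2⟩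
  have x : Continuous fun p : ℝ × V6 => p.2.1 := by fun_prop
  have y : Continuous fun p : ℝ × V6 => p.2.2 := by fun_prop
  obtain ⟨k1, k2⟩ := ind_htpy (c := c) (Ω := univ ×ˢ O6) (K := fun p => ‖p.2.2‖ - 1)
    (F := fun p => D₁ p.2.1) (isOpen_univ.prod (isOpen_ball.prod isOpen_compl_singleton))
    (c1.comp x.continuousOn fun _ hp => ball_subset_closedBall hp.1.2.1)
    (trk_comp h.cb τ (fun p hp => m p hp.2.1) y fun _ hp => hp.1.2.2) (by fun_prop)
    (trk_cpt (isCompact_Icc.prod ((isCompact_closedBall 0 1).prod (isCompact_sphere 0 1)))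
      (c1.comp x.continuousOn fun _ hp => hp.2.1)
      (trk_comp h.cb τ (fun p hp => m p hp.1) y fun p hp => ne_zero_of_S2 hp.2.2) (by fun_prop)
      fun p z k => ⟨fun hp => ⟨hp.2.1, ball_subset_closedBall hp.1.2.1, trk_S2.2 k⟩, fun hp =>
        ⟨⟨trivial, mem_ball_zero_iff.2 ((mem_closedBall_zero_iff.1 hp.2.1).lt_of_ne fun n => by
          have n' := mem_sphere_zero_iff_norm.2 n
          rw [e3 _ n', trk_one n.ge, max_eq_left hp.1.2] at z
          exact h.d1 _ n' _ (nrm_mem (ne_zero_of_S2 hp.2.2)) z), ne_zero_of_S2 hp.2.2⟩,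
          hp.1, trivial⟩⟩)
    ((flat_star (isCompact_closedBall 0 1) ((convex_closedBall 0 1).starConvex
      (mem_closedBall_self zero_le_one)) c1).comp
      x.continuousOn fun _ hp => ball_subset_closedBall hp.1.1.2.1)
  replace k1 := k1 0 (left_mem_Icc.2 zero_le_one)
  simp only [mem_prod, mem_univ, true_and, ofPred_mem_eq, max_eq_left (trk_mem _).1,
    max_eq_right (trk_mem _).2] at k1 k2
  have o : IsOpen ((ball 0 1 \ closedBall 0 (1 / 2)) ×ˢ {0}ᶜ : Set V6) :=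
    (isOpen_ball.sdiff isClosed_closedBall).prod isOpen_compl_singleton
  obtain ⟨k3, k4⟩ := ind_sum (Finset.univ : Finset Bool) k1
    (W := fun i => (if i then ball 0 (1 / 2) else ball 0 1 \ closedBall 0 (1 / 2)) ×ˢ {0}ᶜ)
    (by
      rintro (_ | _) -
      · exact ⟨o, prod_mono_left sdiff_subset⟩
      · exact ⟨isOpen_ball.prod isOpen_compl_singleton,
          prod_mono_left (ball_subset_ball (by norm_num))⟩)
    (by
      rintro (_ | _) - (_ | _) - n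
      · exact absurd rfl n
      · exact disjoint_left.2 fun v h1 h2 => h1.1.2 (ball_subset_closedBall h2.1)
      · exact disjoint_left.2 fun v h2 h1 => h1.1.2 (ball_subset_closedBall h2.1)
      · exact absurd rfl n)
    fun v hv => by
      rcases lt_trichotomy ‖v.1‖ (1 / 2) with n | n | n
      · exact mem_biUnion (Finset.mem_univ true) ⟨mem_ball_zero_iff.2 n, hv.1.2⟩
      · exact absurd (h.rad (nrm_mem fun z => by norm_num [z] at n) (nrm_mem hv.1.2)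
          ((e2 _ n.ge).symm.trans hv.2.1)).1 n.not_gt
      · exact mem_biUnion (Finset.mem_univ false)
          ⟨⟨hv.1.1, fun z => n.not_ge (mem_closedBall_zero_iff.1 z)⟩, hv.1.2⟩
  rw [Fintype.sum_bool] at k4
  have l1 := trk_half (c := c) (D₀ := D₀) (b₀ := fun y => b (0, y)) ⟨hD, h.cb.comp (by fun_prop)
    fun y hy => ⟨left_mem_Icc.2 zero_le_one, hy⟩, fun x hx y hy z => h.d0 x hx y hy
      ((e x hx).symm.trans z)⟩
  have l2 := (trk_adm h hf).excise o (fun v hv => ⟨fun z => hv.1.2 (by simp [show v.1 = 0 from z]),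
    hv.2⟩) fun v hv => by
      have := h.rad (nrm_mem hv.1.1) (nrm_mem hv.1.2) hv.2.1
      exact ⟨⟨mem_ball_zero_iff.2 this.2, fun z => this.1.not_ge (mem_closedBall_zero_iff.1 z)⟩,
        hv.1.2⟩
  refine k2.symm.trans (k4.trans (congrArg₂ _ ((l1.1.congr (fun v hv => ?_) (fun v hv => ?_)
    fun _ _ => rfl).2.trans l1.2) ((l2.1.congr (fun v hv => ?_) (fun _ _ => rfl)
    fun _ _ => rfl).2.trans l2.2)))
  · exact e1 _ (mem_ball_zero_iff.1 hv.1).le
  · exact congrArg (fun r => b (r, nrm v.2)) (trk_zero (mem_ball_zero_iff.1 hv.1).le)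
  · exact e2 _ (le_of_not_ge fun z => hv.1.2 (mem_closedBall_zero_iff.2 z))

/-- One crossing. Sketch. The zero is `v₀ = (r₀ x₀, y₀)`, `r₀ = (1 + t₀) / 2`, and `tc r = 2 r - 1` near
`r₀`. Let `L₀ (ξ, η) = (ξ 0 v₁ + ξ 1 v₂ + ξ 2 x₀, η 0 w₁ + η 1 w₂ + η 2 y₀)`, of positive determinant
(`det3 x₀ v₁ v₂ * det3 y₀ w₁ w₂`). The derivative `L` of the equation satisfies
`L (L₀ (ξ, η)) = j6 (-(C (crossFr (ξ 0 / r₀, ξ 1 / r₀, η 0, η 1, 2 ξ 2)))) (η 2)`; the permutation is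
even, so the sign is `(-1) ^ 5 ε`. `Cof.sgn_iff`, `ind_single`. If you find the opposite sign tell
helper28. -/
theorem trk_cross (h : TA a b) (hf : c.Flat a (Icc 0 1 ×ˢ S2)) {t₀ : ℝ} (ht : t₀ ∈ Ioo (0 : ℝ) 1)
    {x₀ y₀ : E 3} (hx : x₀ ∈ S2) (hy : y₀ ∈ S2) {ε : ℤˣ} (hc : c.Cross a b ε t₀ x₀ y₀)
    (d₁ : DifferentiableAt ℝ (c.am a) (t₀, x₀)) (d₂ : DifferentiableAt ℝ (c.am b) (t₀, y₀))
    (hu : ∀ t ∈ Icc (0 : ℝ) 1, ∀ x ∈ S2, ∀ y ∈ S2, a (t, x) = b (t, y) → t = t₀ ∧ x = x₀ ∧ y = y₀) :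
    c.trk a b = - (ε : ℤ) := by
  obtain ⟨e, v₁, v₂, w₁, w₂, hv, hw, hs⟩ := hc
  obtain ⟨C, hC⟩ := exists_cof (c.q (a (t₀, x₀)))
  obtain ⟨J, hJ⟩ := exists_j6
  obtain ⟨σ, s1, s2⟩ := trk_cyc
  obtain ⟨r, rfl⟩ : ∃ r, t₀ = 2 * r - 1 := ⟨(1 + t₀) / 2, by ring⟩
  have r1 : 1 / 2 < r := by linarith [ht.1]
  have r2 : r < 1 := by linarith [ht.2]
  have r0 : 0 < r := by linarith
  have n : ‖r • x₀‖ = r := by
    rw [norm_smul, mem_sphere_zero_iff_norm.1 hx, mul_one, Real.norm_of_nonneg r0.le]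
  have n1 : tc ‖r • x₀‖ = 2 * r - 1 := by rw [n, trk_mid r1 r2]
  have n2 : nrm (r • x₀) = x₀ := by rw [nrm_smul r0, nrm_of_S2 hx]
  obtain ⟨a1, A, a2, a3⟩ := trk_der hx r0
  obtain ⟨b1, B, b2, b3⟩ := trk_der hy one_pos
  rw [one_smul] at b1 b2
  have t : HasDerivAt tc 2 ‖r • x₀‖ := by
    rw [n]
    refine HasDerivAt.congr_of_eventuallyEq (f := fun r => 2 * r - 1) ?_
      (Filter.mem_of_superset (Ioo_mem_nhds r1 r2) fun z k => trk_mid k.1 k.2)
    simpa using ((hasDerivAt_id r).const_mul 2).sub_const 1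
  have p1 := hasFDerivAt_fst (𝕜 := ℝ) (p := (r • x₀, y₀))
  have p2 := hasFDerivAt_snd (𝕜 := ℝ) (p := (r • x₀, y₀))
  have t1 := (t.comp_hasFDerivAt _ a1).comp (r • x₀, y₀) p1
  have f1 := HasFDerivAt.comp (r • x₀, y₀)
    (by simpa only [Function.comp, n1, n2] using d₁.hasFDerivAt)
    (t1.prodMk (a2.comp (r • x₀, y₀) p1)) (g := c.am a) (g' := fderiv ℝ (c.am a) (2 * r - 1, x₀))
  have g1 := HasFDerivAt.comp (r • x₀, y₀)
    (by simpa only [Function.comp, n1, nrm_of_S2 hy] using d₂.hasFDerivAt)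
    (t1.prodMk (b2.comp (r • x₀, y₀) p2)) (g := c.am b) (g' := fderiv ℝ (c.am b) (2 * r - 1, y₀))
  obtain ⟨L, k, hL⟩ : ∃ L : V6 →L[ℝ] V6, HasFDerivAt (c.eq6 (fun _ => C)
      (fun v => a (tc ‖v.1‖, nrm v.1)) (fun v => b (tc ‖v.1‖, nrm v.2)) fun v => ‖v.2‖ - 1) L
      (r • x₀, y₀) ∧ ∀ ξ η, L (ξ, η) =
        J (C (fderiv ℝ (c.am b) (2 * r - 1, y₀) (2 * inner ℝ x₀ ξ, B η) -
          fderiv ℝ (c.am a) (2 * r - 1, x₀) (2 * inner ℝ x₀ ξ, A ξ)), inner ℝ y₀ η) :=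
    ⟨_, (J.hasFDerivAt.comp (r • x₀, y₀) ((C.hasFDerivAt.comp _ (g1.sub f1)).prodMk
      ((b1.comp (r • x₀, y₀) p2).sub_const 1))).congr_of_eventuallyEq
      (.of_forall fun v => (hJ _ _).symm), fun _ _ => rfl⟩
  refine (ind_single (trk_adm h hf) (v₀ := (r • x₀, y₀)) (s := -ε) (C := C) ?_
    (by rwa [n1, n2]) k ?_).trans (by simp)
  · refine eq_singleton_iff_unique_mem.2 ⟨⟨⟨fun z => ?_, ne_zero_of_S2 hy⟩, ?_, trk_S2.1 hy⟩,
      fun v z => ?_⟩
    · rw [show r • x₀ = 0 from z, norm_zero] at n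
      exact r0.ne n
    · simpa only [n1, n2, nrm_of_S2 hy] using e
    · obtain ⟨z1, z2, z3⟩ := hu _ (trk_mem _) _ (nrm_mem z.1.1) _ (nrm_mem z.1.2) z.2.1
      have := h.rad (nrm_mem z.1.1) (nrm_mem z.1.2) z.2.1
      rw [trk_mid this.1 this.2] at z1
      rw [nrm_of_S2 (trk_S2.2 z.2.2)] at z3
      exact Prod.ext (by rw [← norm_smul_nrm v.1, z2, show ‖v.1‖ = r by linarith]) z3
  · have q := trk_det (J := J) (L := L) (P := fr ![r • v₁, r • v₂, (1 / 2 : ℝ) • x₀])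
      (Q := fr ![w₁, w₂, y₀]) (σ := σ)
      (A := C.comp (c.crossFr a b (2 * r - 1) x₀ y₀ v₁ v₂ w₁ w₂)) fun u s => by
        have i1 := real_inner_self_eq_norm_sq x₀
        have i2 := real_inner_self_eq_norm_sq y₀
        rw [mem_sphere_zero_iff_norm.1 hx, one_pow] at i1
        rw [mem_sphere_zero_iff_norm.1 hy, one_pow] at i2
        have j1 : fr ![r • v₁, r • v₂, (1 / 2 : ℝ) • x₀] (J (σ u, s)).1 =
            r • (u 0 • v₁ + u 1 • v₂) + (u 4 / 2) • x₀ := by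
          simp only [hJ, j6, s2, fr_apply, pr3, Fin.sum_univ_three]
          simp only [Matrix.cons_val]
          module
        have j2 : fr ![w₁, w₂, y₀] (J (σ u, s)).2 = u 2 • w₁ + u 3 • w₂ + s • y₀ := by
          simp only [hJ, j6, s2, fr_apply, pr3, Fin.sum_univ_three]
          simp only [Matrix.cons_val]
        have j3 : inner ℝ x₀ (r • (u 0 • v₁ + u 1 • v₂) + (u 4 / 2) • x₀) = u 4 / 2 := by
          rw [inner_add_right, inner_smul_right, inner_smul_right, lnk_inner_OB hv, i1]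
          ring
        have j4 : inner ℝ y₀ (u 2 • w₁ + u 3 • w₂ + s • y₀) = s := by
          rw [inner_add_right, inner_smul_right, lnk_inner_OB hw, i2]
          ring
        have j5 : A (r • (u 0 • v₁ + u 1 • v₂) + (u 4 / 2) • x₀) = u 0 • v₁ + u 1 • v₂ := by
          rw [a3, j3, add_sub_cancel_right, inv_smul_smul₀ r0.ne']
        rw [j1, j2, hL, b3, j3, j4, j5]
        simp [lnk_crossFr, mul_div_cancel₀]
    have q1 := (hC.sgn_iff.1 hs).2
    have q2 : 0 < det3 ((1 / 2 : ℝ) • x₀) (r • v₁) (r • v₂) := by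
      have : 0 < r ^ 2 / 2 * det3 x₀ v₁ v₂ := mul_pos (by positivity) hv.2.2
      refine this.trans_eq ?_
      simp only [det3, PiLp.smul_apply, smul_eq_mul]
      ring
    rw [trk_fr, trk_fr, mul_assoc] at q
    refine (mul_pos_iff_of_pos_right (mul_pos (mul_pos q2 hw.2.2) s1)).1 ?_
    rw [mul_assoc, q]
    simpa using q1

end Ctx

end Pool.Agent.CSP
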