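import Pool.Agent.Lib.MP_436e1a_gt.E.InterSwap
import Pool.Agent.Lib.MP_436e1a_gt.E.InterDd
import Pool.Agent.Lib.MP_436e1a_gt.E.Trk
import Pool.Agent.Lib.MP_436e1a_gt.E.TorsL
import Pool.Agent.Lib.MP_436e1a_gt.E.FlatT
import Pool.Agent.Lib.MP_436e1a_gt.B.AutL

/-! Linking numbers of disjoint torsion spheres. -/

open Set Metric

namespace Pool.Agent.CSP

theorem lkx_mem {x : E 3} (h : x ∈ S2) : dd x ∈ S2 := dd_mem (ne_zero_of_S2 h)

theorem lkx_cont : ContinuousOn dd S2 :=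
  contDiffOn_dd.continuousOn.mono fun _ h => ne_zero_of_S2 h

theorem lkx_symm {Y : Type} {a b : E 3 → Y} (h : Dj a b) : Dj b a :=
  fun x hx y hy => (h y hy x hx).symm

theorem lkx_dj {Y : Type} {a b D : E 3 → Y} (h : Dj a b) (e : ∀ x ∈ S2, D x = a (dd x)) : Dj D b :=
  fun x hx y hy => (e x hx).trans_ne (h _ (lkx_mem hx) y hy)

theorem lkx_htp {Y : Type} [TopologicalSpace Y] {a : ℝ × E 3 → Y}
    (h : ContinuousOn a (Icc 0 1 ×ˢ S2)) : HtpOn S2 (fun x => a (0, x)) fun x => a (1, x) :=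
  ⟨a, h, fun _ _ => rfl, fun _ _ => rfl⟩

namespace Ctx

variable {c : Ctx} {a a' b b' b₁ b₂ D : E 3 → c.Y}

theorem lkx_three (h : BS D b) {D' : E 3 → c.Y} (hD : ContinuousOn D' B3)
    (e : ∀ x ∈ S2, D' x = b (dd x)) : 3 * c.inter D b = - c.inter D' D := by
  have h1 : BS D fun y => b (dd y) := ⟨h.ball, h.sph.comp lkx_cont fun _ => lkx_mem,
    fun x hx y hy => h.dj x hx _ (lkx_mem hy)⟩
  rw [← inter_dd h, ← inter_congr h1 (fun _ _ => rfl) e,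
    inter_swap h.ball hD (lkx_symm (lkx_dj (lkx_symm h.dj) e))]

theorem lkx_map {ψ : c.Y → c.Y} {φ : c.M → c.M} (hc : Continuous ψ) (hψ : LocMap c c ψ φ univ)
    (h : BS D b) : c.inter (fun x => ψ (D x)) (fun y => ψ (b y)) = c.inter D b := by
  have h1 : BS (fun x => ψ (D x)) fun y => ψ (b y) := ⟨hc.comp_continuousOn h.ball,
    hc.comp_continuousOn h.sph, fun x hx y hy e => h.dj x hx y hy (hψ.inj trivial trivial e)⟩
  have h2 := inter_nat (κ := Unit) Finset.univ (c' := fun _ => c) (A := fun _ => ψ)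
    (φ := fun _ => φ) (W := fun _ => univ) (fun _ _ => hψ) (D' := fun _ => D) (b' := fun _ => b) h1
    (fun _ _ => h) (N := fun _ => univ) (fun _ _ => isOpen_univ) (fun _ _ _ _ _ _ _ _ _ _ => rfl)
    (fun _ _ _ _ _ => ⟨(), Finset.mem_univ _, trivial⟩) (fun _ _ _ _ _ _ _ => trivial)
    fun _ _ _ _ _ _ _ => ⟨trivial, trivial, rfl, rfl⟩
  rwa [Fintype.sum_unique] at h2

/-- Independence of the ball: `3 inter D b = inter D (b ∘ dd) = inter D D_b = - inter D_b D`, and the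
last number depends on `D` only through `D = a ∘ dd` on `S2` (`inter_congr`). -/
theorem lk_eq (ha : Tors a) (hb : Tors b) (h : Dj a b) (hD : ContinuousOn D B3)
    (e : ∀ x ∈ S2, D x = a (dd x)) : c.lk a b = c.inter D b := by
  obtain ⟨h0, e0⟩ := ha.2.choose_spec
  obtain ⟨D', hD', e'⟩ := hb.2
  have h1 := lkx_three ⟨h0, hb.1, lkx_dj h e0⟩ hD' e'
  have h2 := lkx_three ⟨hD, hb.1, lkx_dj h e⟩ hD' e'
  have h3 : c.inter D' ha.2.choose = c.inter D' D :=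
    inter_congr ⟨hD', hD.mono sphere_subset_closedBall, lkx_dj (lkx_symm (lkx_dj h e)) e'⟩
      (fun _ _ => rfl) fun x hx => (e0 x hx).trans (e x hx).symm
  rw [lk, dif_pos ha]
  omega

theorem lk_congr (ha : Tors a) (hb : Tors b) (h : Dj a b) (e₁ : EqOn a' a S2) (e₂ : EqOn b' b S2) :
    c.lk a' b' = c.lk a b := by
  obtain ⟨D, hD, e⟩ := ha.2
  have h' : Dj a' b' := fun x hx y hy => by
    rw [e₁ hx, e₂ hy]
    exact h x hx y hy
  rw [lk_eq (ha.congr e₁) (hb.congr e₂) h' hD fun x hx => (e x hx).trans (e₁ (lkx_mem hx)).symm,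
    lk_eq ha hb h hD e]
  exact inter_congr ⟨hD, hb.1, lkx_dj h e⟩ (fun _ _ => rfl) e₂

theorem lk_skew (ha : Tors a) (hb : Tors b) (h : Dj a b) : c.lk b a = - c.lk a b := by
  obtain ⟨D, hD, e⟩ := ha.2
  obtain ⟨D', hD', e'⟩ := hb.2
  have h1 := lkx_three ⟨hD, hb.1, lkx_dj h e⟩ hD' e'
  have h2 := lkx_three ⟨hD', ha.1, lkx_dj (lkx_symm h) e'⟩ hD e
  have h3 := inter_swap hD hD' (lkx_symm (lkx_dj (lkx_symm (lkx_dj h e)) e'))
  rw [lk_eq ha hb h hD e, lk_eq hb ha (lkx_symm h) hD' e']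
  omega

theorem lk_dd (ha : Tors a) (hb : Tors b) (h : Dj a b) :
    c.lk a (fun y => b (dd y)) = 3 * c.lk a b := by
  obtain ⟨D, hD, e⟩ := ha.2
  rw [lk_eq ha hb.dd (fun x hx y hy => h x hx _ (lkx_mem hy)) hD e, lk_eq ha hb h hD e]
  exact inter_dd ⟨hD, hb.1, lkx_dj h e⟩

theorem lk_rf (ha : Tors a) (hb : Tors b) (h : Dj a b) :
    c.lk a (fun y => b (rf3 y)) = - c.lk a b := by
  obtain ⟨D, hD, e⟩ := ha.2
  have h1 : Tors fun y => b (rf3 y) := hb.rfb true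
  rw [lk_eq ha h1 (fun x hx y hy => h x hx _ (mem_sphere_zero_iff_norm.2
    ((norm_rf3 y).trans (mem_sphere_zero_iff_norm.1 hy)))) hD e, lk_eq ha hb h hD e]
  exact inter_rf ⟨hD, hb.1, lkx_dj h e⟩

/-- a sphere that bounds the ball `D` -/
theorem lk_bound (ha : Tors a) (hD : ContinuousOn D B3) (h : Dj a D) :
    c.lk a D = - 3 * c.inter D a := by
  obtain ⟨D', hD', e⟩ := ha.2
  have h1 := lkx_three ⟨hD, ha.1, lkx_symm h⟩ hD' e
  rw [lk_eq ha (tors_of_ball hD fun _ _ => rfl) h hD' e]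
  omega

theorem lk_bound_empty (ha : Tors a) (hD : ContinuousOn D B3) (h : ∀ x ∈ S2, ∀ y ∈ B3, a x ≠ D y) :
    c.lk a D = 0 := by
  have h1 : Dj a D := fun x hx y hy => h x hx y (sphere_subset_closedBall hy)
  rw [lk_bound ha hD h1, inter_empty ⟨hD, ha.1, lkx_symm h1⟩ fun x hx y hy => (h y hy x hx).symm,
    mul_zero]

/-- change along homotopies: `Tors.flat`, `Flat.htp`, `trk_inter` for `a ∘ dd`, `trk_dd` -/
theorem lk_trk {a b : ℝ × E 3 → c.Y} (h : TA a b) (ha : Tors fun x => a (0, x))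
    (hb : Tors fun y => b (0, y)) :
    c.lk (fun x => a (1, x)) (fun y => b (1, y)) =
      c.lk (fun x => a (0, x)) (fun y => b (0, y)) + 3 * c.trk a b := by
  have hf : c.Flat a (Icc 0 1 ×ˢ S2) := Flat.htp (isCompact_sphere _ _) h.ca ha.flat
  have hφ : ContinuousOn (fun p : ℝ × E 3 => (p.1, dd p.2)) (Icc 0 1 ×ˢ S2) :=
    continuousOn_fst.prodMk (lkx_cont.comp continuousOn_snd fun _ hp => hp.2)
  have hm : MapsTo (fun p : ℝ × E 3 => (p.1, dd p.2)) (Icc 0 1 ×ˢ S2) (Icc 0 1 ×ˢ S2) :=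
    fun _ hp => ⟨hp.1, lkx_mem hp.2⟩
  have h' : TA (fun p => a (p.1, dd p.2)) b := ⟨h.ca.comp hφ hm, h.cb,
    lkx_dj h.d0 fun _ _ => rfl, lkx_dj h.d1 fun _ _ => rfl⟩
  obtain ⟨D₀, hD₀, e₀⟩ := ha.2
  obtain ⟨D₁, hD₁, e₁, h1⟩ := trk_inter h' (hf.comp hφ hm) hD₀ e₀
  rw [lk_eq (ha.htp (lkx_htp h.ca)) (hb.htp (lkx_htp h.cb)) h.d1 hD₁ e₁, lk_eq ha hb h.d0 hD₀ e₀,
    h1, trk_dd h hf]

theorem lk_mod (ha : Tors a) (hb : Tors b) (h : Dj a b) (h' : Dj a' b') (H₁ : HtpOn S2 a a')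
    (H₂ : HtpOn S2 b b') : (c.lk a' b' : ZMod 3) = (c.lk a b : ZMod 3) := by
  have ha' := ha.htp H₁
  have hb' := hb.htp H₂
  obtain ⟨A, hA, a0, a1⟩ := H₁
  obtain ⟨B, hB, b0, b1⟩ := H₂
  have h1 := lk_trk (c := c) (a := A) (b := B) ⟨hA, hB,
    fun x hx y hy => ((a0 x hx).trans_ne (h x hx y hy)).trans_eq (b0 y hy).symm,
    fun x hx y hy => ((a1 x hx).trans_ne (h' x hx y hy)).trans_eq (b1 y hy).symm⟩
    (ha.congr a0) (hb.congr b0)
  rw [lk_congr ha hb h a0 b0, lk_congr ha' hb' h' a1 b1] at h1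
  rw [h1, Int.cast_add, Int.cast_mul, show ((3 : ℤ) : ZMod 3) = 0 from rfl, zero_mul, add_zero]

theorem lk_fam0 {a b : ℝ × E 3 → c.Y} (h1 : ContinuousOn a (Icc 0 1 ×ˢ S2))
    (h2 : ContinuousOn b (Icc 0 1 ×ˢ S2))
    (h : ∀ t ∈ Icc (0 : ℝ) 1, Dj (fun x => a (t, x)) fun y => b (t, y))
    (ha : Tors fun x => a (0, x)) (hb : Tors fun y => b (0, y)) :
    c.lk (fun x => a (1, x)) (fun y => b (1, y)) = c.lk (fun x => a (0, x)) fun y => b (0, y) := by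
  have h' : TA a b := ⟨h1, h2, h 0 ⟨le_rfl, zero_le_one⟩, h 1 ⟨zero_le_one, le_rfl⟩⟩
  rw [lk_trk h' ha hb, trk_empty h' (Flat.htp (isCompact_sphere _ _) h1 ha.flat) h, mul_zero,
    add_zero]

theorem lkx_lk {ψ : c.Y → c.Y} {φ : c.M → c.M} (hc : Continuous ψ) (hψ : LocMap c c ψ φ univ)
    (ha : Tors a) (hb : Tors b) (h : Dj a b) :
    c.lk (fun x => ψ (a x)) (fun y => ψ (b y)) = c.lk a b := by
  obtain ⟨D, hD, e⟩ := ha.2
  rw [lk_eq (ha.map hc) (hb.map hc) (fun x hx y hy e => h x hx y hy (hψ.inj trivial trivial e))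
    (D := fun x => ψ (D x)) (hc.comp_continuousOn hD) fun x hx => congrArg ψ (e x hx),
    lk_eq ha hb h hD e]
  exact lkx_map hc hψ ⟨hD, hb.1, lkx_dj h e⟩

theorem lkx_aut (φ : c.Aut) : LocMap c c φ.up φ.dn univ :=
  ⟨isOpen_univ, φ.emb, φ.up_bij.1.injOn, fun y _ => φ.comm y⟩

/-- `inter_nat` with one piece, `A = (g • ·)`, `φ = id` -/
theorem lk_smul (ha : Tors a) (hb : Tors b) (h : Dj a b) (g : c.G) :
    c.lk (fun x => g • a x) (fun y => g • b y) = c.lk a b := by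
  exact lkx_lk (ψ := fun y => g • y) (φ := id) (c.continuous_smul g)
    ⟨isOpen_univ, emb_id _, (MulAction.injective g).injOn, fun y _ => c.q_smul g y⟩ ha hb h

theorem inter_aut (h : BS D b) (φ : c.Aut) :
    c.inter (fun x => φ.up (D x)) (fun y => φ.up (b y)) = c.inter D b := by
  exact lkx_map φ.cont (lkx_aut φ) h

theorem lk_aut (ha : Tors a) (hb : Tors b) (h : Dj a b) (φ : c.Aut) :
    c.lk (fun x => φ.up (a x)) (fun y => φ.up (b y)) = c.lk a b := by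
  exact lkx_lk φ.cont (lkx_aut φ) ha hb h

/-- `finite_meet` for `D '' B3` and `b '' S2`, `inter_empty` -/
theorem lk_fin (ha : Tors a) (hb : Tors b) :
    {g : c.G | (Dj a fun y => g • b y) ∧ c.lk a (fun y => g • b y) ≠ 0}.Finite := by
  obtain ⟨D, hD, e⟩ := ha.2
  refine (c.finite_meet ((isCompact_closedBall _ _).image_of_continuousOn hD)
    ((isCompact_sphere _ _).image_of_continuousOn hb.1)).subset fun g hg => ?_
  by_contra hn
  have hb' : Tors fun y => g • b y := hb.map (c.continuous_smul g)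
  refine hg.2 ((lk_eq ha hb' hg.1 hD e).trans (inter_empty ⟨hD, hb'.1, lkx_dj hg.1 e⟩ ?_))
  exact fun x hx y hy h => hn ⟨_, ⟨x, hx, rfl⟩, _, ⟨y, hy, rfl⟩, h⟩

end Ctx

end Pool.Agent.CSP
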