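import Pool.Agent.Lib.MP_436e1a_gt.E.Lk

/-! Linking numbers along chains of crossing changes. -/

open Set

namespace Pool.Agent.CSP

namespace Ctx

variable {c : Ctx} {ι : Type} {L L' : ι → E 3 → c.Y}

/-- a family of torsion spheres whose translates are pairwise disjoint -/
structure TL (c : Ctx) (L : ι → E 3 → c.Y) : Prop where
  tors : ∀ i, Tors (L i)
  dj : ∀ i j (g : c.G), ¬ (i = j ∧ g = 1) → Dj (L i) fun y => g • L j y

theorem Link.tl (h : c.Link L) (ht : ∀ i, Tors (L i)) : c.TL L := by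
  exact ⟨ht, fun _ _ _ hne => h.dj hne⟩

/-- `lk_aut`, `lk_congr`, `Tors.map`; for disjointness use `Aut.up_bij` and `equi` -/
theorem Eqv.lk (h : c.Eqv L L') (hL : c.TL L) : c.TL L' ∧ ∀ i j (g : c.G), ¬ (i = j ∧ g = 1) →
    c.lk (L' i) (fun y => g • L' j y) = c.lk (L i) fun y => g • L j y := by
  obtain ⟨φ, hφ⟩ := h
  have hd : ∀ i j (g : c.G), ¬ (i = j ∧ g = 1) →
      Dj (fun x => φ.up (L i x)) fun y => φ.up (g • L j y) :=
    fun i j g hne x hx y hy e => hL.dj i j g hne x hx y hy (φ.up_bij.1 e)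
  refine ⟨⟨fun i => ((hL.tors i).map φ.cont).congr fun x hx => (hφ i x hx).symm,
    fun i j g hne x hx y hy e => hd i j g hne x hx y hy ?_⟩, fun i j g hne => ?_⟩
  · show φ.up (L i x) = φ.up (g • L j y)
    rw [φ.equi, hφ i x hx, hφ j y hy]
    exact e
  · have hb := (hL.tors j).map (c.continuous_smul g)
    rw [← lk_aut (hL.tors i) hb (hL.dj i j g hne) φ]
    refine lk_congr ((hL.tors i).map φ.cont) (hb.map φ.cont) (hd i j g hne)
      (fun x hx => (hφ i x hx).symm) fun y hy => ?_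
    show g • L' j y = φ.up (g • L j y)
    rw [φ.equi, hφ j y hy]

theorem lkstep_zero {a : E 3 → c.Y} {g : c.G} (ha : Tors a) (h : Dj a fun y => g • a y)
    (hg : g = g⁻¹) : c.lk a (fun y => g • a y) = 0 := by
  have hb := ha.map (c.continuous_smul g)
  have h1 := lk_smul ha hb h g
  have h2 := lk_skew ha hb h
  have e : (fun y => g • g • a y) = a := funext fun y => by
    nth_rewrite 1 [hg]
    exact inv_smul_smul g (a y)
  rw [e] at h1
  omega

theorem lkstep_fam {F : ι → ℝ × E 3 → c.Y} {δ : Dat ι c.G} (h : c.StepFam F δ)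
    (h0 : c.TL (sl F 0)) : c.TL (sl F 1) ∧ ∀ i j (g : c.G), ¬ (i = j ∧ g = 1) →
      c.lk (sl F 1 i) (fun y => g • sl F 1 j y) =
        c.lk (sl F 0 i) (fun y => g • sl F 0 j y) - 3 * chi [δ] i j g := by
  have h1 : c.TL (sl F 1) := h.link_one.tl fun i =>
    (h0.tors i).htp ⟨F i, h.fam.continuousOn i, fun _ _ => rfl, fun _ _ => rfl⟩
  refine ⟨h1, fun i j g hne => ?_⟩
  have hT : TA (F i) fun p => g • F j p :=
    ⟨h.fam.continuousOn i, (c.continuous_smul g).comp_continuousOn (h.fam.continuousOn j),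
      h0.dj i j g hne, h1.dj i j g hne⟩
  have hf : c.Flat (F i) (Icc 0 1 ×ˢ S2) :=
    Flat.htp (isCompact_sphere _ _) hT.ca (h0.tors i).flat
  have e : c.lk (sl F 1 i) (fun y => g • sl F 1 j y) =
      c.lk (sl F 0 i) (fun y => g • sl F 0 j y) + 3 * c.trk (F i) fun p => g • F j p :=
    lk_trk hT (h0.tors i) ((h0.tors j).map (c.continuous_smul g))
  obtain ⟨t₀, ht₀, x₀, hx₀, y₀, hy₀, -, hc, hu⟩ := h.one
  have ht' := Ioo_subset_Icc_self ht₀
  have key : ∀ t ∈ Icc (0 : ℝ) 1, ∀ x ∈ S2, ∀ y ∈ S2, F i (t, x) = g • F j (t, y) → t = t₀ ∧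
      (((δ.i = i ∧ δ.j = j ∧ δ.g = g) ∧ x = x₀ ∧ y = y₀) ∨
        ((δ.i = j ∧ δ.j = i ∧ δ.g = g⁻¹) ∧ x = y₀ ∧ y = x₀)) := by
    intro t ht x hx y hy e
    have e0 : F δ.i (t₀, x₀) = δ.g • F δ.j (t₀, y₀) := hc.1
    rcases hu t ht i j x hx y hy (by rw [e, c.q_smul]) with
      ⟨rfl, rfl⟩ | ⟨rfl, ⟨rfl, rfl, rfl, rfl⟩ | ⟨rfl, rfl, rfl, rfl⟩⟩
    · exact (hne ⟨rfl, c.smul_eq_self e.symm⟩).elim
    · refine ⟨rfl, Or.inl ⟨⟨rfl, rfl, (inv_mul_eq_one.1 (c.smul_eq_self (y := F δ.j (t, y)) ?_)).symm⟩,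
        rfl, rfl⟩⟩
      rw [mul_smul, ← e0, e, inv_smul_smul]
    · refine ⟨rfl, Or.inr ⟨⟨rfl, rfl, eq_inv_of_mul_eq_one_right
        (c.smul_eq_self (y := F δ.j (t, x)) ?_)⟩, rfl, rfl⟩⟩
      rw [mul_smul, ← e0, ← e]
  simp only [chi, List.map_cons, List.map_nil, List.sum_cons, List.sum_nil, add_zero]
  by_cases hP : δ.i = i ∧ δ.j = j ∧ δ.g = g <;> by_cases hQ : δ.i = j ∧ δ.j = i ∧ δ.g = g⁻¹
  · obtain rfl : i = j := hP.1.symm.trans hQ.1
    have hg : g = g⁻¹ := hP.2.2.symm.trans hQ.2.2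
    rw [if_pos hP, if_pos hQ, lkstep_zero (h0.tors i) (h0.dj i i g hne) hg,
      lkstep_zero (h1.tors i) (h1.dj i i g hne) hg, sub_self, mul_zero, sub_self]
  · rw [if_pos hP, if_neg hQ, e, trk_cross hT hf ht₀ hx₀ hy₀ (ε := δ.ε)
      (by rw [← hP.1, ← hP.2.1, ← hP.2.2]; exact hc) ((h.fam i).differentiableAt ⟨ht', hx₀⟩)
      (((h.fam j).smul g).differentiableAt ⟨ht', hy₀⟩) fun t ht x hx y hy e =>
        (key t ht x hx y hy e).imp_right fun k => k.elim (·.2) fun k => (hQ k.1).elim]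
    ring
  · have hc' := (hc.smul g).symm
    rw [hQ.1, hQ.2.1, hQ.2.2] at hc'
    simp only [smul_inv_smul] at hc'
    rw [if_neg hP, if_pos hQ, e, trk_cross hT hf ht₀ hy₀ hx₀ hc'
      ((h.fam i).differentiableAt ⟨ht', hy₀⟩)
      (((h.fam j).smul g).differentiableAt ⟨ht', hx₀⟩) fun t ht x hx y hy e =>
        (key t ht x hx y hy e).imp_right fun k => k.elim (fun k => (hP k.1).elim) (·.2),
      Units.val_neg]
    ring
  · rw [if_neg hP, if_neg hQ, e, trk_empty hT hf fun t ht x hx y hy e =>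
      (key t ht x hx y hy e).2.elim (fun k => hP k.1) fun k => hQ k.1]
    ring

/-- Sketch. For the family `F` of the step apply `lk_trk` to `a = F i`, `b = g • F j`. A coincidence
`F i (t, x) = g • F j (t, y)` is the double point, read in one of the two orders; the label is determined
because the action is free. So there are four cases: none (`trk_empty`); `(i, j, g) = (δ.i, δ.j, δ.g)`
only (`trk_cross`); `(j, i, g⁻¹) = (δ.i, δ.j, δ.g)` only (`Cross.smul`, `Cross.symm`, `trk_cross`); both,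
that is `i = j`, `g = g⁻¹`: then `chi = 0` and both linking numbers vanish by `lk_skew` and `lk_smul`. -/
theorem Step.lk {δ : Dat ι c.G} (h : c.Step L δ L') (hL : c.TL L) :
    c.TL L' ∧ ∀ i j (g : c.G), ¬ (i = j ∧ g = 1) →
      c.lk (L' i) (fun y => g • L' j y) = c.lk (L i) (fun y => g • L j y) - 3 * chi [δ] i j g := by
  obtain ⟨F, hF, e0, e1⟩ := h
  obtain ⟨h0, k0⟩ := e0.lk hL
  obtain ⟨h1, k1⟩ := lkstep_fam hF h0
  obtain ⟨h2, k2⟩ := e1.lk h1
  exact ⟨h2, fun i j g hne => by rw [k2 i j g hne, k1 i j g hne, k0 i j g hne]⟩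

theorem Chain.lk {l : List (Dat ι c.G)} (h : c.Chain L l L') (hL : c.TL L) :
    c.TL L' ∧ ∀ i j (g : c.G), ¬ (i = j ∧ g = 1) →
      c.lk (L' i) (fun y => g • L' j y) = c.lk (L i) (fun y => g • L j y) - 3 * chi l i j g := by
  induction h with
  | nil e =>
    obtain ⟨h1, k1⟩ := e.lk hL
    exact ⟨h1, fun i j g hne => by rw [k1 i j g hne, chi, List.map_nil, List.sum_nil]; ring⟩
  | cons s _ ih =>
    obtain ⟨h1, k1⟩ := s.lk hL
    obtain ⟨h2, k2⟩ := ih h1
    refine ⟨h2, fun i j g hne => ?_⟩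
    rw [k2 i j g hne, k1 i j g hne]
    simp only [chi, List.map_cons, List.map_nil, List.sum_cons, List.sum_nil]
    ring

end Ctx

end Pool.Agent.CSP
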